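import Pool.Agent.CPW.Targets

set_option autoImplicit false

/-!
# CPW: unfolding of the weight
-/

namespace Pool.Agent.CPW

namespace BBA_

theorem bK_succ (s : Sq) (K n : ℕ) : bK s (K + 1) n =
    if n < s.Z K then bK s K n
    else if n < s.g K then min (n - s.Y K) (Tp s K)
    else if n < 2 * s.g K - x s K then
      (if n - s.g K < s.Z K then bK s K (n - s.g K)
        else min (n - s.g K - s.Y K) (Tp s K)) + Up s K
    else if n < 2 * s.g K + 2 * s.Z K then et s K + bn s K (n - (2 * s.g K - x s K))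
    else 0 := by
  rw [bK]

theorem mono (s : Sq) (hZ : ∀ K K', K ≤ K' → s.Z K ≤ s.Z K') (K n : ℕ) (hn : n < s.Z K) (d : ℕ) :
    bK s (K + d) n = bK s K n := by
  induction d with
  | zero => rfl
  | succ d ih =>
    have h1 : s.Z K ≤ s.Z (K + d) := hZ _ _ (Nat.le_add_right _ _)
    rw [← Nat.add_assoc, bK_succ, if_pos (by omega), ih]

end BBA_

open BBA_ in
theorem p_BBA (h1 : T_XFA) : T_BBA := by
  intro s hs
  obtain ⟨c1, c2, -, c4, -⟩ := h1 s hs
  have hZ : ∀ K K', K ≤ K' → s.Z K ≤ s.Z K' := fun K K' h => (c2 K K' h).1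
  have a1 : ∀ K n, n < s.Z K → bK s K n = bb s n := by
    intro K n hn
    have h2 := (c1 (n + 1)).2.1
    have h3 := mono s hZ K n hn (max K (n + 1) - K)
    have h4 := mono s hZ (n + 1) n (by omega) (max K (n + 1) - (n + 1))
    have h5 : K + (max K (n + 1) - K) = max K (n + 1) := by omega
    have h6 : n + 1 + (max K (n + 1) - (n + 1)) = max K (n + 1) := by omega
    rw [h5] at h3
    rw [h6] at h4
    rw [← h3, h4]
    rfl
  have a3 : ∀ K n, s.Z K ≤ n → n < s.g K → bb s n = min (n - s.Y K) (Tp s K) := by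
    intro K n h2 h3
    have h4 := hs.zs K
    rw [← a1 (K + 1) n (by omega), bK_succ, if_neg (by omega), if_pos h3]
  refine ⟨a1, ?_, a3, ?_, ?_, ?_, ?_⟩
  · intro K n hn
    rcases K with _ | K
    · rfl
    · have h2 := hs.zs K
      have h3 := (c1 K).2.2.1
      rw [bK_succ, if_neg (by omega), if_neg (by omega), if_neg (by omega), if_neg (by omega)]
  · intro K n h2 h3
    have h4 := hs.zs K
    have h5 := (c1 K).2.2.1
    rw [← a1 (K + 1) n (by omega), bK_succ, if_neg (by omega), if_neg (by omega), if_pos h3]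
    by_cases h6 : n - s.g K < s.Z K
    · rw [if_pos h6, a1 K _ h6]
    · rw [if_neg h6, a3 K (n - s.g K) (by omega) (by omega)]
  · intro K n h2 h3
    have h4 := hs.zs K
    have h5 := (c1 K).2.2.1
    have h6 := c4 K K (by omega)
    rw [← a1 (K + 1) n (by omega), bK_succ, if_neg (by omega), if_neg (by omega),
      if_neg (by omega), if_pos h3]
  · intro K n h2 h3
    have h4 := hs.zs K
    have h5 := (c1 K).2.2.1
    rw [← a1 (K + 1) n (by omega), bK_succ, if_neg (by omega), if_neg (by omega),
      if_neg (by omega), if_neg (by omega)]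
  · intro n hn
    rw [← a1 0 n hn]
    rfl

end Pool.Agent.CPW
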