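import Pool.Agent.CPW.Targets

set_option autoImplicit false

/-!
# CPW: BBB: facts on the weight
-/

namespace Pool.Agent.CPW

open Polynomial Filter Topology

namespace BBB_

/-- the elementary facts used below -/
structure Fa (s : Sq) : Prop where
  z2 : ∀ K, 2 ≤ s.Z K
  zk : ∀ K, K ≤ s.Z K
  gz : ∀ K, 4 * s.Z K ≤ s.g K
  zs : ∀ K, s.Z (K + 1) = 3 * s.g K
  zlt : ∀ K, s.Z K < s.Z (K + 1)
  zm : ∀ K K', K ≤ K' → s.Z K ≤ s.Z K'
  xk : ∀ K k, k ≤ 2 * K → 1 ≤ x s k ∧ x s k < s.Z K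
  al6 : ∀ k, 6 ≤ al s k
  yz : ∀ K, 70 * s.Z K ≤ s.Y K
  gy : ∀ K, s.Y K + Tp s K + Lp s K + 4 * s.Z K ≤ s.g K
  vz : ∀ k, V s k ≤ s.Z k
  vx : ∀ k, V s k < x s k

lemma fa (h1 : T_XFA) {s : Sq} (hs : Ok s) : Fa s := by
  obtain ⟨a1, a2, -, a4, -, -, a7, -, -, a10, -⟩ := h1 s hs
  refine ⟨fun K => (a1 K).1, fun K => (a1 K).2.1, fun K => (a1 K).2.2.1, hs.zs,
    fun K => (a1 K).2.2.2.2, fun K K' h => (a2 K K' h).1, a4, fun k => (a7 k).2.2, ?_, ?_,
    fun k => (a10.2 k).2.2.2.1, fun k => (a10.2 k).2.2.1⟩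
  · intro K
    refine le_trans ?_ (hs.y1 K)
    exact Nat.mul_le_mul_right _ (by omega)
  · intro K
    have := hs.g1 K
    unfold Tp Lp
    omega

lemma lp_le {s : Sq} (F : Fa s) {k : ℕ} (hk : 1 ≤ k) :
    Lp s ((k - 1) / 2) ≤ s.Z k + 6 * k + 47 := by
  set j := (k - 1) / 2 with hj
  have h1 : j + 1 ≤ k := by omega
  have h2 := F.zm _ _ h1
  have h3 := F.zs j
  have h4 := F.gz j
  unfold Lp
  omega

lemma et_le {s : Sq} (F : Fa s) (K : ℕ) : et s K ≤ 2 * s.Z K + K + 7 := by
  have := F.al6 K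
  unfold et
  omega

/-- the second window is lower than the first one -/
lemma el_le {s : Sq} (F : Fa s) {k : ℕ} (hk : 1 ≤ k) :
    et s k + Lp s ((k - 1) / 2) ≤ Tp s k + Up s k := by
  have h1 := lp_le F hk
  have h2 := et_le F k
  unfold Tp Up
  omega

lemma bn_le (h2 : T_BNF) {s : Sq} (hs : Ok s) (F : Fa s) (K n : ℕ) :
    et s K + bn s K n ≤ Tp s K + Up s K := by
  rcases Nat.eq_zero_or_pos K with h | h
  · subst h
    have h3 : bn s 0 n = 0 := by simp [bn]
    have h4 := et_le F 0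
    rw [h3]
    unfold Tp Up
    omega
  · have h3 := ((h2 s hs K).2.2.2 h).1 n
    have h4 := el_le F h
    omega

/-- the value just before a window -/
lemma before {s : Sq} (hs : Ok s) (h3 : T_BBA) (F : Fa s) (K m : ℕ) (hm1 : s.Y K + Tp s K ≤ m)
    (hm2 : m < s.g K) : bb s m = Tp s K := by
  obtain ⟨-, -, b3, -⟩ := h3 s hs
  have h4 := F.yz K
  have h5 := F.z2 K
  rw [b3 K m (by omega) hm2]
  omega

lemma step (h2 : T_BNF) (h3 : T_BBA) {s : Sq} (hs : Ok s) (F : Fa s) (K : ℕ)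
    (hC : ∀ n, n < s.Z K → bb s n ≤ Tp s K) :
    ∀ n, n < s.Z (K + 1) → bb s n ≤ Tp s K + Up s K := by
  obtain ⟨-, -, b3, b4, b5, b6, -⟩ := h3 s hs
  have hx := (F.xk K K (by omega))
  have hg := F.gz K
  have hlow : ∀ n, n < s.g K → bb s n ≤ Tp s K := by
    intro n hn
    rcases lt_or_ge n (s.Z K) with h | h
    · exact hC n h
    · rw [b3 K n h hn]
      exact min_le_right _ _
  intro n hn
  rcases lt_or_ge n (s.g K) with h | h
  · exact (hlow n h).trans (Nat.le_add_right _ _)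
  rcases lt_or_ge n (2 * s.g K - x s K) with h' | h'
  · rw [b4 K n h h']
    have := hlow (n - s.g K) (by omega)
    omega
  rcases lt_or_ge n (2 * s.g K + 2 * s.Z K) with h4 | h4
  · rw [b5 K n h' h4]
    exact bn_le h2 hs F K _
  · rw [b6 K n h4 hn]
    exact Nat.zero_le _

lemma le_tp (h2 : T_BNF) (h3 : T_BBA) {s : Sq} (hs : Ok s) (F : Fa s) (K : ℕ) :
    ∀ n, n < s.Z K → bb s n ≤ Tp s K := by
  induction K with
  | zero =>
    intro n hn
    obtain ⟨-, -, -, -, -, -, b7⟩ := h3 s hs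
    rw [b7 n hn]
    exact Nat.zero_le _
  | succ K ih =>
    intro n hn
    have h4 := step h2 h3 hs F K ih n hn
    have h5 := F.zs K
    have h6 := F.gz K
    unfold Tp Up at h4
    unfold Tp
    omega

lemma lipschitz (h2 : T_BNF) (h3 : T_BBA) {s : Sq} (hs : Ok s) (F : Fa s) :
    ∀ n, bb s (n + 1) ≤ bb s n + 1 := by
  obtain ⟨-, -, b3, b4, b5, b6, b7⟩ := h3 s hs
  intro n
  induction n using Nat.strong_induction_on with
  | _ n ih =>
  rcases lt_or_ge (n + 1) (s.Z 0) with h0 | h0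
  · rw [b7 _ h0]
    exact Nat.zero_le _
  have hex : ∃ K, n + 1 < s.Z (K + 1) := ⟨n + 1, by have := F.zk (n + 1 + 1); omega⟩
  classical
  obtain ⟨K, hK1, hK2⟩ : ∃ K, s.Z K ≤ n + 1 ∧ n + 1 < s.Z (K + 1) := by
    refine ⟨Nat.find hex, ?_, Nat.find_spec hex⟩
    rcases Nat.eq_zero_or_pos (Nat.find hex) with h | h
    · rw [h]
      exact h0
    · have h5 := Nat.find_min hex (Nat.sub_lt h one_pos)
      have h6 : Nat.find hex - 1 + 1 = Nat.find hex := by omega
      rw [h6] at h5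
      omega
  have hx := F.xk K K (by omega)
  have hg := F.gz K
  have hz := F.z2 K
  have hy := F.yz K
  have hgy := F.gy K
  rcases lt_or_ge (n + 1) (s.g K) with h | h
  · rw [b3 K _ hK1 h]
    rcases le_or_gt (n + 1) (s.Y K) with h5 | h5
    · omega
    · rw [b3 K n (by omega) (by omega)]
      omega
  rcases lt_or_ge (n + 1) (2 * s.g K - x s K) with h' | h'
  · rw [b4 K _ h h']
    rcases Nat.eq_or_lt_of_le h with h5 | h5
    · have h6 : n + 1 - s.g K = 0 := by omega
      rw [h6, b7 0 (by have := F.z2 0; omega), before hs h3 F K n (by omega) (by omega)]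
      unfold Up Tp
      omega
    · have h6 : n + 1 - s.g K = (n - s.g K) + 1 := by omega
      rw [h6, b4 K n (by omega) (by omega)]
      have := ih (n - s.g K) (by omega)
      omega
  rcases lt_or_ge (n + 1) (2 * s.g K + 2 * s.Z K) with h4 | h4
  · rw [b5 K _ h' h4]
    rcases Nat.eq_or_lt_of_le h' with h5 | h5
    · have h6 : n + 1 - (2 * s.g K - x s K) = 0 := by omega
      rw [h6, (h2 s hs K).1, b4 K n (by omega) (by omega),
        before hs h3 F K (n - s.g K) (by omega) (by omega)]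
      have := et_le F K
      unfold Up Tp
      omega
    · have h6 : n + 1 - (2 * s.g K - x s K) = (n - (2 * s.g K - x s K)) + 1 := by omega
      rw [h6, b5 K n (by omega) (by omega)]
      have := (h2 s hs K).2.1 (n - (2 * s.g K - x s K))
      omega
  · rw [b6 K _ h4 hK2]
    exact Nat.zero_le _

end BBB_

open BBB_

theorem p_BBB (h1 : T_XFA) (h2 : T_BNF) (h3 : T_BBA) : T_BBB := by
  intro s hs
  have F := fa h1 hs
  obtain ⟨-, -, b3, b4, b5, b6, b7⟩ := h3 s hs
  have hzero : ∀ K n, s.Z K ≤ n → n < s.Y K → bb s n = 0 := by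
    intro K n hn hn'
    have := F.gy K
    rw [b3 K n hn (by omega)]
    omega
  refine ⟨b7 0 (by have := F.z2 0; omega), lipschitz h2 h3 hs F, ?_, ?_, hzero, ?_, ?_, ?_⟩
  · exact fun K => step h2 h3 hs F K (le_tp h2 h3 hs F K)
  · refine Set.infinite_of_injective_forall_mem (f := s.Z)
      (strictMono_nat_of_lt_succ F.zlt).injective fun K => ?_
    have h4 := F.yz K
    have h5 := F.z2 K
    exact hzero K _ le_rfl (by omega)
  · intro K n hn
    have hx := F.xk K K (by omega)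
    have hg := F.gz K
    rw [b4 K _ (by omega) (by omega), Nat.add_sub_cancel]
  · intro K t ht ht'
    have hgy := F.gy K
    have := F.z2 K
    exact before hs h3 F K _ (by omega) (by omega)
  · intro k hk v hv
    have hx := F.xk k k (by omega)
    have hg := F.gz k
    have hvz := F.vz k
    have hvx := F.vx k
    have hgy := F.gy k
    obtain ⟨-, hb⟩ := (h2 s hs k).2.2.2 hk
    obtain ⟨hb1, hb2⟩ := hb v hv
    refine ⟨?_, fun l hl hlk => ?_⟩
    · rw [b5 k _ (by omega) (by omega)]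
      have h6 : 2 * s.g k + v - (2 * s.g k - x s k) = x s k + v := by omega
      rw [h6, hb1]
    · have hxl := F.xk k l hl
      rcases le_or_gt (x s l) (x s k + v) with h | h
      · rw [b5 k _ (by omega) (by omega)]
        have h6 : 2 * s.g k + v - x s l - (2 * s.g k - x s k) = x s k + v - x s l := by omega
        rw [h6, hb2 l hl hlk h]
      · rw [b4 k _ (by omega) (by omega), before hs h3 F k _ (by omega) (by omega)]
        exact el_le F hk

end Pool.Agent.CPW
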