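import Pool.Agent.CPW.Targets

set_option autoImplicit false

/-!
# CPW-BNF: facts on the node weights
-/

namespace Pool.Agent.CPW

namespace BNF_

theorem bn_odd (s : Sq) (j n : ℕ) : bn s (2 * j + 1) n =
    if n ≤ s.g j + s.Z j then min (n - s.Y j) (Lp s j) else 0 := by
  have h1 : 2 * j % 2 = 0 := by omega
  have h2 : 2 * j / 2 = j := by omega
  rw [bn, if_pos h1, h2]

theorem bn_even (s : Sq) (j n : ℕ) : bn s (2 * j + 2) n =
    if n < s.g j then min (n - s.Y j) (Lp s j)
    else if n < 2 * s.g j then min (n - s.g j - s.Y j) (Lp s j) else 0 := by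
  have h1 : ¬ ((2 * j + 1) % 2 = 0) := by omega
  have h2 : (2 * j + 1) / 2 = j := by omega
  show bn s ((2 * j + 1) + 1) n = _
  rw [bn, if_neg h1, h2]

end BNF_

open BNF_ in
theorem p_BNF (h1 : T_XFA) : T_BNF := by
  intro s hs k
  obtain ⟨hA, hB, ⟨hx0, hx⟩, hD, hE, -, -, -, -, ⟨hV0, hV⟩, -⟩ := h1 s hs
  rcases Nat.eq_zero_or_pos k with rfl | hk
  · refine ⟨rfl, fun n => ?_, fun n _ => rfl, fun h => absurd h (by omega)⟩
    show (0 : ℕ) ≤ 0 + 1
    omega
  obtain ⟨j, hj⟩ : ∃ j, k = 2 * j + 1 ∨ k = 2 * j + 2 := ⟨(k - 1) / 2, by omega⟩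
  have hg1 := hs.g1 j
  have hL : Lp s j = 3 * s.Z j + 6 * j + 47 := rfl
  obtain ⟨a1, a2, a3, a4, a5⟩ := hA j
  obtain ⟨b1, b2⟩ := hx j
  obtain ⟨c1, c2⟩ := hD j j (by omega)
  obtain ⟨d1, d2, d3, d4, d5⟩ := hV j
  have hnext : s.g j < s.Z (j + 1) := by rw [hs.zs]; omega
  have hfar : ∀ l, 2 * j + 3 ≤ l → 12 * s.g j ≤ x s l := by
    intro l hl
    have e1 := hE (j + 1) l (by omega)
    have e2 := (hA (j + 1)).2.2.1
    rw [hs.zs] at e2
    omega
  rcases hj with rfl | rfl
  · have hjj : (2 * j + 1 - 1) / 2 = j := by omega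
    refine ⟨?_, ?_, ?_, fun _ => ⟨?_, ?_⟩⟩
    · rw [bn_odd]; split_ifs <;> omega
    · intro n
      rw [bn_odd, bn_odd]
      split_ifs <;> omega
    · intro n hn
      rw [bn_odd]
      rw [b1] at hn
      split_ifs <;> omega
    · intro n
      rw [bn_odd, hjj]
      split_ifs <;> omega
    · intro v hv
      rw [d1] at hv
      rw [hjj, b1]
      refine ⟨?_, ?_⟩
      · rw [bn_odd]; split_ifs <;> omega
      · intro l hl hlk hxl
        have hl2 : l ≤ 2 * j := by
          by_contra hcon
          rcases Nat.lt_or_ge l (2 * j + 3) with h | h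
          · have : l = 2 * j + 2 := by omega
            subst this
            omega
          · have := hfar l h
            omega
        obtain ⟨f1, f2⟩ := hD j l hl2
        rw [bn_odd]; split_ifs <;> omega
  · have hjj : (2 * j + 2 - 1) / 2 = j := by omega
    refine ⟨?_, ?_, ?_, fun _ => ⟨?_, ?_⟩⟩
    · rw [bn_even]; split_ifs <;> omega
    · intro n
      rw [bn_even, bn_even]
      split_ifs <;> omega
    · intro n hn
      rw [bn_even]
      rw [b2] at hn
      split_ifs <;> omega
    · intro n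
      rw [bn_even, hjj]
      split_ifs <;> omega
    · intro v hv
      rw [d2] at hv
      rw [hjj, b2]
      refine ⟨?_, ?_⟩
      · rw [bn_even]; split_ifs <;> omega
      · intro l hl hlk hxl
        have hl2 : l ≤ 2 * j + 1 := by
          by_contra hcon
          have := hfar l (by omega)
          omega
        rcases Nat.lt_or_ge l (2 * j + 1) with h | h
        · obtain ⟨f1, f2⟩ := hD j l (by omega)
          rw [bn_even]; split_ifs <;> omega
        · have : l = 2 * j + 1 := by omega
          subst this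
          rw [b1]
          rw [bn_even]; split_ifs <;> omega

end Pool.Agent.CPW
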