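import Pool.Agent.CPW.Targets

set_option autoImplicit false

/-!
# CPW: the target XFA

Elementary facts on the explicit sequences.
-/

namespace Pool.Agent.CPW

open Polynomial

namespace XFA_

theorem f1 (s : Sq) (h : Ok s) : ∀ K, 2 ≤ s.Z K ∧ K ≤ s.Z K ∧ 4 * s.Z K ≤ s.g K ∧
    2 * K + 60 ≤ s.g K ∧ s.Z K < s.Z (K + 1) := by
  intro K
  have hg := h.g1 K
  have hs := h.zs K
  have h2 : 2 ≤ s.Z K ∧ K ≤ s.Z K := by
    induction K with
    | zero => exact ⟨by rw [h.z0], Nat.zero_le _⟩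
    | succ n ih =>
      have hgn := h.g1 n
      have hsn := h.zs n
      have := ih hgn hsn
      constructor <;> omega
  refine ⟨h2.1, h2.2, ?_, ?_, ?_⟩ <;> omega

theorem zmono (s : Sq) (h : Ok s) : Monotone s.Z :=
  monotone_nat_of_le_succ fun n => (f1 s h n).2.2.2.2.le

theorem gmono (s : Sq) (h : Ok s) : Monotone s.g := by
  apply monotone_nat_of_le_succ
  intro n
  have h1 := f1 s h (n + 1)
  have h2 := h.zs n
  omega

theorem x0 (s : Sq) : x s 0 = 1 := by rw [x]

theorem x1 (s : Sq) (k : ℕ) : x s (2 * k + 1) = s.g k := by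
  rw [x, if_pos (by omega)]
  congr 1
  omega

theorem x2 (s : Sq) (k : ℕ) : x s (2 * k + 2) = 2 * s.g k - x s k := by
  rw [x, if_neg (by omega)]
  have : (2 * k + 1) / 2 = k := by omega
  rw [this]

theorem al0 (s : Sq) : al s 0 = 6 := by rw [al]

theorem al1 (s : Sq) (k : ℕ) : al s (2 * k + 1) = Ep s k := by
  rw [al, if_pos (by omega)]
  congr 1
  omega

theorem al2 (s : Sq) (k : ℕ) : al s (2 * k + 2) = 2 * Ep s k + 1 - al s k := by
  rw [al, if_neg (by omega)]
  have : (2 * k + 1) / 2 = k := by omega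
  rw [this]

theorem sg0 : sg 0 = 1 := by rw [sg]

theorem sg1 (k : ℕ) : sg (2 * k + 1) = 1 := by
  rw [sg, if_pos (by omega)]

theorem sg2 (k : ℕ) : sg (2 * k + 2) = - sg k := by
  rw [sg, if_neg (by omega)]
  have : (2 * k + 1) / 2 = k := by omega
  rw [this]

theorem V0 (s : Sq) : V s 0 = 0 := by rw [V]

theorem V1 (s : Sq) (k : ℕ) : V s (2 * k + 1) = s.Z k := by
  rw [V, if_pos (by omega)]
  congr 1
  omega

theorem V2 (s : Sq) (k : ℕ) : V s (2 * k + 2) = V s k := by
  rw [V, if_neg (by omega)]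
  have : (2 * k + 1) / 2 = k := by omega
  rw [this]

/-- every index is `0`, `2 j + 1` or `2 j + 2` -/
theorem cases3 (k : ℕ) : k = 0 ∨ (∃ j, k = 2 * j + 1) ∨ ∃ j, k = 2 * j + 2 := by
  rcases Nat.even_or_odd' k with ⟨c, hc | hc⟩
  · rcases c with _ | c
    · exact Or.inl hc
    · exact Or.inr (Or.inr ⟨c, by omega⟩)
  · exact Or.inr (Or.inl ⟨c, hc⟩)

theorem f4 (s : Sq) (h : Ok s) : ∀ K k, k ≤ 2 * K → 1 ≤ x s k ∧ x s k < s.Z K := by
  intro K
  induction K with
  | zero =>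
    intro k hk
    have : k = 0 := by omega
    subst this
    rw [x0, h.z0]
    omega
  | succ n ih =>
    intro k hk
    have h1 := f1 s h n
    have h2 := h.zs n
    have h3 := ih n (by omega)
    rcases (by omega : k ≤ 2 * n ∨ k = 2 * n + 1 ∨ k = 2 * n + 2) with hk | hk | hk
    · have := ih k hk
      omega
    · subst hk
      rw [x1]
      omega
    · subst hk
      rw [x2]
      omega

theorem f4' (s : Sq) (h : Ok s) (k : ℕ) : 1 ≤ x s k ∧ x s k < s.Z k := f4 s h k k (by omega)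

theorem f5 (s : Sq) (h : Ok s) : ∀ K l, 2 * K + 1 ≤ l → s.g K ≤ x s l := by
  intro K l hl
  rcases cases3 l with h0 | ⟨j, rfl⟩ | ⟨j, rfl⟩
  · omega
  · rw [x1]
    exact gmono s h (by omega)
  · have h1 := gmono s h (show K ≤ j by omega)
    have h2 := f4' s h j
    have h3 := f1 s h j
    rw [x2]
    omega

theorem f6 (s : Sq) (h : Ok s) : ∀ l, l ≤ x s l := by
  intro l
  rcases cases3 l with rfl | ⟨j, rfl⟩ | ⟨j, rfl⟩
  · omega
  · have h3 := f1 s h j
    rw [x1]
    omega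
  · have h2 := f4' s h j
    have h3 := f1 s h j
    rw [x2]
    omega

theorem f8 (s : Sq) (h : Ok s) : ∀ K k, k ≤ 2 * K → al s k ≤ s.Z K + 6 := by
  intro K
  induction K with
  | zero =>
    intro k hk
    have : k = 0 := by omega
    subst this
    rw [al0]
    omega
  | succ n ih =>
    intro k hk
    have h1 := f1 s h n
    have h2 := h.zs n
    rcases (by omega : k ≤ 2 * n ∨ k = 2 * n + 1 ∨ k = 2 * n + 2) with hk | hk | hk
    · have := ih k hk
      omega
    · subst hk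
      rw [al1]
      unfold Ep
      omega
    · subst hk
      rw [al2]
      unfold Ep
      omega

theorem f8' (s : Sq) (h : Ok s) (k : ℕ) : al s k ≤ s.Z k + 6 := f8 s h k k (by omega)

theorem f7 (s : Sq) (h : Ok s) : ∀ k, al s (2 * k + 1) = Ep s k ∧
    al s (2 * k + 2) + al s k = 2 * Ep s k + 1 ∧ 6 ≤ al s k := by
  intro k
  refine ⟨al1 s k, ?_, ?_⟩
  · have := f8' s h k
    rw [al2]
    unfold Ep
    omega
  · rcases cases3 k with rfl | ⟨j, rfl⟩ | ⟨j, rfl⟩
    · rw [al0]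
    · rw [al1]
      unfold Ep
      omega
    · have := f8' s h j
      rw [al2]
      unfold Ep
      omega

theorem sgsq : ∀ k, sg k * sg k = 1 := by
  intro k
  induction k using Nat.strong_induction_on with
  | _ k ih =>
    rcases cases3 k with rfl | ⟨j, rfl⟩ | ⟨j, rfl⟩
    · rw [sg0]
      norm_num
    · rw [sg1]
      norm_num
    · have := ih j (by omega)
      rw [sg2]
      linarith [neg_mul_neg (sg j) (sg j)]

theorem sgabs (k : ℕ) : |sg k| = 1 := by
  have h1 := sgsq k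
  rcases mul_self_eq_one_iff.1 h1 with h | h <;> rw [h] <;> norm_num

theorem absa (s : Sq) (k : ℕ) : |a s k| = (1 / 2) ^ al s k := by
  unfold a
  rw [abs_mul, sgabs, one_mul, abs_of_nonneg (by positivity)]

theorem f9 (s : Sq) (h : Ok s) : ∀ k, |a s k| = (1 / 2) ^ al s k ∧
    a s (2 * k + 1) = (1 / 2) ^ Ep s k ∧
    2 * a s k * a s (2 * k + 2) = -(a s (2 * k + 1)) ^ 2 := by
  intro k
  have ha1 : a s (2 * k + 1) = (1 / 2) ^ Ep s k := by
    unfold a
    rw [sg1, al1, one_mul]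
  refine ⟨absa s k, ha1, ?_⟩
  have h7 := (f7 s h k).2.1
  have hsq := sgsq k
  rw [ha1]
  unfold a
  rw [sg2]
  have e1 : (1 / 2 : ℝ) ^ al s (2 * k + 2) * (1 / 2) ^ al s k
      = (1 / 2) * ((1 / 2) ^ Ep s k) ^ 2 := by
    rw [← pow_add, h7, pow_succ, ← pow_mul]
    ring
  calc 2 * (sg k * (1 / 2) ^ al s k) * (-sg k * (1 / 2) ^ al s (2 * k + 2))
      = -(2 * (sg k * sg k) * ((1 / 2) ^ al s (2 * k + 2) * (1 / 2) ^ al s k)) := by ring
    _ = -(((1 / 2) ^ Ep s k) ^ 2) := by rw [hsq, e1]; ring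

theorem f10 (s : Sq) (h : Ok s) : ∀ k, V s k < x s k ∧
    V s k ≤ s.Z k ∧ (1 ≤ k → V s k ≤ s.Z ((k - 1) / 2)) := by
  intro k
  induction k using Nat.strong_induction_on with
  | _ k ih =>
    rcases cases3 k with rfl | ⟨j, rfl⟩ | ⟨j, rfl⟩
    · rw [V0, x0]
      refine ⟨by omega, by omega, ?_⟩
      intro h0
      omega
    · have h1 := f1 s h j
      have h2 := zmono s h (show j ≤ 2 * j + 1 by omega)
      rw [V1, x1]
      refine ⟨by omega, h2, ?_⟩
      intro _
      have : (2 * j + 1 - 1) / 2 = j := by omega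
      rw [this]
    · have h1 := f1 s h j
      have h2 := zmono s h (show j ≤ 2 * j + 2 by omega)
      have h3 := ih j (by omega)
      have h4 := f4' s h j
      rw [V2, x2]
      refine ⟨by omega, by omega, ?_⟩
      intro _
      have : (2 * j + 2 - 1) / 2 = j := by omega
      rw [this]
      exact h3.2.1

theorem f11' (s : Sq) (h : Ok s) : ∀ K, ∑ l ∈ Finset.range (2 * K + 1), |a s l|
    ≤ 1 / 64 + 1 / 1024 * (1 - (1 / 2) ^ K) := by
  intro K
  induction K with
  | zero =>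
    rw [Nat.mul_zero, Nat.zero_add, Finset.sum_range_one, absa, al0]
    norm_num
  | succ n ih =>
    have e : 2 * (n + 1) + 1 = 2 * n + 1 + 1 + 1 := by ring
    rw [e, Finset.sum_range_succ, Finset.sum_range_succ]
    have hz := f1 s h n
    have h8 := f8' s h n
    have b1 : |a s (2 * n + 1)| ≤ (1 / 2) ^ (n + 12) := by
      rw [absa, al1]
      apply pow_le_pow_of_le_one (by norm_num) (by norm_num)
      unfold Ep
      omega
    have b2 : |a s (2 * n + 1 + 1)| ≤ (1 / 2) ^ (n + 12) := by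
      rw [absa]
      apply pow_le_pow_of_le_one (by norm_num) (by norm_num)
      have e2 : 2 * n + 1 + 1 = 2 * n + 2 := by ring
      rw [e2, al2]
      unfold Ep
      omega
    have b3 : (1 / 2 : ℝ) ^ (n + 12) = 1 / 4096 * (1 / 2) ^ n := by
      rw [pow_add]
      norm_num
      ring
    have b4 : (1 / 2 : ℝ) ^ (n + 1) = 1 / 2 * (1 / 2) ^ n := by
      rw [pow_succ]
      ring
    rw [b3] at b1 b2
    rw [b4]
    linarith

theorem f11 (s : Sq) (h : Ok s) : ∀ K, ∑ l ∈ Finset.range (2 * K + 1), |a s l| ≤ 1 / 32 := by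
  intro K
  have h1 := f11' s h K
  have h2 : (0 : ℝ) ≤ (1 / 2) ^ K := by positivity
  linarith

end XFA_

open XFA_ in
/-- **XFA** -/
theorem p_XFA : T_XFA := by
  intro s h
  refine ⟨f1 s h, fun K K' hK => ⟨zmono s h hK, gmono s h hK⟩, ⟨x0 s, fun k => ⟨x1 s k, x2 s k⟩⟩,
    f4 s h, f5 s h, f6 s h, f7 s h, f8 s h, f9 s h, ⟨V0 s, fun k => ?_⟩, f11 s h⟩
  obtain ⟨h1, h2, h3⟩ := f10 s h k
  exact ⟨V1 s k, V2 s k, h1, h2, h3⟩

end Pool.Agent.CPW
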