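import Pool.Agent.CPW.Targets

set_option autoImplicit false

/-!
# CPW: PHC, the powers of the function (MP_01c4da_an)
-/

namespace Pool.Agent.CPW

open Polynomial Filter Topology

namespace PHC_

/-- the coefficients of the approximating polynomial -/
theorem coeff_PK (s : Sq) (K n : ℕ) :
    (PK s K).coeff n = ∑ l ∈ Finset.range (2 * K + 1), if x s l = n then a s l else 0 := by
  unfold PK
  rw [Polynomial.finsetSum_coeff]
  refine Finset.sum_congr rfl fun l _ => ?_
  rw [Polynomial.coeff_C_mul, Polynomial.coeff_X_pow]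
  by_cases h : x s l = n
  · rw [if_pos h.symm, if_pos h, mul_one]
  · rw [if_neg (fun q => h q.symm), if_neg h, mul_zero]

/-- the function and the polynomial agree up to `g K` -/
theorem coeff_ph (s : Sq) (K n : ℕ) (h1 : ∀ l, 2 * K + 1 ≤ l → s.g K ≤ x s l)
    (h2 : ∀ l, l ≤ x s l) (hn : n < s.g K) :
    PowerSeries.coeff n (ph s) = (((PK s K).coeff n : ℝ) : ℂ) := by
  unfold ph
  rw [PowerSeries.coeff_mk, coeff_PK]
  push_cast
  have e1 : ∑ l ∈ Finset.range (n + 1), (if x s l = n then (a s l : ℂ) else 0) =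
      ∑ l ∈ Finset.range (n + 1 + (2 * K + 1)), (if x s l = n then (a s l : ℂ) else 0) := by
    refine Finset.sum_subset ?_ ?_
    · intro l hl
      rw [Finset.mem_range] at hl ⊢
      omega
    · intro l _ hl
      rw [Finset.mem_range] at hl
      refine if_neg ?_
      intro q
      have := h2 l
      omega
  have e2 : ∑ l ∈ Finset.range (2 * K + 1), (if x s l = n then (a s l : ℂ) else 0) =
      ∑ l ∈ Finset.range (n + 1 + (2 * K + 1)), (if x s l = n then (a s l : ℂ) else 0) := by
    refine Finset.sum_subset ?_ ?_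
    · intro l hl
      rw [Finset.mem_range] at hl ⊢
      omega
    · intro l _ hl
      rw [Finset.mem_range] at hl
      refine if_neg ?_
      intro q
      have := h1 l (by omega)
      omega
  rw [e1, ← e2]
  refine Finset.sum_congr rfl fun l _ => ?_
  split_ifs
  · rfl
  · simp

/-- the polynomial as a power series over `ℂ` -/
noncomputable def pc (s : Sq) (K : ℕ) : ℂ[X] := (PK s K).map Complex.ofRealHom

/-- the powers agree up to `g K` -/
theorem coeff_pow (s : Sq) (K m n : ℕ) (h1 : ∀ l, 2 * K + 1 ≤ l → s.g K ≤ x s l)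
    (h2 : ∀ l, l ≤ x s l) (hn : n < s.g K) :
    PowerSeries.coeff n (ph s ^ m) = ((((PK s K) ^ m).coeff n : ℝ) : ℂ) := by
  have hd : (PowerSeries.X : PowerSeries ℂ) ^ s.g K ∣ ph s - (pc s K : PowerSeries ℂ) := by
    rw [PowerSeries.X_pow_dvd_iff]
    intro i hi
    rw [map_sub, coeff_ph s K i h1 h2 hi, Polynomial.coeff_coe]
    unfold pc
    rw [Polynomial.coeff_map]
    simp
  have hd2 := hd.trans (sub_dvd_pow_sub_pow (ph s) (pc s K : PowerSeries ℂ) m)
  rw [PowerSeries.X_pow_dvd_iff] at hd2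
  have h3 := hd2 n hn
  rw [map_sub, sub_eq_zero] at h3
  rw [h3, ← Polynomial.coe_pow, Polynomial.coeff_coe]
  unfold pc
  rw [← Polynomial.map_pow, Polynomial.coeff_map]
  rfl

end PHC_

open PHC_ in
theorem p_PHC (h1 : T_XFA) (h2 : T_BBA) (h3 : T_NNC) (h4 : T_NRM) : T_PHC := by
  intro s hs
  obtain ⟨f1, f2, f3, f4, f5, f6, -⟩ := h1 s hs
  obtain ⟨b1, -⟩ := h2 s hs
  constructor
  · unfold ph
    rw [PowerSeries.coeff_mk]
    simp [f3.1]
  intro m
  have hnn : ∀ n, 0 ≤ ‖PowerSeries.coeff n (ph s ^ m)‖ * 2 ^ bb s n := fun n => by positivity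
  have hb : ∀ N, ∑ n ∈ Finset.range N, ‖PowerSeries.coeff n (ph s ^ m)‖ * 2 ^ bb s n ≤
      (1 / 4) ^ m := by
    intro N
    have hN := f1 N
    refine le_trans ?_ (h4 s hs N m)
    rw [h3.1 (bK s N) ((PK s N) ^ m) (Finset.range N ∪ ((PK s N) ^ m).support)
      Finset.subset_union_right]
    calc ∑ n ∈ Finset.range N, ‖PowerSeries.coeff n (ph s ^ m)‖ * 2 ^ bb s n
        = ∑ n ∈ Finset.range N, |((PK s N) ^ m).coeff n| * 2 ^ bK s N n := by
          refine Finset.sum_congr rfl fun n hn => ?_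
          rw [Finset.mem_range] at hn
          rw [coeff_pow s N m n (f5 N) f6 (by omega), b1 N n (by omega), Complex.norm_real,
            Real.norm_eq_abs]
      _ ≤ _ := Finset.sum_le_sum_of_subset_of_nonneg Finset.subset_union_left
          fun n _ _ => by positivity
  exact ⟨summable_of_sum_range_le hnn hb, Real.tsum_le_of_sum_range_le hnn hb⟩

end Pool.Agent.CPW
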