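import Pool.Agent.CPW.Targets2
import Pool.Agent.CycP.Blk

set_option autoImplicit false

/-!
# CPW: MLB, multipliers extend to the disc of radius two
-/

namespace Pool.Agent.CPW

open Polynomial Filter Topology
open Pool.Agent.CycP

namespace MLB_

/-- multiplication by a multiplier is a bounded operator -/
theorem clm {Ω : Set (Fin 1 → ℂ)} {B : AnSpace 1 Ω L2} {h : (Fin 1 → ℂ) → ℂ}
    (hm : B.IsMultiplier h) :
    ∃ M : L2 →L[ℂ] L2, ∀ x, ∀ w ∈ Ω, B.fn (M x) w = h w * B.fn x w := by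
  choose M hM using hm
  let Ml : L2 →ₗ[ℂ] L2 :=
    { toFun := M
      map_add' := fun x y => by
        apply B.fn_ext
        intro w hw
        rw [hM _ w hw, map_add, map_add, Pi.add_apply, Pi.add_apply, hM _ w hw, hM _ w hw]
        ring
      map_smul' := fun c x => by
        apply B.fn_ext
        intro w hw
        rw [hM _ w hw, RingHom.id_apply, map_smul, map_smul, Pi.smul_apply, Pi.smul_apply,
          hM _ w hw]
        simp
        ring }
  have hMl : ∀ x, ∀ w ∈ Ω, B.fn (Ml x) w = h w * B.fn x w := hM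
  have hcont : Continuous Ml := by
    apply Ml.continuous_of_seq_closed_graph
    intro u x y hu hMu
    apply B.fn_ext
    intro w hw
    obtain ⟨L, hL, -⟩ := B.exists_eval hw
    have h1 : Tendsto (fun n => L (Ml (u n))) atTop (𝓝 (L y)) :=
      (L.continuous.tendsto y).comp hMu
    have h2 : Tendsto (fun n => h w * L (u n)) atTop (𝓝 (h w * L x)) :=
      ((L.continuous.tendsto x).comp hu).const_mul (h w)
    have h3 : (fun n => L (Ml (u n))) = fun n => h w * L (u n) := by
      funext n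
      rw [hL, hL, hMl _ w hw]
    rw [h3] at h1
    have h4 := tendsto_nhds_unique h1 h2
    rw [hMl _ w hw, ← hL, ← hL, h4]
  exact ⟨⟨Ml, hcont⟩, hMl⟩

/-- it commutes with the shift -/
theorem comm {Ω : Set (Fin 1 → ℂ)} {B : AnSpace 1 Ω L2} {h : (Fin 1 → ℂ) → ℂ}
    {M : L2 →L[ℂ] L2} (hM : ∀ x, ∀ w ∈ Ω, B.fn (M x) w = h w * B.fn x w) (k : ℕ) (x : L2) :
    M ((⇑(B.shift 0))^[k] x) = (⇑(B.shift 0))^[k] (M x) := by
  induction k generalizing x with
  | zero => rfl
  | succ k ih =>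
    rw [Function.iterate_succ_apply, Function.iterate_succ_apply, ih]
    congr 1
    apply B.fn_ext
    intro w hw
    rw [hM _ w hw, B.fn_shift 0 _ w hw, B.fn_shift 0 _ w hw, hM _ w hw]
    ring

theorem bne {b : ℕ → ℝ} (hb : ∀ n, 1 ≤ b n) (n : ℕ) : (b n : ℂ) ≠ 0 := by
  have h : b n ≠ 0 := by
    have := hb n
    linarith
  exact_mod_cast h

/-- the coordinates of the powers of the shift -/
theorem sh_coord {b : ℕ → ℝ} {B : AnSpace 1 (Metric.ball 0 1) L2} (hb : ∀ n, 1 ≤ b n)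
    (hB : IsW b B) (y : L2) (k n : ℕ) : ((⇑(B.shift 0))^[k] y : L2) n =
      if n < k then 0 else (b n : ℂ) / b (n - k) * y (n - k) := by
  induction k generalizing n with
  | zero =>
    rw [if_neg (by omega), Function.iterate_zero, id, Nat.sub_zero, div_self (bne hb n), one_mul]
  | succ k ih =>
    rw [Function.iterate_succ_apply']
    rcases n with _ | n
    · rw [(hB.shift _ 0).1, if_pos (by omega)]
    · rw [(hB.shift _ n).2, ih]
      by_cases h : n < k
      · rw [if_pos h, if_pos (by omega), mul_zero]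
      · rw [if_neg h, if_neg (by omega), Nat.add_sub_add_right]
        have h1 := bne hb n
        have h2 := bne hb (n - k)
        field_simp

theorem one_coord {b : ℕ → ℝ} {B : AnSpace 1 (Metric.ball 0 1) L2} (hB : IsW b B) (n : ℕ) :
    (B.poly 1 : L2) n = if n = 0 then (b 0 : ℂ) else 0 := by
  rw [hB.poly, MvPolynomial.coeff_one]
  have e0 : ((0 : Fin 1 →₀ ℕ) = Finsupp.single 0 n) ↔ n = 0 := by
    rw [eq_comm, Finsupp.single_eq_zero]
  simp only [e0]
  by_cases h : n = 0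
  · rw [if_pos h, if_pos h, h, mul_one]
  · rw [if_neg h, if_neg h, mul_zero]

/-- the truncated test vector -/
noncomputable def tv (B : AnSpace 1 (Metric.ball 0 1) L2) (N l : ℕ) (q : ℕ → ℂ) (y : L2) : L2 :=
  ∑ i ∈ Finset.range (l + 1), q i • ((⇑(B.shift 0))^[N + i] y)

theorem tv_coord (B : AnSpace 1 (Metric.ball 0 1) L2) (N l : ℕ) (q : ℕ → ℂ) (y : L2) (n : ℕ) :
    (tv B N l q y) n = ∑ i ∈ Finset.range (l + 1), q i * ((⇑(B.shift 0))^[N + i] y : L2) n := by
  unfold tv
  rw [lp.coeFn_sum, Finset.sum_apply]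
  rfl

theorem tv_one {b : ℕ → ℝ} {B : AnSpace 1 (Metric.ball 0 1) L2} (hb : ∀ n, 1 ≤ b n)
    (hB : IsW b B) (N l : ℕ) (q : ℕ → ℂ) (n : ℕ) :
    (tv B N l q (B.poly 1)) n =
      if N ≤ n ∧ n ≤ N + l then q (n - N) * b n else 0 := by
  rw [tv_coord]
  have h1 : ∀ i ∈ Finset.range (l + 1), q i * ((⇑(B.shift 0))^[N + i] (B.poly 1) : L2) n =
      if n = N + i then q i * b n else 0 := by
    intro i _
    rw [sh_coord hb hB, one_coord hB]
    rcases lt_trichotomy n (N + i) with h | h | h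
    · rw [if_pos h, if_neg (by omega), mul_zero]
    · rw [if_neg (by omega), if_pos (by omega), if_pos h]
      have : n - (N + i) = 0 := by omega
      rw [this, div_mul_cancel₀ _ (bne hb 0)]
    · rw [if_neg (by omega), if_neg (by omega), if_neg (by omega), mul_zero, mul_zero]
  rw [Finset.sum_congr rfl h1]
  by_cases h : N ≤ n ∧ n ≤ N + l
  · rw [if_pos h, Finset.sum_eq_single (n - N)]
    · rw [if_pos (by omega)]
    · intro i _ hi
      rw [if_neg (by omega)]
    · intro hi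
      rw [Finset.mem_range] at hi
      omega
  · rw [if_neg h]
    apply Finset.sum_eq_zero
    intro i hi
    rw [Finset.mem_range] at hi
    rw [if_neg (by omega)]

theorem tv_gen {b : ℕ → ℝ} {B : AnSpace 1 (Metric.ball 0 1) L2} (hb : ∀ n, 1 ≤ b n)
    (hB : IsW b B) (N l : ℕ) (q : ℕ → ℂ) (y : L2) (j : ℕ) (hj : j ≤ l) :
    (tv B N l q y) (N + j) =
      b (N + j) * ∑ i ∈ Finset.range (j + 1), q i * (y (j - i) / b (j - i)) := by
  rw [tv_coord, Finset.mul_sum]
  have h0 : Finset.range (j + 1) ⊆ Finset.range (l + 1) := by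
    intro i hi
    rw [Finset.mem_range] at hi ⊢
    omega
  rw [← Finset.sum_subset h0]
  · apply Finset.sum_congr rfl
    intro i hi
    rw [Finset.mem_range] at hi
    rw [sh_coord hb hB, if_neg (by omega)]
    have : N + j - (N + i) = j - i := by omega
    rw [this]
    ring
  · intro i _ hi
    rw [Finset.mem_range, not_lt] at hi
    rw [sh_coord hb hB, if_pos (by omega), mul_zero]

/-- the inequality for the coefficients -/
theorem ineq {b : ℕ → ℝ} {B : AnSpace 1 (Metric.ball 0 1) L2} (hb : ∀ n, 1 ≤ b n)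
    (hB : IsW b B) (hl : ∀ l : ℕ, ∃ N, ∀ i ≤ l, b (N + i) = 2 ^ i * b N)
    {h : (Fin 1 → ℂ) → ℂ} {M : L2 →L[ℂ] L2}
    (hM : ∀ x, ∀ w ∈ Metric.ball (0 : Fin 1 → ℂ) 1, B.fn (M x) w = h w * B.fn x w)
    (Q X : ℕ → ℂ) (hX : ∀ k, X k = 2 ^ k * (M (B.poly 1) k / b k)) (l : ℕ) :
    ∑ j ∈ Finset.range (l + 1), ‖∑ i ∈ Finset.range (j + 1), Q i * X (j - i)‖ ^ 2 ≤
      ‖M‖ ^ 2 * ∑ i ∈ Finset.range (l + 1), ‖Q i‖ ^ 2 := by
  obtain ⟨N, hN⟩ := hl l
  set q : ℕ → ℂ := fun i => Q i / 2 ^ i with hq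
  set y := M (B.poly 1) with hy
  set v := tv B N l q (B.poly 1) with hv
  have hMv : M v = tv B N l q y := by
    rw [hv, hy]
    unfold tv
    rw [map_sum]
    apply Finset.sum_congr rfl
    intro i _
    rw [map_smul, comm hM]
  have hbN : 0 < b N := by
    have := hb N
    linarith
  -- the norm of `v`
  have h1 : ‖v‖ ^ 2 ≤ b N ^ 2 * ∑ i ∈ Finset.range (l + 1), ‖Q i‖ ^ 2 := by
    have h2 : ‖v‖ ≤ √(b N ^ 2 * ∑ i ∈ Finset.range (l + 1), ‖Q i‖ ^ 2) := by
      apply norm_le_of_sq (Real.sqrt_nonneg _)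
      intro s
      rw [Real.sq_sqrt (by positivity)]
      have h3 : ∀ n, ‖v n‖ ^ 2 = if N ≤ n ∧ n ≤ N + l then b N ^ 2 * ‖Q (n - N)‖ ^ 2 else 0 := by
        intro n
        rw [hv, tv_one hb hB]
        by_cases hn : N ≤ n ∧ n ≤ N + l
        · rw [if_pos hn, if_pos hn, hq]
          obtain ⟨i, rfl⟩ := Nat.exists_eq_add_of_le hn.1
          have hi : i ≤ l := by omega
          rw [hN i hi, Nat.add_sub_cancel_left]
          simp only
          push_cast
          have e : Q i / 2 ^ i * (2 ^ i * (b N : ℂ)) = Q i * b N := by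
            have : (2 : ℂ) ^ i ≠ 0 := pow_ne_zero _ two_ne_zero
            field_simp
          rw [e, norm_mul, Complex.norm_real, Real.norm_of_nonneg hbN.le]
          ring
        · rw [if_neg hn, if_neg hn, norm_zero]
          ring
      rw [Finset.sum_congr rfl fun n _ => h3 n, ← Finset.sum_filter, Finset.mul_sum]
      have h4 : ∑ a ∈ s with N ≤ a ∧ a ≤ N + l, b N ^ 2 * ‖Q (a - N)‖ ^ 2 =
          ∑ i ∈ (Finset.image (fun a => a - N) (s.filter fun a => N ≤ a ∧ a ≤ N + l)),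
            b N ^ 2 * ‖Q i‖ ^ 2 := by
        rw [Finset.sum_image]
        intro a ha c hc hac
        have ha' := (Finset.mem_filter.1 (Finset.mem_coe.1 ha)).2
        have hc' := (Finset.mem_filter.1 (Finset.mem_coe.1 hc)).2
        simp only at hac
        omega
      rw [h4]
      apply Finset.sum_le_sum_of_subset_of_nonneg
      · intro i hi
        obtain ⟨a, ha, rfl⟩ := Finset.mem_image.1 hi
        have ha' := (Finset.mem_filter.1 ha).2
        rw [Finset.mem_range]
        omega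
      · intro i _ _
        positivity
    calc ‖v‖ ^ 2 ≤ (√(b N ^ 2 * ∑ i ∈ Finset.range (l + 1), ‖Q i‖ ^ 2)) ^ 2 :=
          pow_le_pow_left₀ (norm_nonneg _) h2 2
      _ = _ := Real.sq_sqrt (by positivity)
  -- the norm of the product
  have h2 : b N ^ 2 * ∑ j ∈ Finset.range (l + 1),
      ‖∑ i ∈ Finset.range (j + 1), Q i * X (j - i)‖ ^ 2 ≤ ‖M v‖ ^ 2 := by
    have h3 := sum_sq_le (M v) ((Finset.range (l + 1)).image fun j => N + j)
    rw [Finset.sum_image (fun a _ c _ hac => by simpa using hac)] at h3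
    refine le_trans (le_of_eq ?_) h3
    rw [Finset.mul_sum]
    apply Finset.sum_congr rfl
    intro j hj
    rw [Finset.mem_range] at hj
    have hj' : j ≤ l := by omega
    rw [hMv, tv_gen hb hB N l q y j hj', hN j hj']
    have h4 : ∑ i ∈ Finset.range (j + 1), Q i * X (j - i) =
        2 ^ j * ∑ i ∈ Finset.range (j + 1), q i * (y (j - i) / b (j - i)) := by
      rw [Finset.mul_sum]
      apply Finset.sum_congr rfl
      intro i hi
      rw [Finset.mem_range] at hi
      rw [hX, hq]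
      obtain ⟨t, rfl⟩ := Nat.exists_eq_add_of_le (show i ≤ j by omega)
      rw [Nat.add_sub_cancel_left, pow_add]
      have : (2 : ℂ) ^ i ≠ 0 := pow_ne_zero _ two_ne_zero
      field_simp
    rw [h4]
    push_cast
    rw [norm_mul, norm_mul, norm_mul, Complex.norm_real, Real.norm_of_nonneg hbN.le]
    ring
  have h3 : ‖M v‖ ^ 2 ≤ ‖M‖ ^ 2 * ‖v‖ ^ 2 := by
    rw [← mul_pow]
    exact pow_le_pow_left₀ (norm_nonneg _) (M.le_opNorm v) 2
  have h4 : b N ^ 2 * ∑ j ∈ Finset.range (l + 1),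
      ‖∑ i ∈ Finset.range (j + 1), Q i * X (j - i)‖ ^ 2 ≤
      b N ^ 2 * (‖M‖ ^ 2 * ∑ i ∈ Finset.range (l + 1), ‖Q i‖ ^ 2) := by
    calc _ ≤ ‖M v‖ ^ 2 := h2
      _ ≤ ‖M‖ ^ 2 * ‖v‖ ^ 2 := h3
      _ ≤ ‖M‖ ^ 2 * (b N ^ 2 * ∑ i ∈ Finset.range (l + 1), ‖Q i‖ ^ 2) :=
        mul_le_mul_of_nonneg_left h1 (by positivity)
      _ = _ := by ring
  exact le_of_mul_le_mul_left h4 (by positivity)

/-- a sequence which multiplies the square summable sequences gives a bounded function -/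
theorem bdd (x : HH) (K : ℝ) (hK : 0 ≤ K)
    (hx : ∀ (Q : ℕ → ℂ) (l : ℕ), ∑ j ∈ Finset.range (l + 1),
      ‖∑ i ∈ Finset.range (j + 1), Q i * x (j - i)‖ ^ 2 ≤
      K ^ 2 * ∑ i ∈ Finset.range (l + 1), ‖Q i‖ ^ 2) (u : ℂ) (hu : ‖u‖ < 1) :
    ‖pv x u‖ ≤ K := by
  set Q : ℕ → ℂ := fun i => (starRingEnd ℂ u) ^ i with hQ
  have hQn : ∀ i, ‖Q i‖ = ‖u‖ ^ i := by
    intro i
    rw [hQ]
    simp only
    rw [norm_pow, RCLike.norm_conj]
  have hQu : ∀ i, Q i * u ^ i = (((‖u‖ ^ 2) ^ i : ℝ) : ℂ) := by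
    intro i
    rw [hQ]
    simp only
    rw [← mul_pow, mul_comm, Complex.mul_conj, Complex.normSq_eq_norm_sq]
    push_cast
    rfl
  have hu2 : ‖u‖ ^ 2 < 1 := by
    have := norm_nonneg u
    nlinarith
  have hS : Summable fun i => (‖u‖ ^ 2) ^ i := summable_geometric_of_lt_one (sq_nonneg _) hu2
  set S : ℝ := ∑' i, (‖u‖ ^ 2) ^ i with hSdef
  have hS1 : 1 ≤ S := by
    have := hS.sum_le_tsum {0} (fun i _ => by positivity)
    simpa using this
  have hsumQ : Summable fun i => ‖Q i * u ^ i‖ := by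
    refine hS.congr fun i => ?_
    rw [hQu, Complex.norm_real, Real.norm_of_nonneg (by positivity)]
  have hsumx : Summable fun k => ‖x k * u ^ k‖ := (pv_summable x hu).norm
  have hc := hasSum_sum_range_mul_of_summable_norm hsumQ hsumx
  have hQS : ∑' i, Q i * u ^ i = (S : ℂ) := by
    rw [hSdef, Complex.ofReal_tsum]
    exact tsum_congr hQu
  rw [hQS] at hc
  have hbound : ∀ l, ‖∑ j ∈ Finset.range (l + 1), ∑ i ∈ Finset.range (j + 1),
      Q i * u ^ i * (x (j - i) * u ^ (j - i))‖ ≤ K * S := by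
    intro l
    set T : ℝ := ∑ i ∈ Finset.range (l + 1), ‖Q i‖ ^ 2 with hT
    have hT0 : 0 ≤ T := by positivity
    have hTS : T ≤ S := by
      have e : ∀ i, ‖Q i‖ ^ 2 = (‖u‖ ^ 2) ^ i := by
        intro i
        rw [hQn, ← pow_mul, ← pow_mul, mul_comm]
      rw [hT, Finset.sum_congr rfl fun i _ => e i]
      exact hS.sum_le_tsum _ (fun i _ => by positivity)
    have h1 : ∑ j ∈ Finset.range (l + 1), ∑ i ∈ Finset.range (j + 1),
        Q i * u ^ i * (x (j - i) * u ^ (j - i)) =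
        ∑ j ∈ Finset.range (l + 1), (∑ i ∈ Finset.range (j + 1), Q i * x (j - i)) * u ^ j := by
      apply Finset.sum_congr rfl
      intro j _
      rw [Finset.sum_mul]
      apply Finset.sum_congr rfl
      intro i hi
      rw [Finset.mem_range] at hi
      obtain ⟨t, rfl⟩ := Nat.exists_eq_add_of_le (show i ≤ j by omega)
      rw [Nat.add_sub_cancel_left, pow_add]
      ring
    rw [h1]
    have h2 : ‖∑ j ∈ Finset.range (l + 1), (∑ i ∈ Finset.range (j + 1), Q i * x (j - i)) * u ^ j‖ ≤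
        ∑ j ∈ Finset.range (l + 1), ‖∑ i ∈ Finset.range (j + 1), Q i * x (j - i)‖ * ‖Q j‖ := by
      refine (norm_sum_le _ _).trans (Finset.sum_le_sum fun j _ => ?_)
      rw [norm_mul, hQn, norm_pow]
    have h3 := Finset.sum_mul_sq_le_sq_mul_sq (Finset.range (l + 1))
      (fun j => ‖∑ i ∈ Finset.range (j + 1), Q i * x (j - i)‖) (fun j => ‖Q j‖)
    have h4 : (∑ j ∈ Finset.range (l + 1),
        ‖∑ i ∈ Finset.range (j + 1), Q i * x (j - i)‖ * ‖Q j‖) ^ 2 ≤ (K * T) ^ 2 := by
      calc _ ≤ _ := h3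
        _ ≤ (K ^ 2 * T) * T := mul_le_mul_of_nonneg_right (hx Q l) hT0
        _ = (K * T) ^ 2 := by ring
    have h5 := abs_le_of_sq_le_sq' h4 (by positivity)
    calc _ ≤ _ := h2
      _ ≤ K * T := h5.2
      _ ≤ K * S := mul_le_mul_of_nonneg_left hTS hK
  have hlim : Tendsto (fun l => ∑ j ∈ Finset.range (l + 1), ∑ i ∈ Finset.range (j + 1),
      Q i * u ^ i * (x (j - i) * u ^ (j - i))) atTop (𝓝 ((S : ℂ) * ∑' k, x k * u ^ k)) :=
    hc.tendsto_sum_nat.comp (tendsto_add_atTop_nat 1)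
  have hle := le_of_tendsto hlim.norm (Eventually.of_forall hbound)
  rw [norm_mul, Complex.norm_real, Real.norm_of_nonneg (by linarith)] at hle
  have : S * ‖pv x u‖ ≤ S * K := by
    unfold pv
    linarith
  exact le_of_mul_le_mul_left this (by linarith)

end MLB_

open MLB_ in
/-- **MLB** -/
theorem p_MLB : T_MLB := by
  intro b B hb hB hl h hm
  obtain ⟨M, hM⟩ := clm hm
  set X : ℕ → ℂ := fun k => 2 ^ k * (M (B.poly 1) k / b k) with hX
  have hin := fun Q l => ineq hb hB hl hM Q X (fun k => rfl) l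
  have hX2 : ∀ l, ∑ j ∈ Finset.range (l + 1), ‖X j‖ ^ 2 ≤ ‖M‖ ^ 2 := by
    intro l
    have h1 := hin (fun i => if i = 0 then 1 else 0) l
    have h2 : ∀ j, ∑ i ∈ Finset.range (j + 1), (if i = 0 then (1 : ℂ) else 0) * X (j - i) =
        X j := by
      intro j
      rw [Finset.sum_eq_single 0]
      · rw [if_pos rfl, one_mul, Nat.sub_zero]
      · intro i _ hi
        rw [if_neg hi, zero_mul]
      · intro h0
        exact absurd (Finset.mem_range.2 (by omega)) h0
    have h3 : ∑ i ∈ Finset.range (l + 1), ‖(if i = 0 then (1 : ℂ) else 0)‖ ^ 2 = 1 := by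
      rw [Finset.sum_eq_single 0]
      · rw [if_pos rfl, norm_one, one_pow]
      · intro i _ hi
        rw [if_neg hi, norm_zero, zero_pow two_ne_zero]
      · intro h0
        exact absurd (Finset.mem_range.2 (by omega)) h0
    rw [h3, mul_one, Finset.sum_congr rfl fun j _ => by rw [h2 j]] at h1
    exact h1
  have hmem : Memℓp X 2 := by
    apply memlp_of_le (C := ‖M‖ ^ 2)
    intro s
    have h1 : s ⊆ Finset.range (s.sup id + 1) := by
      intro i hi
      have := Finset.le_sup (f := id) hi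
      rw [Finset.mem_range]
      simp only [id] at this
      omega
    exact (Finset.sum_le_sum_of_subset_of_nonneg h1 fun _ _ _ => by positivity).trans (hX2 _)
  set x : HH := ⟨X, hmem⟩ with hxdef
  have hxX : ∀ k, x k = X k := fun k => rfl
  have hbd := bdd x ‖M‖ (norm_nonneg _) (fun Q l => hin Q l)
  have h2z : ∀ z ∈ Metric.ball (0 : ℂ) 2, ‖z / 2‖ < 1 := by
    intro z hz
    rw [Metric.mem_ball, dist_zero_right] at hz
    rw [norm_div, Complex.norm_ofNat]
    linarith
  refine ⟨fun z => pv x (z / 2), ?_, ⟨‖M‖, fun z hz => hbd _ (h2z z hz)⟩, ?_⟩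
  · have h1 := pv_differentiableOn x
    have h2 : DifferentiableOn ℂ (fun z : ℂ => z / 2) (Metric.ball 0 2) := by fun_prop
    refine h1.comp h2 fun z hz => ?_
    rw [Metric.mem_ball, dist_zero_right]
    exact h2z z hz
  · intro w hw
    have h1 := hM (B.poly 1) w hw
    rw [B.fn_poly _ w hw, map_one, mul_one] at h1
    rw [← h1]
    have h2 := (hB.fn (M (B.poly 1)) w hw).tsum_eq
    rw [← h2]
    simp only [pv]
    apply tsum_congr
    intro n
    rw [hxX, hX, div_pow]
    simp only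
    have : (2 : ℂ) ^ n ≠ 0 := pow_ne_zero _ two_ne_zero
    field_simp

end Pool.Agent.CPW
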