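import Pool.Agent.CPW.Targets

set_option autoImplicit false

/-!
# CPW: the operator `f ↦ ∑ f_m (2 Φ)^m`
-/

namespace Pool.Agent.CPW

open Filter Topology
open scoped ENNReal

namespace OPT_

/-- an absolutely summable sequence is in `ℓ²` -/
lemma mem {v : ℕ → ℂ} (hv : Summable fun n => ‖v n‖) : Memℓp v 2 := by
  have h1 : Memℓp v 1 := memℓp_gen (by simpa using hv)
  exact h1.of_exponent_ge (by norm_num)

lemma norm_le {v : ℕ → ℂ} (hv : Summable fun n => ‖v n‖) {S : ℝ} (hS : ∑' n, ‖v n‖ ≤ S)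
    (f : L2) (hf : ∀ n, f n = v n) : ‖f‖ ≤ S := by
  have hS0 : 0 ≤ S := (tsum_nonneg fun n => norm_nonneg (v n)).trans hS
  refine lp.norm_le_of_tsum_le (by norm_num) hS0 ?_
  have h2 : ((2 : ℝ≥0∞)).toReal = ((2 : ℕ) : ℝ) := by norm_num
  rw [h2, Real.rpow_natCast]
  simp only [Real.rpow_natCast, hf]
  have h3 : ∀ n, ‖v n‖ ^ 2 ≤ S * ‖v n‖ := by
    intro n
    have h4 : ‖v n‖ ≤ S := (hv.le_tsum n fun j _ => norm_nonneg (v j)).trans hS
    rw [sq]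
    exact mul_le_mul_of_nonneg_right h4 (norm_nonneg _)
  have h5 : Summable fun n => S * ‖v n‖ := hv.mul_left S
  have h6 : Summable fun n => ‖v n‖ ^ 2 :=
    Summable.of_nonneg_of_le (fun n => by positivity) h3 h5
  calc ∑' n, ‖v n‖ ^ 2 ≤ ∑' n, S * ‖v n‖ := h6.tsum_le_tsum h3 h5
    _ = S * ∑' n, ‖v n‖ := tsum_mul_left
    _ ≤ S ^ 2 := by
      rw [sq]
      exact mul_le_mul_of_nonneg_left hS hS0

/-- the `m`-th coordinate -/
noncomputable def ev (m : ℕ) : L2 →L[ℂ] ℂ :=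
  lp.evalCLM ℂ (fun _ : ℕ => ℂ) 2 m

lemma ev_apply (m : ℕ) (f : L2) : ev m f = f m := rfl

lemma ev_norm (m : ℕ) : ‖ev m‖ ≤ 1 := by
  refine ContinuousLinearMap.opNorm_le_bound _ zero_le_one fun f => ?_
  rw [ev_apply, one_mul]
  exact lp.norm_apply_le_norm (by norm_num) f m

end OPT_

theorem p_OPT : T_OPT := by
  intro b Φ hb hΦ
  have hco : ∀ m n, (b n : ℂ) * PowerSeries.coeff n ((2 * Φ) ^ m) =
      (2 : ℂ) ^ m * (PowerSeries.coeff n (Φ ^ m) * (b n : ℂ)) := by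
    intro m n
    have h2 : (2 : PowerSeries ℂ) = PowerSeries.C (2 : ℂ) := by
      rw [map_ofNat]
    rw [mul_pow, h2, ← map_pow, PowerSeries.coeff_C_mul]
    ring
  have hno : ∀ m n, ‖(b n : ℂ) * PowerSeries.coeff n ((2 * Φ) ^ m)‖ =
      2 ^ m * (‖PowerSeries.coeff n (Φ ^ m)‖ * b n) := by
    intro m n
    rw [hco, norm_mul, norm_mul, norm_pow, Complex.norm_real, Complex.norm_ofNat,
      Real.norm_of_nonneg (by linarith [hb n])]
  have hsum : ∀ m, Summable fun n => ‖(b n : ℂ) * PowerSeries.coeff n ((2 * Φ) ^ m)‖ := by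
    intro m
    simp only [hno]
    exact (hΦ m).1.mul_left _
  have hle : ∀ m, ∑' n, ‖(b n : ℂ) * PowerSeries.coeff n ((2 * Φ) ^ m)‖ ≤ (1 / 2) ^ m := by
    intro m
    simp only [hno]
    rw [tsum_mul_left]
    calc (2 : ℝ) ^ m * ∑' n, ‖PowerSeries.coeff n (Φ ^ m)‖ * b n ≤ 2 ^ m * (1 / 4) ^ m :=
          mul_le_mul_of_nonneg_left (hΦ m).2 (by positivity)
      _ = (1 / 2) ^ m := by
        rw [← mul_pow]
        norm_num
  let v : ℕ → L2 := fun m => ⟨fun n => (b n : ℂ) * PowerSeries.coeff n ((2 * Φ) ^ m),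
    OPT_.mem (hsum m)⟩
  have hv : ∀ m n, (v m : L2) n = (b n : ℂ) * PowerSeries.coeff n ((2 * Φ) ^ m) :=
    fun m n => rfl
  have hvn : ∀ m, ‖v m‖ ≤ (1 / 2) ^ m := fun m => OPT_.norm_le (hsum m) (hle m) (v m) (hv m)
  let A : ℕ → (L2 →L[ℂ] L2) := fun m => (OPT_.ev m).smulRight (v m)
  have hA : ∀ m, ‖A m‖ ≤ (1 / 2) ^ m := by
    intro m
    have h1 : ‖A m‖ = ‖OPT_.ev m‖ * ‖v m‖ := ContinuousLinearMap.norm_smulRight_apply _ _
    rw [h1]
    calc ‖OPT_.ev m‖ * ‖v m‖ ≤ 1 * (1 / 2) ^ m :=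
          mul_le_mul (OPT_.ev_norm m) (hvn m) (norm_nonneg _) zero_le_one
      _ = _ := one_mul _
  have hAs : Summable A := by
    refine Summable.of_norm_bounded (g := fun m : ℕ => ((1 : ℝ) / 2) ^ m) ?_ hA
    exact summable_geometric_of_lt_one (by norm_num) (by norm_num)
  refine ⟨∑' m, A m, ⟨fun f n => ?_⟩⟩
  have h1 : HasSum (fun m => A m f) ((∑' m, A m) f) :=
    ((ContinuousLinearMap.apply ℂ L2 f).hasSum hAs.hasSum)
  have h2 : HasSum (fun m => OPT_.ev n (A m f)) (OPT_.ev n ((∑' m, A m) f)) :=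
    (OPT_.ev n).hasSum h1
  rw [OPT_.ev_apply] at h2
  convert h2 using 2 with m
  rw [OPT_.ev_apply]
  show f m * ((b n : ℂ) * PowerSeries.coeff n ((2 * Φ) ^ m)) = ((OPT_.ev m f) • (v m) : L2) n
  rw [lp.coeFn_smul, Pi.smul_apply, smul_eq_mul, hv, OPT_.ev_apply]

end Pool.Agent.CPW
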