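import Pool.Agent.CPW.Targets2
import Pool.Agent.CycP.PickF

set_option autoImplicit false

/-!
# CPW: assembly
-/

namespace Pool.Agent.CPW

open Polynomial Filter Topology
open Pool.Agent.CycP

/-- `B` is the weighted Hardy space `H²(b)` on the unit disc: `‖∑ c n z ^ n‖² = ∑ |c n|² (b n)²`
for polynomials -/
def Hardy (b : ℕ → ℝ) (B : AnSpace 1 (Metric.ball 0 1) L2) : Prop :=
  ∀ m n : ℕ, inner ℂ (B.poly (MvPolynomial.X 0 ^ m)) (B.poly (MvPolynomial.X 0 ^ n)) =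
    if m = n then ((b n : ℂ)) ^ 2 else 0

theorem hardy_of {b : ℕ → ℝ} {B : AnSpace 1 (Metric.ball 0 1) L2} (h : IsW b B) : Hardy b B := by
  intro m n
  have hc : ∀ m k : ℕ, (B.poly (MvPolynomial.X 0 ^ m) : L2) k = if k = m then (b k : ℂ) else 0 := by
    intro m k
    rw [h.poly, MvPolynomial.coeff_X_pow]
    by_cases hk : k = m
    · subst hk
      simp
    · have : ¬ Finsupp.single (0 : Fin 1) m = Finsupp.single 0 k := by
        intro he
        exact hk (Finsupp.single_injective 0 he).symm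
      rw [if_neg this, if_neg hk, mul_zero]
  rw [lp.inner_eq_tsum]
  have e : ∀ k, inner ℂ ((B.poly (MvPolynomial.X 0 ^ m) : L2) k)
      ((B.poly (MvPolynomial.X 0 ^ n) : L2) k) =
      if k = n then (if m = n then ((b n : ℂ)) ^ 2 else 0) else 0 := by
    intro k
    rw [hc, hc]
    by_cases h1 : k = n
    · subst h1
      by_cases h2 : m = k
      · subst h2
        simp only [if_true, inner_self_eq_norm_sq_to_K, Complex.norm_real, Real.norm_eq_abs]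
        rw [← RCLike.ofReal_pow, sq_abs]
        push_cast
        rfl
      · have h3 : ¬ k = m := fun h => h2 h.symm
        simp [h2, h3]
    · simp [h1]
  simp_rw [e]
  rw [tsum_ite_eq]

theorem graded_of {b : ℕ → ℝ} {B : AnSpace 1 (Metric.ball 0 1) L2} (h : IsW b B) : B.Graded := by
  intro j l P Q hP hQ hjl
  have hz : ∀ {R : MvPolynomial (Fin 1) ℂ} {i : ℕ}, R.IsHomogeneous i → ∀ n, n ≠ i →
      (B.poly R : L2) n = 0 := by
    intro R i hR n hn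
    rw [h.poly]
    have h0 : MvPolynomial.coeff (Finsupp.single 0 n) R = 0 := by
      by_contra hc
      have := hR hc
      rw [Finsupp.weight_single] at this
      simp at this
      exact hn this
    rw [h0, mul_zero]
  rw [lp.inner_eq_tsum]
  have e : ∀ n, inner ℂ ((B.poly P : L2) n) ((B.poly Q : L2) n) = 0 := by
    intro n
    by_cases h1 : n = j
    · rw [hz hQ n (by omega), inner_zero_right]
    · rw [hz hP n h1, inner_zero_left]
  simp_rw [e]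
  exact tsum_zero

/-- the multipliers of `H²(b)` are the bounded analytic functions on the disc of radius `2` -/
theorem mult_iff (q1 : T_MLA) (q2 : T_MLB) {b : ℕ → ℝ} {B : AnSpace 1 (Metric.ball 0 1) L2}
    (hB : IsW b B) (h1 : ∀ n, 1 ≤ b n) (h2 : ∀ n, b (n + 1) ≤ 2 * b n)
    (h3 : ∀ l : ℕ, ∃ N, ∀ i ≤ l, b (N + i) = 2 ^ i * b N) (h : (Fin 1 → ℂ) → ℂ) :
    B.IsMultiplier h ↔ ∃ H : ℂ → ℂ, DifferentiableOn ℂ H (Metric.ball 0 2) ∧
      (∃ M : ℝ, ∀ z ∈ Metric.ball (0 : ℂ) 2, ‖H z‖ ≤ M) ∧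
      ∀ w ∈ Metric.ball (0 : Fin 1 → ℂ) 1, h w = H (w 0) := by
  constructor
  · exact q2 b B h1 hB h3 h
  · rintro ⟨H, hH, ⟨M, hM⟩, hw⟩ f
    obtain ⟨x, hx, -⟩ := q1 b h1 h2 H M hH hM B hB f
    refine ⟨x, fun w hw2 => ?_⟩
    rw [hx w hw2, hw w hw2]

theorem long (q3 : T_BBA) (q2 : T_XFA) (s : Sq) (hs : Ok s) (l : ℕ) :
    ∃ N, ∀ i ≤ l, (2 : ℝ) ^ bb s (N + i) = 2 ^ i * 2 ^ bb s N := by
  obtain ⟨-, -, hb, -⟩ := q3 s hs
  obtain ⟨hX, -⟩ := q2 s hs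
  have hy := hs.y1 l
  have hg := hs.g1 l
  have hZ := (hX l).1
  have hZY : s.Z l ≤ s.Y l := by nlinarith
  refine ⟨s.Y l, fun i hi => ?_⟩
  have e1 := hb l (s.Y l + i) (by omega) (by omega)
  have e0 := hb l (s.Y l) hZY (by omega)
  have h1 : bb s (s.Y l + i) = i := by
    rw [e1, Nat.add_sub_cancel_left, min_eq_left]
    unfold Tp
    omega
  have h0 : bb s (s.Y l) = 0 := by
    rw [e0]
    simp
  rw [h1, h0, pow_zero, mul_one]

theorem main (q1 : T_SEQ) (q2 : T_XFA) (q3 : T_BBA) (q4 : T_BBB) (q5 : T_CON) (q6 : T_PHC)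
    (q7 : T_SPC) (q8 : T_MXD) (q9 : T_OPT) (q10 : T_CMP) (q11 : T_CYC) (q12 : T_NCY)
    (q13 : T_MLA) (q14 : T_MLB)
    (h : ℕ → ℝ) (h1 : ∀ n, 1 ≤ h n) (hh : Tendsto h atTop atTop) :
    ∃ b : ℕ → ℝ, (∀ n, 1 ≤ b n ∧ b n ≤ h n ∧ b (n + 1) ≤ 2 * b n) ∧
      ∃ (A B : AnSpace 1 (Metric.ball 0 1) L2) (φ : B.maxDomain → A.maxDomain) (T : L2 →L[ℂ] L2),
        Hardy (fun _ => 1) A ∧ Hardy b B ∧
        A.maxDomain = Metric.ball 0 1 ∧ B.maxDomain = Metric.ball 0 1 ∧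
        (∀ g, B.MultCyclic g → B.Cyclic g) ∧
        (∀ h : (Fin 1 → ℂ) → ℂ, B.IsMultiplier h ↔ ∃ H : ℂ → ℂ,
          DifferentiableOn ℂ H (Metric.ball 0 2) ∧
          (∃ M : ℝ, ∀ z ∈ Metric.ball (0 : ℂ) 2, ‖H z‖ ≤ M) ∧
          ∀ w ∈ Metric.ball (0 : Fin 1 → ℂ) 1, h w = H (w 0)) ∧
        (∀ (f : L2) (w : B.maxDomain), B.ext (T f) w = A.ext f (φ w)) ∧
        A.Cyclic (A.poly (1 - MvPolynomial.C (1 / 2) * MvPolynomial.X 0)) ∧
        ¬ B.Cyclic (T (A.poly (1 - MvPolynomial.C (1 / 2) * MvPolynomial.X 0))) ∧ ¬ B.CP := by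
  obtain ⟨s, hs, hY⟩ := q1 h hh
  obtain ⟨hX1, hX2, -⟩ := q2 s hs
  obtain ⟨hB1, -, -, -, -, -, hB7⟩ := q3 s hs
  obtain ⟨w0, w1, w2, w3, w4, -⟩ := q4 s hs
  obtain ⟨hP0, hP⟩ := q6 s hs
  have hb1 : ∀ n, (1 : ℝ) ≤ 2 ^ bb s n := fun n => one_le_pow₀ (by norm_num)
  have hb2 : ∀ n, (2 : ℝ) ^ bb s (n + 1) ≤ 2 * 2 ^ bb s n := by
    intro n
    rw [← pow_succ']
    exact pow_le_pow_right₀ (by norm_num) (w1 n)
  have hbh : ∀ n, (2 : ℝ) ^ bb s n ≤ h n := by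
    intro n
    rcases lt_or_ge n (s.Z 0) with h0 | h0
    · rw [hB7 n h0, pow_zero]
      exact h1 n
    · obtain ⟨K, hK1, hK2⟩ : ∃ K, s.Z K ≤ n ∧ n < s.Z (K + 1) := by
        have hex : ∃ K, n < s.Z K := ⟨n + 1, lt_of_lt_of_le (Nat.lt_succ_self n) (hX1 (n + 1)).2.1⟩
        classical
        have hf := Nat.find_spec hex
        have hne : Nat.find hex ≠ 0 := by
          intro h2
          rw [h2] at hf
          omega
        obtain ⟨K, hK⟩ := Nat.exists_eq_succ_of_ne_zero hne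
        refine ⟨K, ?_, ?_⟩
        · have := Nat.find_min hex (m := K) (by omega)
          omega
        · rw [hK] at hf
          exact hf
      rcases lt_or_ge n (s.Y K) with h2 | h2
      · rw [w4 K n hK1 h2, pow_zero]
        exact h1 n
      · exact (pow_le_pow_right₀ (by norm_num) (w2 K n hK2)).trans (hY K n h2)
  obtain ⟨A, hA⟩ := q7 (fun _ => 1) (fun _ => le_rfl) (fun _ => by norm_num)
  obtain ⟨B, hB⟩ := q7 (fun n => 2 ^ bb s n) hb1 hb2
  have hAm : A.maxDomain = Metric.ball 0 1 := q8 _ A (fun _ => le_rfl) hA (by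
    simpa using Set.infinite_univ (α := ℕ))
  have hBm : B.maxDomain = Metric.ball 0 1 := q8 _ B hb1 hB (by
    refine w3.mono fun n hn => ?_
    rw [Set.mem_ofPred_eq] at hn ⊢
    rw [hn, pow_zero])
  obtain ⟨T, hT⟩ := q9 (fun n => 2 ^ bb s n) (ph s) hb1 hP
  obtain ⟨φ, hφ⟩ := q10 (fun n => 2 ^ bb s n) (ph s) A B T hb1 hA hB hT hP hBm hAm
  obtain ⟨hc1, hc2⟩ := q11 (fun n => 2 ^ bb s n) A B hb1 hA hB
  have hn := q12 (fun n => 2 ^ bb s n) (ph s) A B T hb1 hA hB hT (q5 s hs)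
  refine ⟨fun n => 2 ^ bb s n, fun n => ⟨hb1 n, hbh n, hb2 n⟩, A, B, φ, T, ?_, ?_, hAm, hBm,
    fun g hg => (graded_of hB).cyclic_of_multCyclic hg,
    mult_iff q13 q14 hB hb1 hb2 (long q3 q2 s hs), hφ, hc1, hn, fun hcp => hn ?_⟩
  · have := hardy_of hA
    exact this
  · have := hardy_of hB
    exact this
  · refine hcp 1 _ L2 _ _ inferInstance A φ (B.poly 1) T hc2 (fun f w => ?_) _ hc1
    rw [hφ f w]
    have hw1 : B.ext (B.poly 1) w = 1 := by
      have hw : (w : Fin 1 → ℂ) ∈ B.maxDomain := w.2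
      unfold AnSpace.ext
      rw [dif_pos hw]
      have := hw.choose_spec 1
      rw [this, map_one]
    rw [hw1, one_mul]

end Pool.Agent.CPW
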