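import Pool.Agent.CPW.Targets

set_option autoImplicit false

namespace Pool.Agent.CPW

open Pool.Agent.CycP

namespace MXD_

/-- the test polynomial -/
noncomputable def tp (I : Finset ℕ) (z : ℂ) : MvPolynomial (Fin 1) ℂ :=
  ∑ n ∈ I, MvPolynomial.monomial (Finsupp.single 0 n) ((starRingEnd ℂ z) ^ n)

theorem coeff_tp (I : Finset ℕ) (z : ℂ) (n : ℕ) :
    (tp I z).coeff (Finsupp.single 0 n) = if n ∈ I then (starRingEnd ℂ z) ^ n else 0 := by
  classical
  unfold tp
  rw [MvPolynomial.coeff_sum]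
  simp only [MvPolynomial.coeff_monomial]
  have h : ∀ m ∈ I, (if (Finsupp.single (0 : Fin 1) m) = Finsupp.single 0 n then
      (starRingEnd ℂ z) ^ m else 0) = if m = n then (starRingEnd ℂ z) ^ m else 0 := by
    intro m _
    by_cases hm : m = n
    · simp [hm]
    · rw [if_neg hm, if_neg]
      intro h
      exact hm (Finsupp.single_injective 0 h)
  rw [Finset.sum_congr rfl h, Finset.sum_ite_eq']

theorem eval_tp (I : Finset ℕ) (w : Fin 1 → ℂ) :
    MvPolynomial.eval w (tp I (w 0)) = ((∑ n ∈ I, (‖w 0‖ ^ 2) ^ n : ℝ) : ℂ) := by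
  unfold tp
  rw [map_sum]
  push_cast
  apply Finset.sum_congr rfl
  intro n _
  rw [MvPolynomial.eval_monomial, Finsupp.prod_single_index (by simp), ← mul_pow,
    ← Complex.normSq_eq_conj_mul_self, Complex.normSq_eq_norm_sq]
  push_cast
  rfl

end MXD_

open MXD_ in
theorem p_MXD : T_MXD := by
  classical
  intro b B hb hB hinf
  ext w
  constructor
  · rintro ⟨L, hL⟩
    by_contra hw
    have hw1 : 1 ≤ ‖w 0‖ := by
      by_contra h
      push Not at h
      apply hw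
      rw [mem_ball_zero_iff, pi_norm_lt_iff one_pos]
      intro i
      rw [Subsingleton.elim i 0]
      exact h
    obtain ⟨N, hN⟩ := exists_nat_gt (‖L‖ ^ 2)
    obtain ⟨I, hI1, hI2⟩ := hinf.exists_subset_card_eq N
    have hS : ((N : ℕ) : ℝ) ≤ ∑ n ∈ I, (‖w 0‖ ^ 2) ^ n := by
      have h1 : ∑ n ∈ I, (1 : ℝ) ≤ ∑ n ∈ I, (‖w 0‖ ^ 2) ^ n := by
        apply Finset.sum_le_sum
        intro n _
        exact one_le_pow₀ (one_le_pow₀ hw1)
      simpa [hI2] using h1
    have hnorm : ‖B.poly (tp I (w 0))‖ ^ 2 = ∑ n ∈ I, (‖w 0‖ ^ 2) ^ n := by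
      have h1 := lp.norm_rpow_eq_tsum (p := 2) (by simp) (B.poly (tp I (w 0)))
      simp only [ENNReal.toReal_ofNat, Real.rpow_ofNat] at h1
      rw [h1, tsum_eq_sum (s := I)]
      · apply Finset.sum_congr rfl
        intro n hn
        have hbn : b n = 1 := hI1 hn
        rw [hB.poly, coeff_tp, if_pos hn, hbn]
        simp only [Complex.ofReal_one, one_mul, norm_pow, RCLike.norm_conj]
        ring
      · intro n hn
        rw [hB.poly, coeff_tp, if_neg hn]
        simp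
    have h2 := L.le_opNorm (B.poly (tp I (w 0)))
    rw [hL, eval_tp, Complex.norm_real, Real.norm_eq_abs] at h2
    set S := ∑ n ∈ I, (‖w 0‖ ^ 2) ^ n with hSd
    have hS0 : 0 ≤ S := le_trans (Nat.cast_nonneg N) hS
    rw [abs_of_nonneg hS0] at h2
    have h3 : S ^ 2 ≤ ‖L‖ ^ 2 * S := by
      calc S ^ 2 ≤ (‖L‖ * ‖B.poly (tp I (w 0))‖) ^ 2 := pow_le_pow_left₀ hS0 h2 2
        _ = ‖L‖ ^ 2 * S := by rw [mul_pow, hnorm]
    have hSpos : 0 < S := by
      have : (0 : ℝ) ≤ ‖L‖ ^ 2 := by positivity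
      linarith
    have h4 : S ≤ ‖L‖ ^ 2 := by
      by_contra h
      push Not at h
      nlinarith
    linarith
  · intro hw
    obtain ⟨C, hC⟩ := B.fn_bounded w hw
    let l : L2 →ₗ[ℂ] ℂ := (LinearMap.proj w).comp B.fn
    exact ⟨l.mkContinuousOfExistsBound ⟨C, hC⟩, fun P => B.fn_poly P w hw⟩

end Pool.Agent.CPW
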