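import Pool.Agent.CPW.Targets

set_option autoImplicit false

/-! ALG: two polynomial identities -/

namespace Pool.Agent.CPW

open Polynomial

namespace ALG_

lemma one (r u : ℝ[X]) (n : ℕ) : (r + u) ^ (n + 1) - (n + 1 : ℝ[X]) * u * (r + u) ^ n =
    r ^ (n + 1) - ∑ i ∈ Finset.range n,
      ((i + 1 : ℕ) : ℝ[X]) * ((n + 1).choose (i + 2) : ℝ[X]) * u ^ (i + 2) * r ^ (n - 1 - i) := by
  have h1 : (r + u) ^ (n + 1) = (∑ i ∈ Finset.range n,
      ((n + 1).choose (i + 2) : ℝ[X]) * u ^ (i + 2) * r ^ (n - 1 - i)) +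
      (n + 1 : ℝ[X]) * u * r ^ n + r ^ (n + 1) := by
    rw [add_comm r u, add_pow, Finset.sum_range_succ', Finset.sum_range_succ']
    have t1 : ∀ i : ℕ, u ^ (i + 1 + 1) * r ^ (n + 1 - (i + 1 + 1)) *
        ((n + 1).choose (i + 1 + 1) : ℝ[X]) =
        ((n + 1).choose (i + 2) : ℝ[X]) * u ^ (i + 2) * r ^ (n - 1 - i) := by
      intro i
      have : n + 1 - (i + 1 + 1) = n - 1 - i := by omega
      rw [this]
      ring
    have t2 : u ^ (0 + 1) * r ^ (n + 1 - (0 + 1)) * ((n + 1).choose (0 + 1) : ℝ[X]) =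
        (n + 1 : ℝ[X]) * u * r ^ n := by
      rw [zero_add, pow_one, Nat.choose_one_right, Nat.add_sub_cancel]
      push_cast
      ring
    have t3 : u ^ 0 * r ^ (n + 1 - 0) * ((n + 1).choose 0 : ℝ[X]) = r ^ (n + 1) := by
      rw [pow_zero, Nat.choose_zero_right, Nat.sub_zero, Nat.cast_one, one_mul, mul_one]
    rw [Finset.sum_congr rfl fun i _ => t1 i, t2, t3]
  have h2 : (r + u) ^ n = (∑ i ∈ Finset.range n,
      (n.choose (i + 1) : ℝ[X]) * u ^ (i + 1) * r ^ (n - 1 - i)) + r ^ n := by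
    rw [add_comm r u, add_pow, Finset.sum_range_succ']
    have t1 : ∀ i : ℕ, u ^ (i + 1) * r ^ (n - (i + 1)) * (n.choose (i + 1) : ℝ[X]) =
        (n.choose (i + 1) : ℝ[X]) * u ^ (i + 1) * r ^ (n - 1 - i) := by
      intro i
      have : n - (i + 1) = n - 1 - i := by omega
      rw [this]
      ring
    have t3 : u ^ 0 * r ^ (n - 0) * (n.choose 0 : ℝ[X]) = r ^ n := by
      rw [pow_zero, Nat.choose_zero_right, Nat.sub_zero, Nat.cast_one, one_mul, mul_one]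
    rw [Finset.sum_congr rfl fun i _ => t1 i, t3]
  have h3 : (n + 1 : ℝ[X]) * u * ∑ i ∈ Finset.range n,
      (n.choose (i + 1) : ℝ[X]) * u ^ (i + 1) * r ^ (n - 1 - i) =
      ∑ i ∈ Finset.range n, ((i + 2 : ℕ) : ℝ[X]) * ((n + 1).choose (i + 2) : ℝ[X]) *
        u ^ (i + 2) * r ^ (n - 1 - i) := by
    rw [Finset.mul_sum]
    refine Finset.sum_congr rfl fun i _ => ?_
    have h4 := Nat.add_one_mul_choose_eq n (i + 1)
    have h5 : (n + 1 : ℝ[X]) * (n.choose (i + 1) : ℝ[X]) =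
        ((n + 1).choose (i + 2) : ℝ[X]) * ((i + 2 : ℕ) : ℝ[X]) := by
      have := congrArg (fun k : ℕ => (k : ℝ[X])) h4
      push_cast at this ⊢
      linear_combination this
    linear_combination (u ^ (i + 2) * r ^ (n - 1 - i)) * h5
  rw [h1, h2, mul_add, h3]
  have h6 : (∑ i ∈ Finset.range n,
      ((n + 1).choose (i + 2) : ℝ[X]) * u ^ (i + 2) * r ^ (n - 1 - i)) -
      ∑ i ∈ Finset.range n, ((i + 2 : ℕ) : ℝ[X]) * ((n + 1).choose (i + 2) : ℝ[X]) *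
        u ^ (i + 2) * r ^ (n - 1 - i) =
      -∑ i ∈ Finset.range n,
      ((i + 1 : ℕ) : ℝ[X]) * ((n + 1).choose (i + 2) : ℝ[X]) * u ^ (i + 2) *
        r ^ (n - 1 - i) := by
    rw [← Finset.sum_sub_distrib, ← Finset.sum_neg_distrib]
    refine Finset.sum_congr rfl fun i _ => ?_
    push_cast
    ring
  linear_combination h6

lemma two (P A B d : ℝ[X]) (h1 : d ∣ A * B) (h2 : d ∣ B ^ 2) (h3 : d ∣ A ^ 3) (m : ℕ) :
    ∃ S : ℝ[X], (P + A + B) ^ (m + 1) = P ^ (m + 1) + (m + 1 : ℝ[X]) * A * P ^ m +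
      (((m + 1).choose 2 : ℝ[X]) * A ^ 2 * P ^ (m - 1) +
        (m + 1 : ℝ[X]) * B * P ^ m) + d * S := by
  obtain ⟨a, ha⟩ := h1
  obtain ⟨b, hb⟩ := h2
  obtain ⟨c, hc⟩ := h3
  induction m with
  | zero =>
    refine ⟨0, ?_⟩
    simp
  | succ m ih =>
    obtain ⟨S, hS⟩ := ih
    have e1 : ((m + 1).choose 2 : ℝ[X]) * P ^ (m - 1) * P =
        ((m + 1).choose 2 : ℝ[X]) * P ^ m := by
      cases m with
      | zero => simp
      | succ k =>
        rw [mul_assoc, ← pow_succ]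
        congr 2
    have e2 : ((m + 1 + 1).choose 2 : ℝ[X]) = (m + 1 : ℝ[X]) + ((m + 1).choose 2 : ℝ[X]) := by
      rw [Nat.choose_succ_succ' (m + 1) 1, Nat.choose_one_right]
      push_cast
      ring
    refine ⟨(P + A + B) * S + ((m + 1).choose 2 : ℝ[X]) * P ^ (m - 1) * c +
      2 * (m + 1 : ℝ[X]) * P ^ m * a + ((m + 1).choose 2 : ℝ[X]) * P ^ (m - 1) * A * a +
      (m + 1 : ℝ[X]) * P ^ m * b, ?_⟩
    rw [pow_succ, hS, e2, Nat.add_sub_cancel]
    push_cast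
    linear_combination (A ^ 2) * e1 + (((m + 1).choose 2 : ℝ[X]) * P ^ (m - 1)) * hc +
      (2 * (m + 1 : ℝ[X]) * P ^ m + ((m + 1).choose 2 : ℝ[X]) * P ^ (m - 1) * A) * ha +
      ((m + 1 : ℝ[X]) * P ^ m) * hb

end ALG_

open ALG_ in
/-- two polynomial identities -/
theorem p_ALG : T_ALG := by
  refine ⟨one, fun P f b g g' h1 h2 m => ?_⟩
  refine two P (C f * X ^ g) (C b * X ^ g') (X ^ (g + g')) ⟨C f * C b, ?_⟩ ?_ ?_ m
  · rw [pow_add]
    ring
  · refine ⟨C b ^ 2 * X ^ (g' - g), ?_⟩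
    have e : X ^ (g + g') * (C b ^ 2 * X ^ (g' - g)) = C b ^ 2 * (X : ℝ[X]) ^ (g' + g') := by
      have : g' + g' = g + g' + (g' - g) := by omega
      rw [this, pow_add X (g + g')]
      ring
    rw [e, pow_add]
    ring
  · refine ⟨C f ^ 3 * X ^ (2 * g - g'), ?_⟩
    have e : X ^ (g + g') * (C f ^ 3 * X ^ (2 * g - g')) = C f ^ 3 * (X : ℝ[X]) ^ (g * 3) := by
      have : g * 3 = g + g' + (2 * g - g') := by omega
      rw [this, pow_add X (g + g')]
      ring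
    rw [e, pow_mul]
    ring

end Pool.Agent.CPW
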