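import Pool.Agent.CPW.Targets

set_option autoImplicit false

/-!
# Block BNR: supports of powers of polynomials
-/

namespace Pool.Agent.CPW

open Polynomial

namespace BNR_

theorem dvd_sub {s : Sq} {j k N : ℕ} (hjk : 2 * j < k)
    (h : ∀ l, 2 * j + 1 ≤ l → l ≤ 2 * k → l ≠ k → N ≤ x s l) :
    (X : ℝ[X]) ^ N ∣ RK s k - PK s j := by
  have h1 : RK s k - PK s j = ∑ l ∈ (Finset.Ico (2 * j + 1) (2 * k + 1)).erase k,
      C (a s l) * X ^ x s l := by
    unfold RK PK
    rw [← Finset.sum_range_add_sum_Ico _ (by omega : 2 * j + 1 ≤ 2 * k + 1),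
      ← Finset.add_sum_erase (Finset.Ico (2 * j + 1) (2 * k + 1)) _
        (show k ∈ Finset.Ico (2 * j + 1) (2 * k + 1) by rw [Finset.mem_Ico]; omega)]
    ring
  rw [h1]
  refine Finset.dvd_sum fun l hl => ?_
  rw [Finset.mem_erase, Finset.mem_Ico] at hl
  exact Dvd.dvd.mul_left (pow_dvd_pow _ (h l hl.2.1 (by omega) hl.1)) _

theorem coeff_pow {P Q : ℝ[X]} {N n : ℕ} (h : X ^ N ∣ P - Q) (m : ℕ) (hn : n < N) :
    (P ^ m).coeff n = (Q ^ m).coeff n := by
  have h1 : X ^ N ∣ P ^ m - Q ^ m := h.trans (sub_dvd_pow_sub_pow P Q m)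
  have h2 := X_pow_dvd_iff.1 h1 n hn
  rw [coeff_sub] at h2
  linarith

theorem fin {s : Sq} (hs : Ok s) {j m n : ℕ} (hY : s.Y j < n) (h : n ≤ m * s.Z j) :
    m0 s j ≤ m := by
  have h1 := hs.y1 j
  unfold m0
  by_contra hc
  have h2 : m * s.Z j ≤ (5 * s.Z j + 9 * j + 70) * s.Z j :=
    Nat.mul_le_mul_right _ (by omega)
  omega

end BNR_

open BNR_ in
/-- **BNR**: supports of powers of polynomials -/
theorem p_BNR (h1 : T_XFA) (h2 : T_PKF) : T_BNR := by
  intro s hs k hk m n hb hc
  obtain ⟨hZ, -, ⟨-, hx⟩, hxZ, hxg, -⟩ := h1 s hs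
  obtain ⟨k, rfl⟩ : ∃ k', k = k' + 1 := ⟨k - 1, by omega⟩
  rw [bn] at hb
  rcases Nat.even_or_odd' k with ⟨j, rfl | rfl⟩
  · rw [show (2 * j + 1 - 1) / 2 = j by omega]
    rw [if_pos (by omega), show 2 * j / 2 = j by omega] at hb
    have hzj := hs.zs j
    have hZj := (hZ j).2.2.1
    have hZj1 := (hZ (j + 1)).2.2.1
    have hxj := (hxZ j j (by omega)).2
    obtain ⟨-, -, hP, -⟩ := h2 s hs j
    split_ifs at hb with hn
    · have hY : s.Y j < n := by
        by_contra hcon
        exact hb (by rw [Nat.sub_eq_zero_of_le (by omega)]; simp)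
      have hd : (X : ℝ[X]) ^ (2 * s.g j - x s j) ∣ RK s (2 * j + 1) - PK s j := by
        refine dvd_sub (by omega) fun l hl1 _ hl3 => ?_
        rcases Nat.lt_or_ge l (2 * j + 3) with h | h
        · rw [show l = 2 * j + 2 by omega, (hx j).2]
        · have := hxg (j + 1) l (by omega)
          omega
      rw [coeff_pow hd m (by omega)] at hc
      exact fin hs hY (hP m n hc)
    · exact absurd rfl hb
  · rw [show (2 * j + 1 + 1 - 1) / 2 = j by omega]
    rw [if_neg (by omega), show (2 * j + 1) / 2 = j by omega] at hb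
    have hzj := hs.zs j
    have hZj := (hZ j).2.2.1
    have hZj1 := (hZ (j + 1)).2.2.1
    have hxj := (hxZ j j (by omega)).2
    obtain ⟨-, -, hP, -⟩ := h2 s hs j
    split_ifs at hb with hn hn2
    · have hY : s.Y j < n := by
        by_contra hcon
        exact hb (by rw [Nat.sub_eq_zero_of_le (by omega)]; simp)
      have hd : (X : ℝ[X]) ^ (s.g j) ∣ RK s (2 * j + 1 + 1) - PK s j := by
        refine dvd_sub (by omega) fun l hl1 _ hl3 => hxg j l hl1
      rw [coeff_pow hd m hn] at hc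
      exact fin hs hY (hP m n hc)
    · have hY : s.Y j < n - s.g j := by
        by_contra hcon
        exact hb (by rw [Nat.sub_eq_zero_of_le (by omega)]; simp)
      have hd : (X : ℝ[X]) ^ (2 * s.g j) ∣ RK s (2 * j + 1 + 1) -
          (PK s j + C (a s (2 * j + 1)) * X ^ s.g j) := by
        have h3 : RK s (2 * j + 1 + 1) - (PK s j + C (a s (2 * j + 1)) * X ^ s.g j) =
            ∑ l ∈ (Finset.Ico (2 * j + 2) (2 * (2 * j + 1 + 1) + 1)).erase (2 * j + 2),
              C (a s l) * X ^ x s l := by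
          unfold RK PK
          rw [← Finset.sum_range_add_sum_Ico _
              (by omega : 2 * j + 2 ≤ 2 * (2 * j + 1 + 1) + 1),
            ← Finset.add_sum_erase (Finset.Ico (2 * j + 2) (2 * (2 * j + 1 + 1) + 1)) _
              (show 2 * j + 2 ∈ Finset.Ico (2 * j + 2) (2 * (2 * j + 1 + 1) + 1) by
                rw [Finset.mem_Ico]; omega),
            show 2 * j + 2 = 2 * j + 1 + 1 from rfl, Finset.sum_range_succ, (hx j).1]
          ring
        rw [h3]
        refine Finset.dvd_sum fun l hl => ?_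
        rw [Finset.mem_erase, Finset.mem_Ico] at hl
        refine Dvd.dvd.mul_left (pow_dvd_pow _ ?_) _
        have := hxg (j + 1) l (by omega)
        omega
      rw [coeff_pow hd m hn2] at hc
      obtain ⟨w, hw⟩ := powAddExpansion (PK s j) (C (a s (2 * j + 1)) * X ^ s.g j) m
      rw [hw, coeff_add, coeff_add] at hc
      have h4 : (w * (C (a s (2 * j + 1)) * X ^ s.g j) ^ 2).coeff n = 0 := by
        have h5 : (X : ℝ[X]) ^ (2 * s.g j) ∣ w * (C (a s (2 * j + 1)) * X ^ s.g j) ^ 2 := by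
          rw [mul_pow, ← pow_mul, mul_comm (s.g j) 2, ← mul_assoc]
          exact dvd_mul_left _ _
        exact X_pow_dvd_iff.1 h5 n hn2
      rw [h4, add_zero] at hc
      by_cases h6 : ((PK s j) ^ m).coeff n = 0
      · rw [h6, zero_add] at hc
        have h7 : (m : ℝ[X]) * PK s j ^ (m - 1) * (C (a s (2 * j + 1)) * X ^ s.g j) =
            C ((m : ℝ) * a s (2 * j + 1)) * PK s j ^ (m - 1) * X ^ s.g j := by
          rw [C_mul, C_eq_natCast]
          ring
        rw [h7, coeff_mul_X_pow', if_pos (by omega), coeff_C_mul] at hc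
        have h8 := hP (m - 1) (n - s.g j) (right_ne_zero_of_mul hc)
        exact fin hs hY (h8.trans (Nat.mul_le_mul_right _ (by omega)))
      · exact fin hs (by omega) (hP m n h6)
    · exact absurd rfl hb

end Pool.Agent.CPW
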