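import Pool.Agent.CPW.Targets

set_option autoImplicit false

namespace Pool.Agent.CPW

open Polynomial

namespace COE_

theorem coeff_ph (s : Sq) (hx : ∀ l, l ≤ x s l) {i n : ℕ} (hi : i ≤ n) :
    PowerSeries.coeff i (ph s) =
      ∑ l ∈ Finset.range (n + 1), if x s l = i then (a s l : ℂ) else 0 := by
  unfold ph
  rw [PowerSeries.coeff_mk]
  apply Finset.sum_subset
  · intro l hl
    simp only [Finset.mem_range] at hl ⊢
    omega
  · intro l _ hl
    simp only [Finset.mem_range] at hl
    rw [if_neg]
    have := hx l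
    omega

end COE_

theorem p_COE (h1 : T_XFA) : T_COE := by
  intro s hs p n
  obtain ⟨-, -, -, -, -, hx, -⟩ := h1 s hs
  have h2 : (1 : PowerSeries ℂ) - (1 - ph s) * (p : PowerSeries ℂ) =
      1 - (p : PowerSeries ℂ) + ph s * (p : PowerSeries ℂ) := by ring
  rw [h2, map_add, map_sub, PowerSeries.coeff_one, Polynomial.coeff_coe]
  congr 1
  rw [PowerSeries.coeff_mul, Finset.Nat.sum_antidiagonal_eq_sum_range_succ
    (fun i j => PowerSeries.coeff i (ph s) * PowerSeries.coeff j (p : PowerSeries ℂ))]
  unfold cv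
  have h3 : ∀ i ∈ Finset.range n.succ,
      PowerSeries.coeff i (ph s) * PowerSeries.coeff (n - i) (p : PowerSeries ℂ) =
      ∑ l ∈ Finset.range (n + 1), if x s l = i then (a s l : ℂ) * p.coeff (n - i) else 0 := by
    intro i hi
    have hi' : i ≤ n := by
      have := Finset.mem_range.mp hi
      omega
    rw [COE_.coeff_ph s hx hi', Polynomial.coeff_coe, Finset.sum_mul]
    apply Finset.sum_congr rfl
    intro l _
    rw [ite_mul, zero_mul]
  rw [Finset.sum_congr rfl h3, Finset.sum_comm]
  apply Finset.sum_congr rfl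
  intro l _
  by_cases hl : x s l ≤ n
  · rw [if_pos hl, Finset.sum_eq_single (x s l)]
    · rw [if_pos rfl]
    · intro i _ hi
      rw [if_neg (Ne.symm hi)]
    · intro h
      exact absurd (Finset.mem_range.mpr (by omega)) h
  · rw [if_neg hl]
    apply Finset.sum_eq_zero
    intro i hi
    have := Finset.mem_range.mp hi
    rw [if_neg (by omega)]

end Pool.Agent.CPW
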