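import Pool.Agent.CPW.Targets

set_option autoImplicit false

/-!
# CPW, CON: the contraction
-/

namespace Pool.Agent.CPW

open Polynomial Filter Topology

theorem p_CON (h1 : T_XFA) (h2 : T_BBB) (h3 : T_COE) (h4 : T_RWW) : T_CON := by
  intro s hs p
  by_contra hcon
  push Not at hcon
  obtain ⟨hX1, -, ⟨hx0, -⟩, -⟩ := h1 s hs
  obtain ⟨hb0, -⟩ := h2 s hs
  have hex : ∀ n, ∃ K, n ≤ s.Z K := fun n => ⟨n, (hX1 n).2.1⟩
  classical
  set kap : ℕ → ℕ := fun n => Nat.find (hex n) with hkap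
  have hk : ∀ n K, n ≤ s.Z K → kap n ≤ K := fun n K h => Nat.find_min' (hex n) h
  have hk2 : ∀ n, n ≤ s.Z (kap n) := fun n => Nat.find_spec (hex n)
  have hc : ∀ n, 1 ≤ n → ‖cv s p n - p.coeff n‖ * 2 ^ bb s n ≤ 1 / 1000 := by
    intro n hn
    have h := hcon n
    rw [h3 s hs, if_neg (by omega)] at h
    rwa [show (0 : ℂ) - p.coeff n + cv s p n = cv s p n - p.coeff n by ring] at h
  obtain ⟨N, hN, hmax⟩ := Finset.exists_max_image (insert 0 p.support)
    (fun n => ‖p.coeff n‖ * 2 ^ bb s n / 2 ^ (kap n + 8)) ⟨0, Finset.mem_insert_self _ _⟩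
  set M : ℝ := ‖p.coeff N‖ * 2 ^ bb s N / 2 ^ (kap N + 8) with hM
  have hM0 : 0 ≤ M := by positivity
  have hall : ∀ n, ‖p.coeff n‖ * 2 ^ bb s n ≤ M * 2 ^ (kap n + 8) := by
    intro n
    by_cases hn : n ∈ insert 0 p.support
    · have := hmax n hn
      rwa [div_le_iff₀ (by positivity)] at this
    · have : p.coeff n = 0 := by
        by_contra h
        exact hn (Finset.mem_insert_of_mem (Polynomial.mem_support_iff.2 h))
      rw [this, norm_zero, zero_mul]
      positivity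
  have hR := h4 s hs kap p (1 / 1000) M (by norm_num) hM0 hk hc hall (kap N) N (hk2 N)
  have hM2 : M ≤ 1 / 1000 + M / 2 := by
    rw [hM, div_le_iff₀ (by positivity)]
    exact hR
  have hk0 : kap 0 = 0 := Nat.le_zero.1 (hk 0 0 (Nat.zero_le _))
  have hp0 := hall 0
  rw [hb0, hk0] at hp0
  have hcv : cv s p 0 = 0 := by
    unfold cv
    rw [Finset.sum_range_one, hx0]
    simp
  have he := hcon 0
  rw [h3 s hs, hb0, hcv, if_pos rfl] at he
  have htri : ‖(1 : ℂ)‖ ≤ ‖1 - p.coeff 0 + 0‖ + ‖p.coeff 0‖ := by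
    calc ‖(1 : ℂ)‖ = ‖(1 - p.coeff 0 + 0) + p.coeff 0‖ := by congr 1; ring
      _ ≤ _ := norm_add_le _ _
  rw [norm_one] at htri
  norm_num at hp0 he
  rw [add_zero] at htri
  linarith

end Pool.Agent.CPW
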