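import Pool.Agent.CPW.Targets

set_option autoImplicit false

/-! Target CYC: cyclic vectors. -/

namespace Pool.Agent.CPW

open Filter Topology
open Pool.Agent.CycP

namespace CYC_

lemma poly_ext {X : Type} [NormedAddCommGroup X] [NormedSpace ℂ X]
    (A : AnSpace 1 (Metric.ball 0 1) X) (x y : X)
    (h : ∀ w ∈ Metric.ball (0 : Fin 1 → ℂ) 1, A.fn x w = A.fn y w) : x = y := by
  rw [← sub_eq_zero]
  apply A.fn_inj
  intro w hw
  rw [map_sub, Pi.sub_apply, h w hw, sub_self]

lemma cyc_of {X : Type} [NormedAddCommGroup X] [NormedSpace ℂ X]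
    (A : AnSpace 1 (Metric.ball 0 1) X) (f : X)
    (h : ∀ P, A.poly P ∈ closure (A.orbit f)) : A.Cyclic f := by
  unfold AnSpace.Cyclic
  apply Set.eq_univ_of_univ_subset
  rw [← A.poly_dense.closure_range]
  apply closure_minimal _ isClosed_closure
  rintro _ ⟨P, rfl⟩
  exact h P

lemma norm_shift {A : AnSpace 1 (Metric.ball 0 1) L2} (hA : IsW (fun _ => 1) A) (y : L2) :
    ‖A.shift 0 y‖ ≤ ‖y‖ := by
  have h2 : (0 : ℝ) < (2 : ENNReal).toReal := by norm_num
  apply lp.norm_le_of_tsum_le h2 (norm_nonneg y)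
  have hs : Summable fun i => ‖(A.shift 0 y : L2) i‖ ^ (2 : ENNReal).toReal :=
    (lp.memℓp (A.shift 0 y)).summable h2
  rw [hs.tsum_eq_zero_add, lp.norm_rpow_eq_tsum h2 y, (hA.shift y 0).1]
  have h3 : ∀ n, (A.shift 0 y : L2) (n + 1) = y n := by
    intro n
    rw [(hA.shift y n).2]
    simp
  simp [h3]

lemma norm_spow {A : AnSpace 1 (Metric.ball 0 1) L2} (hA : IsW (fun _ => 1) A) (y : L2) (N : ℕ) :
    ‖(A.shift 0 ^ N) y‖ ≤ ‖y‖ := by
  induction N with
  | zero => simp
  | succ N ih =>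
    rw [pow_succ', mul_apply_eq_comp]
    exact (norm_shift hA _).trans ih

lemma fn_pow (A : AnSpace 1 (Metric.ball 0 1) L2) (y : L2) (N : ℕ) (w : Fin 1 → ℂ)
    (hw : w ∈ Metric.ball (0 : Fin 1 → ℂ) 1) :
    A.fn ((A.shift 0 ^ N) y) w = (w 0) ^ N * A.fn y w := by
  induction N with
  | zero => simp
  | succ N ih =>
    rw [pow_succ', mul_apply_eq_comp, A.fn_shift 0 _ w hw, ih]
    ring

end CYC_

open CYC_ in
theorem p_CYC : T_CYC := by
  intro b A B _ hA _
  constructor
  · apply cyc_of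
    intro P
    set q : MvPolynomial (Fin 1) ℂ := 1 - MvPolynomial.C (1 / 2) * MvPolynomial.X 0 with hq
    -- approximations
    have h1 : ∀ N : ℕ, A.poly P - ((1 / 2 : ℂ) ^ N) • (A.shift 0 ^ N) (A.poly P) ∈
        A.orbit (A.poly q) := by
      intro N
      refine ⟨P * ∑ k ∈ Finset.range N, (MvPolynomial.C (1 / 2) * MvPolynomial.X 0) ^ k, ?_⟩
      intro w hw
      rw [map_sub, map_smul, Pi.sub_apply, Pi.smul_apply, fn_pow A _ N w hw, A.fn_poly P w hw,
        A.fn_poly q w hw]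
      have h2 : MvPolynomial.eval w q = 1 - 1 / 2 * w 0 := by
        rw [hq]
        simp
      have h3 : MvPolynomial.eval w (P * ∑ k ∈ Finset.range N,
          (MvPolynomial.C (1 / 2) * MvPolynomial.X 0) ^ k) =
          MvPolynomial.eval w P * ∑ k ∈ Finset.range N, (1 / 2 * w 0) ^ k := by
        simp
      rw [h2, h3, mul_assoc, mul_comm (∑ k ∈ Finset.range N, (1 / 2 * w 0) ^ k),
        mul_neg_geom_sum, smul_eq_mul, mul_pow]
      ring
    have h2 : Tendsto (fun N : ℕ => A.poly P - ((1 / 2 : ℂ) ^ N) • (A.shift 0 ^ N) (A.poly P))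
        atTop (𝓝 (A.poly P)) := by
      have h3 : Tendsto (fun N : ℕ => ((1 / 2 : ℂ) ^ N) • (A.shift 0 ^ N) (A.poly P)) atTop
          (𝓝 0) := by
        apply squeeze_zero_norm (a := fun N : ℕ => (1 / 2 : ℝ) ^ N * ‖A.poly P‖)
        · intro N
          rw [norm_smul, norm_pow]
          have h4 : ‖(1 / 2 : ℂ)‖ = 1 / 2 := by norm_num
          rw [h4]
          exact mul_le_mul_of_nonneg_left (norm_spow hA _ N) (by positivity)
        · have h5 := (tendsto_pow_atTop_nhds_zero_of_lt_one (r := (1 / 2 : ℝ)) (by norm_num)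
            (by norm_num)).mul_const ‖A.poly P‖
          simpa using h5
      simpa using tendsto_const_nhds.sub h3
    exact mem_closure_of_tendsto h2 (Eventually.of_forall h1)
  · apply cyc_of
    intro P
    apply subset_closure
    refine ⟨P, ?_⟩
    intro w hw
    rw [B.fn_poly P w hw, B.fn_poly 1 w hw]
    simp

end Pool.Agent.CPW
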