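import Pool.Agent.CPW.Targets2

set_option autoImplicit false

/-!
# CPW: bounded functions on the disc of radius 2 are multipliers
-/

namespace Pool.Agent.CPW

open Polynomial Filter Topology
open Pool.Agent.CycP

namespace MLA_

lemma coeffs {H : ℂ → ℂ} (hH : DifferentiableOn ℂ H (Metric.ball 0 2)) :
    ∃ c : ℕ → ℂ, ∀ z ∈ Metric.ball (0 : ℂ) 2, HasSum (fun k => c k * z ^ k) (H z) := by
  refine ⟨fun k => ((k.factorial : ℂ))⁻¹ * iteratedDeriv k H 0, fun z hz => ?_⟩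
  have h := Complex.hasSum_taylorSeries_on_ball hH hz
  have e : (fun n : ℕ => ((n.factorial : ℂ))⁻¹ • (z - 0) ^ n • iteratedDeriv n H 0) =
      fun k : ℕ => ((k.factorial : ℂ))⁻¹ * iteratedDeriv k H 0 * z ^ k := by
    funext n
    simp only [smul_eq_mul, sub_zero]
    ring
  rw [← e]
  exact h

/-- the bilinear form -/
noncomputable def BF (a : ℕ → ℂ) (w : ℕ → ℝ) (N : ℕ) (x y : ℕ → ℂ) : ℂ :=
  ∑ m ∈ Finset.range N, ∑ n ∈ Finset.range (m + 1),
    a (m - n) * (∏ i ∈ Finset.Ico n m, (w i : ℂ)) * x n * y m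

lemma wsa_r (hW : T_WSA) {H : ℂ → ℂ} {M : ℝ} {c : ℕ → ℂ}
    (hs : ∀ z ∈ Metric.ball (0 : ℂ) 2, HasSum (fun k => c k * z ^ k) (H z))
    (hM : ∀ z ∈ Metric.ball (0 : ℂ) 2, ‖H z‖ ≤ M) (w : ℕ → ℝ) (hw : ∀ n, |w n| ≤ 1)
    (N : ℕ) (x y : ℕ → ℂ) (r : ℝ) (hr0 : 0 < r) (hr1 : r < 1) :
    ‖BF (fun k => c k * ((2 * r : ℝ) : ℂ) ^ k) w N x y‖ ≤
      M * √(∑ n ∈ Finset.range N, ‖x n‖ ^ 2) * √(∑ n ∈ Finset.range N, ‖y n‖ ^ 2) := by
  have hsum : Summable fun k => c k * ((2 * r : ℝ) : ℂ) ^ k := by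
    refine (hs ((2 * r : ℝ) : ℂ) ?_).summable
    rw [mem_ball_zero_iff, Complex.norm_real, Real.norm_eq_abs, abs_of_pos (by linarith)]
    linarith
  have hsn : Summable fun k => ‖c k * ((2 * r : ℝ) : ℂ) ^ k‖ := hsum.norm
  set A := √(∑ n ∈ Finset.range N, ‖x n‖ ^ 2) with hA
  set B := √(∑ n ∈ Finset.range N, ‖y n‖ ^ 2) with hB
  have hA0 : 0 ≤ A := Real.sqrt_nonneg _
  have hB0 : 0 ≤ B := Real.sqrt_nonneg _
  have hlim : Tendsto (fun K => (M + ∑' k, ‖c (k + K) * ((2 * r : ℝ) : ℂ) ^ (k + K)‖) * A * B)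
      atTop (𝓝 (M * A * B)) := by
    have h1 := tendsto_sum_nat_add (fun k => ‖c k * ((2 * r : ℝ) : ℂ) ^ k‖)
    have h2 := ((h1.const_add M).mul_const A).mul_const B
    rw [add_zero] at h2
    exact h2
  refine ge_of_tendsto hlim ?_
  filter_upwards [eventually_ge_atTop N] with K hK
  set p : ℂ[X] := ∑ k ∈ Finset.range K, C (c k * ((2 * r : ℝ) : ℂ) ^ k) * X ^ k with hp
  have hcoeff : ∀ j < K, p.coeff j = c j * ((2 * r : ℝ) : ℂ) ^ j := by
    intro j hj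
    rw [hp, Polynomial.finsetSum_coeff]
    rw [Finset.sum_eq_single j]
    · rw [Polynomial.coeff_C_mul_X_pow, if_pos rfl]
    · intro k _ hk
      rw [Polynomial.coeff_C_mul_X_pow, if_neg (Ne.symm hk)]
    · intro hj'
      exact absurd (Finset.mem_range.mpr hj) hj'
  have heval : ∀ z : ℂ, ‖z‖ = 1 → ‖p.eval z‖ ≤
      M + ∑' k, ‖c (k + K) * ((2 * r : ℝ) : ℂ) ^ (k + K)‖ := by
    intro z hz
    have hzb : ((2 * r : ℝ) : ℂ) * z ∈ Metric.ball (0 : ℂ) 2 := by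
      rw [mem_ball_zero_iff, norm_mul, hz, mul_one, Complex.norm_real, Real.norm_eq_abs,
        abs_of_pos (by linarith)]
      linarith
    have hS := hs _ hzb
    have h1 := hS.summable.sum_add_tsum_nat_add K
    rw [hS.tsum_eq] at h1
    have h2 : p.eval z = ∑ k ∈ Finset.range K, c k * (((2 * r : ℝ) : ℂ) * z) ^ k := by
      rw [hp, Polynomial.eval_finsetSum]
      refine Finset.sum_congr rfl fun k _ => ?_
      rw [Polynomial.eval_mul, Polynomial.eval_C, Polynomial.eval_pow, Polynomial.eval_X,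
        mul_pow]
      ring
    have hnorm : ∀ k, ‖c (k + K) * (((2 * r : ℝ) : ℂ) * z) ^ (k + K)‖ =
        ‖c (k + K) * ((2 * r : ℝ) : ℂ) ^ (k + K)‖ := by
      intro k
      rw [norm_mul, norm_mul, norm_pow, norm_pow, norm_mul, hz, mul_one]
    have h3 : ‖∑' k, c (k + K) * (((2 * r : ℝ) : ℂ) * z) ^ (k + K)‖ ≤
        ∑' k, ‖c (k + K) * ((2 * r : ℝ) : ℂ) ^ (k + K)‖ := by
      have h4 : Summable fun k => ‖c (k + K) * (((2 * r : ℝ) : ℂ) * z) ^ (k + K)‖ := by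
        simp only [hnorm]
        exact (summable_nat_add_iff K).mpr hsn
      refine (norm_tsum_le_tsum_norm h4).trans (le_of_eq ?_)
      exact tsum_congr hnorm
    have h5 : p.eval z = H (((2 * r : ℝ) : ℂ) * z) -
        ∑' k, c (k + K) * (((2 * r : ℝ) : ℂ) * z) ^ (k + K) := by
      rw [h2, ← h1]
      ring
    rw [h5]
    refine (norm_sub_le _ _).trans (add_le_add (hM _ hzb) h3)
  have h := hW p _ heval w hw N x y
  have he : BF (fun k => c k * ((2 * r : ℝ) : ℂ) ^ k) w N x y =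
      ∑ m ∈ Finset.range N, ∑ n ∈ Finset.range (m + 1),
        p.coeff (m - n) * (∏ i ∈ Finset.Ico n m, (w i : ℂ)) * x n * y m := by
    unfold BF
    refine Finset.sum_congr rfl fun m hm => Finset.sum_congr rfl fun n _ => ?_
    rw [Finset.mem_range] at hm
    rw [hcoeff (m - n) (by omega)]
  rw [he]
  exact h

lemma wsa_one (hW : T_WSA) {H : ℂ → ℂ} {M : ℝ} {c : ℕ → ℂ}
    (hs : ∀ z ∈ Metric.ball (0 : ℂ) 2, HasSum (fun k => c k * z ^ k) (H z))
    (hM : ∀ z ∈ Metric.ball (0 : ℂ) 2, ‖H z‖ ≤ M) (w : ℕ → ℝ) (hw : ∀ n, |w n| ≤ 1)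
    (N : ℕ) (x y : ℕ → ℂ) :
    ‖BF (fun k => c k * 2 ^ k) w N x y‖ ≤
      M * √(∑ n ∈ Finset.range N, ‖x n‖ ^ 2) * √(∑ n ∈ Finset.range N, ‖y n‖ ^ 2) := by
  have hcont : Continuous fun r : ℝ => ‖BF (fun k => c k * ((2 * r : ℝ) : ℂ) ^ k) w N x y‖ := by
    unfold BF
    refine continuous_norm.comp ?_
    refine continuous_finsetSum _ fun m _ => continuous_finsetSum _ fun n _ => ?_
    have h1 : Continuous fun r : ℝ => ((2 * r : ℝ) : ℂ) ^ (m - n) :=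
      (Complex.continuous_ofReal.comp (continuous_const.mul continuous_id)).pow _
    exact (((continuous_const.mul h1).mul continuous_const).mul continuous_const).mul
      continuous_const
  have h1 : Tendsto (fun r : ℝ => ‖BF (fun k => c k * ((2 * r : ℝ) : ℂ) ^ k) w N x y‖)
      (𝓝[<] 1) (𝓝 ‖BF (fun k => c k * ((2 * (1 : ℝ) : ℝ) : ℂ) ^ k) w N x y‖) :=
    (hcont.tendsto 1).mono_left nhdsWithin_le_nhds
  have h2 : ‖BF (fun k => c k * ((2 * (1 : ℝ) : ℝ) : ℂ) ^ k) w N x y‖ ≤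
      M * √(∑ n ∈ Finset.range N, ‖x n‖ ^ 2) * √(∑ n ∈ Finset.range N, ‖y n‖ ^ 2) := by
    refine le_of_tendsto h1 ?_
    have h3 : Set.Ioo (0 : ℝ) 1 ∈ 𝓝[<] (1 : ℝ) := Ioo_mem_nhdsLT one_pos
    filter_upwards [h3] with r hr
    exact wsa_r hW hs hM w hw N x y r hr.1 hr.2
  have h4 : (fun k => c k * ((2 * (1 : ℝ) : ℝ) : ℂ) ^ k) = fun k => c k * 2 ^ k := by
    funext k
    rw [mul_one]
    norm_num
  rw [h4] at h2
  exact h2

lemma prod_w {b : ℕ → ℝ} (hb : ∀ n, 1 ≤ b n) (n : ℕ) : ∀ m, n ≤ m →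
    (2 : ℝ) ^ (m - n) * ∏ i ∈ Finset.Ico n m, (b (i + 1) / (2 * b i)) = b m / b n := by
  intro m hm
  have hne : ∀ i, b i ≠ 0 := fun i => (lt_of_lt_of_le one_pos (hb i)).ne'
  induction m, hm using Nat.le_induction with
  | base => simp [hne n]
  | succ m hm ih =>
    rw [Finset.prod_Ico_succ_top hm, Nat.succ_sub hm, pow_succ]
    have h1 : (2 : ℝ) ^ (m - n) * 2 * ((∏ i ∈ Finset.Ico n m, (b (i + 1) / (2 * b i))) *
        (b (m + 1) / (2 * b m))) = ((2 : ℝ) ^ (m - n) *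
          ∏ i ∈ Finset.Ico n m, (b (i + 1) / (2 * b i))) * (b (m + 1) / b m) := by
      have := hne m
      field_simp
    rw [h1, ih]
    have := hne m
    have := hne n
    field_simp

/-- the sequence of the product -/
noncomputable def gg (b : ℕ → ℝ) (c : ℕ → ℂ) (f : ℕ → ℂ) (m : ℕ) : ℂ :=
  (b m : ℂ) * ∑ n ∈ Finset.range (m + 1), c (m - n) * (f n / (b n : ℂ))

lemma gg_bound (hW : T_WSA) {b : ℕ → ℝ} (hb : ∀ n, 1 ≤ b n) (hb2 : ∀ n, b (n + 1) ≤ 2 * b n)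
    {H : ℂ → ℂ} {M : ℝ} {c : ℕ → ℂ}
    (hs : ∀ z ∈ Metric.ball (0 : ℂ) 2, HasSum (fun k => c k * z ^ k) (H z))
    (hM : ∀ z ∈ Metric.ball (0 : ℂ) 2, ‖H z‖ ≤ M) (f : ℕ → ℂ) (N : ℕ) :
    ∑ m ∈ Finset.range N, ‖gg b c f m‖ ^ 2 ≤ M ^ 2 * ∑ n ∈ Finset.range N, ‖f n‖ ^ 2 := by
  have hM0 : 0 ≤ M := (norm_nonneg _).trans (hM 0 (Metric.mem_ball_self two_pos))
  have hpos : ∀ n, 0 < b n := fun n => by linarith [hb n]
  set w : ℕ → ℝ := fun i => b (i + 1) / (2 * b i) with hw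
  have hw1 : ∀ n, |w n| ≤ 1 := by
    intro n
    have h1 : 0 ≤ b (n + 1) / (2 * b n) := by
      have := hpos n
      have := hpos (n + 1)
      positivity
    rw [hw, abs_of_nonneg h1, div_le_one (by have := hpos n; positivity)]
    exact hb2 n
  have h := wsa_one hW hs hM w hw1 N f (fun m => (starRingEnd ℂ) (gg b c f m))
  set S := ∑ m ∈ Finset.range N, ‖gg b c f m‖ ^ 2 with hS
  have hS0 : 0 ≤ S := Finset.sum_nonneg fun m _ => sq_nonneg _
  have he : BF (fun k => c k * 2 ^ k) w N f (fun m => (starRingEnd ℂ) (gg b c f m)) =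
      (S : ℂ) := by
    unfold BF
    rw [hS]
    push_cast
    refine Finset.sum_congr rfl fun m _ => ?_
    rw [← Complex.mul_conj', ← Finset.sum_mul]
    congr 1
    unfold gg
    rw [Finset.mul_sum]
    refine Finset.sum_congr rfl fun n hn => ?_
    rw [Finset.mem_range] at hn
    have h1 := prod_w hb n m (by omega)
    have h2 : ((2 : ℂ) ^ (m - n) * ∏ i ∈ Finset.Ico n m, ((w i : ℝ) : ℂ)) =
        (b m : ℂ) / (b n : ℂ) := by
      have h3 := congrArg (fun t : ℝ => (t : ℂ)) h1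
      push_cast at h3
      rw [hw]
      push_cast
      exact h3
    calc c (m - n) * 2 ^ (m - n) * (∏ i ∈ Finset.Ico n m, ((w i : ℝ) : ℂ)) * f n
        = c (m - n) * (2 ^ (m - n) * ∏ i ∈ Finset.Ico n m, ((w i : ℝ) : ℂ)) * f n := by ring
      _ = (b m : ℂ) * (c (m - n) * (f n / (b n : ℂ))) := by
        rw [h2]
        ring
  rw [he, Complex.norm_real, Real.norm_of_nonneg hS0] at h
  have hstar : ∑ n ∈ Finset.range N, ‖(starRingEnd ℂ) (gg b c f n)‖ ^ 2 = S := by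
    rw [hS]
    refine Finset.sum_congr rfl fun m _ => ?_
    rw [RCLike.norm_conj]
  rw [hstar] at h
  set F := ∑ n ∈ Finset.range N, ‖f n‖ ^ 2 with hF
  have hF0 : 0 ≤ F := Finset.sum_nonneg fun m _ => sq_nonneg _
  have hs1 : √S * √S = S := Real.mul_self_sqrt hS0
  have hf1 : √F * √F = F := Real.mul_self_sqrt hF0
  have hle : √S ≤ M * √F := by
    rcases (Real.sqrt_nonneg S).eq_or_lt with h0 | h0
    · rw [← h0]
      positivity
    · refine le_of_mul_le_mul_right ?_ h0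
      rw [hs1]
      exact h
  calc S = √S * √S := hs1.symm
    _ ≤ (M * √F) * (M * √F) :=
        mul_le_mul hle hle (Real.sqrt_nonneg _) (by positivity)
    _ = M ^ 2 * F := by
        rw [mul_mul_mul_comm, hf1]
        ring

end MLA_

/-- The target `T_MLA`. -/
theorem p_MLA (h1 : T_WSA) : T_MLA := by
  intro b hb hb2 H M hH hM B hBW f
  obtain ⟨c, hs⟩ := MLA_.coeffs hH
  have hM0 : 0 ≤ M := (norm_nonneg _).trans (hM 0 (Metric.mem_ball_self two_pos))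
  have hpos : ∀ n, 0 < b n := fun n => by linarith [hb n]
  have h2 : (0 : ℝ) < (2 : ENNReal).toReal := by norm_num
  have hbd : ∀ s : Finset ℕ, ∑ m ∈ s, ‖MLA_.gg b c f m‖ ^ (2 : ENNReal).toReal ≤
      (M * ‖f‖) ^ (2 : ENNReal).toReal := by
    intro s
    have hN : ∃ N, s ⊆ Finset.range N := by
      refine ⟨s.sup id + 1, fun m hm => ?_⟩
      rw [Finset.mem_range]
      have : m ≤ s.sup id := Finset.le_sup (f := id) hm
      omega
    obtain ⟨N, hN⟩ := hN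
    have e2 : (2 : ENNReal).toReal = ((2 : ℕ) : ℝ) := by norm_num
    have h3 := MLA_.gg_bound h1 hb hb2 hs hM f N
    have h4 := lp.sum_rpow_le_norm_rpow h2 f (Finset.range N)
    rw [e2] at h4 ⊢
    simp only [Real.rpow_natCast] at h4 ⊢
    calc ∑ m ∈ s, ‖MLA_.gg b c f m‖ ^ 2 ≤ ∑ m ∈ Finset.range N, ‖MLA_.gg b c f m‖ ^ 2 :=
          Finset.sum_le_sum_of_subset_of_nonneg hN fun _ _ _ => sq_nonneg _
      _ ≤ M ^ 2 * ∑ n ∈ Finset.range N, ‖f n‖ ^ 2 := h3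
      _ ≤ M ^ 2 * ‖f‖ ^ 2 := mul_le_mul_of_nonneg_left h4 (sq_nonneg _)
      _ = (M * ‖f‖) ^ 2 := by ring
  have hmem : Memℓp (MLA_.gg b c f) 2 := memℓp_gen' hbd
  let x : L2 := ⟨MLA_.gg b c f, hmem⟩
  have hx : ∀ m, x m = MLA_.gg b c f m := fun m => rfl
  refine ⟨x, ?_, lp.norm_le_of_forall_sum_le h2 (by positivity) fun s => hbd s⟩
  intro w hw
  have hw0 : ‖w 0‖ < 1 := by
    rw [mem_ball_zero_iff] at hw
    exact (norm_le_pi_norm w 0).trans_lt hw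
  have hwb : w 0 ∈ Metric.ball (0 : ℂ) 2 := by
    rw [mem_ball_zero_iff]
    linarith
  have hf := hBW.fn f w hw
  have hxs := hBW.fn x w hw
  have hHs := hs (w 0) hwb
  rw [← hxs.tsum_eq, ← hf.tsum_eq, ← hHs.tsum_eq, mul_comm,
    tsum_mul_tsum_eq_tsum_sum_range_of_summable_norm hf.summable.norm hHs.summable.norm]
  refine tsum_congr fun m => ?_
  rw [hx]
  unfold MLA_.gg
  have hbm : (b m : ℂ) ≠ 0 := by exact_mod_cast (hpos m).ne'
  rw [mul_div_cancel_left₀ _ hbm, Finset.sum_mul]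
  refine Finset.sum_congr rfl fun n hn => ?_
  rw [Finset.mem_range] at hn
  have h5 : (w 0) ^ m = (w 0) ^ n * (w 0) ^ (m - n) := by
    rw [← pow_add]
    congr 1
    omega
  rw [h5]
  ring

end Pool.Agent.CPW
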