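import Pool.Agent.CPW.Targets

set_option autoImplicit false

/-!
# CPW: NCY, the image of a cyclic function is not cyclic
-/

namespace Pool.Agent.CPW

open Polynomial Filter Topology
open Pool.Agent.CycP

namespace NCY_

/-- the Taylor series of an element of the weighted space -/
noncomputable def tay (b : ℕ → ℝ) (f : L2) : PowerSeries ℂ :=
  PowerSeries.mk fun n => f n / (b n : ℂ)

theorem bne {b : ℕ → ℝ} (hb : ∀ n, 1 ≤ b n) (n : ℕ) : (b n : ℂ) ≠ 0 := by
  have h : b n ≠ 0 := by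
    have := hb n
    linarith
  exact_mod_cast h

theorem orb {b : ℕ → ℝ} (hb : ∀ n, 1 ≤ b n) {B : AnSpace 1 (Metric.ball 0 1) L2} (hB : IsW b B)
    (f : L2) (P : MvPolynomial (Fin 1) ℂ) :
    ∃ (p : ℂ[X]) (z : L2),
      (∀ w ∈ Metric.ball (0 : Fin 1 → ℂ) 1, B.fn z w = MvPolynomial.eval w P * B.fn f w) ∧
      ∀ n, z n = (b n : ℂ) * PowerSeries.coeff n (tay b f * (p : PowerSeries ℂ)) := by
  induction P using MvPolynomial.induction_on with
  | C c =>
    refine ⟨Polynomial.C c, c • f, fun w _ => ?_, fun n => ?_⟩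
    · rw [map_smul, Pi.smul_apply, MvPolynomial.eval_C, smul_eq_mul]
    · rw [Polynomial.coe_C, PowerSeries.coeff_mul_C, tay, PowerSeries.coeff_mk, lp.coeFn_smul,
        Pi.smul_apply, smul_eq_mul]
      have := bne hb n
      field_simp
  | add P Q hP hQ =>
    obtain ⟨p, z, h1, h2⟩ := hP
    obtain ⟨q, y, h3, h4⟩ := hQ
    refine ⟨p + q, z + y, fun w hw => ?_, fun n => ?_⟩
    · rw [map_add, Pi.add_apply, h1 w hw, h3 w hw, map_add]
      ring
    · rw [lp.coeFn_add, Pi.add_apply, h2, h4, Polynomial.coe_add, mul_add, map_add]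
      ring
  | mul_X P i hP =>
    obtain ⟨p, z, h1, h2⟩ := hP
    refine ⟨p * Polynomial.X, B.shift 0 z, fun w hw => ?_, fun n => ?_⟩
    · have hi : i = 0 := Subsingleton.elim _ _
      subst hi
      rw [B.fn_shift 0 z w hw, h1 w hw, map_mul, MvPolynomial.eval_X]
      ring
    · rw [Polynomial.coe_mul, Polynomial.coe_X, ← mul_assoc]
      rcases n with _ | n
      · rw [(hB.shift z 0).1, PowerSeries.coeff_zero_mul_X, mul_zero]
      · rw [(hB.shift z n).2, PowerSeries.coeff_succ_mul_X, h2]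
        have := bne hb n
        field_simp

theorem e0 (m : ℕ) : ((0 : Fin 1 →₀ ℕ) = Finsupp.single 0 m) ↔ m = 0 := by
  rw [eq_comm, Finsupp.single_eq_zero]

theorem e1 (m : ℕ) : (Finsupp.single (0 : Fin 1) 1 = Finsupp.single 0 m) ↔ 1 = m :=
  (Finsupp.single_injective (0 : Fin 1)).eq_iff

theorem val {b : ℕ → ℝ} {Φ : PowerSeries ℂ} {A : AnSpace 1 (Metric.ball 0 1) L2}
    {T : L2 →L[ℂ] L2} (hA : IsW (fun _ => 1) A) (hT : IsT b Φ T) (n : ℕ) :
    (T (A.poly (1 - MvPolynomial.C (1 / 2) * MvPolynomial.X 0)) : L2) n =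
      (b n : ℂ) * PowerSeries.coeff n (1 - Φ) := by
  set f0 : L2 := A.poly (1 - MvPolynomial.C (1 / 2) * MvPolynomial.X 0) with hf0
  have hc : ∀ m, f0 m = if m = 0 then 1 else if m = 1 then -(1 / 2) else 0 := by
    intro m
    rw [hf0, hA.poly]
    rw [MvPolynomial.coeff_sub, MvPolynomial.coeff_one, MvPolynomial.coeff_C_mul,
      MvPolynomial.coeff_X']
    simp only [e0, e1]
    rcases m with _ | _ | m
    · simp
    · simp
    · simp
  have h1 := hT.hasSum f0 n
  have h2 : HasSum (fun m => f0 m * ((b n : ℂ) * PowerSeries.coeff n ((2 * Φ) ^ m)))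
      (∑ m ∈ Finset.range 2, f0 m * ((b n : ℂ) * PowerSeries.coeff n ((2 * Φ) ^ m))) := by
    refine hasSum_sum_of_ne_finset_zero fun m hm => ?_
    have h3 : f0 m = 0 := by
      rw [hc]
      have h4 : 2 ≤ m := not_lt.1 fun h => hm (Finset.mem_range.2 h)
      rw [if_neg (by omega), if_neg (by omega)]
    rw [h3, zero_mul]
  rw [h1.unique h2, Finset.sum_range_succ, Finset.sum_range_one, hc, hc]
  have h5 : PowerSeries.coeff n (2 * Φ) = 2 * PowerSeries.coeff n Φ := by
    rw [two_mul, map_add, two_mul]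
  rw [pow_zero, pow_one, h5, map_sub, if_pos rfl, if_neg one_ne_zero, if_pos rfl]
  ring

end NCY_

open NCY_ in
/-- NCY -/
theorem p_NCY : T_NCY := by
  intro b Φ A B T hb hA hB hT hp hcyc
  set f := T (A.poly (1 - MvPolynomial.C (1 / 2) * MvPolynomial.X 0)) with hf
  have hmem : B.poly 1 ∈ closure (B.orbit f) := by
    rw [hcyc]
    exact Set.mem_univ _
  obtain ⟨y, ⟨P, hP⟩, hd⟩ := Metric.mem_closure_iff.1 hmem (1 / 1000) (by norm_num)
  obtain ⟨p, z, hz1, hz2⟩ := orb hb hB f P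
  have hyz : y = z := by
    rw [← sub_eq_zero]
    refine B.fn_inj _ fun w hw => ?_
    rw [map_sub, Pi.sub_apply, hP w hw, hz1 w hw, sub_self]
  have ht : tay b f = 1 - Φ := by
    ext n
    rw [tay, PowerSeries.coeff_mk, hf, val hA hT n]
    have := bne hb n
    field_simp
  obtain ⟨n, hn⟩ := hp p
  have h1 : (B.poly 1 - y : L2) n =
      PowerSeries.coeff n (1 - (1 - Φ) * (p : PowerSeries ℂ)) * (b n : ℂ) := by
    rw [lp.coeFn_sub, Pi.sub_apply, hyz, hz2, ht, hB.poly, map_sub, MvPolynomial.coeff_one,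
      PowerSeries.coeff_one]
    simp only [e0]
    ring
  have h2 : ‖(B.poly 1 - y : L2) n‖ ≤ ‖B.poly 1 - y‖ :=
    lp.norm_apply_le_norm (by norm_num) (B.poly 1 - y) n
  rw [h1, norm_mul, Complex.norm_real, Real.norm_of_nonneg (by linarith [hb n])] at h2
  rw [dist_eq_norm] at hd
  linarith

end Pool.Agent.CPW
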