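import Pool.Agent.CPW.Targets

set_option autoImplicit false

/-!
# CPW, target NNC: calculus of the weighted `ℓ¹` norms of polynomials
-/

namespace Pool.Agent.CPW

open Polynomial

namespace NNC_

theorem nn_eq (w : ℕ → ℕ) (u : ℝ[X]) (S : Finset ℕ) (h : u.support ⊆ S) :
    NN w u = ∑ n ∈ S, |u.coeff n| * 2 ^ w n := by
  unfold NN
  refine Finset.sum_subset h fun n _ hn => ?_
  rw [notMem_support_iff.1 hn, abs_zero, zero_mul]

theorem nn_nonneg (w : ℕ → ℕ) (u : ℝ[X]) : 0 ≤ NN w u :=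
  Finset.sum_nonneg fun n _ => by positivity

theorem nn_add (w : ℕ → ℕ) (u v : ℝ[X]) : NN w (u + v) ≤ NN w u + NN w v := by
  rw [nn_eq w (u + v) (u.support ∪ v.support) support_add,
    nn_eq w u (u.support ∪ v.support) Finset.subset_union_left,
    nn_eq w v (u.support ∪ v.support) Finset.subset_union_right, ← Finset.sum_add_distrib]
  refine Finset.sum_le_sum fun n _ => ?_
  rw [← add_mul, coeff_add]
  exact mul_le_mul_of_nonneg_right (abs_add_le _ _) (by positivity)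

theorem nn_neg (w : ℕ → ℕ) (u : ℝ[X]) : NN w (-u) = NN w u := by
  unfold NN
  rw [support_neg]
  refine Finset.sum_congr rfl fun n _ => ?_
  rw [coeff_neg, abs_neg]

theorem nn_sub (w : ℕ → ℕ) (u v : ℝ[X]) : NN w (u - v) ≤ NN w u + NN w v := by
  rw [sub_eq_add_neg]
  exact (nn_add w u (-v)).trans (by rw [nn_neg])

theorem nn_zero (w : ℕ → ℕ) : NN w 0 = 0 := by
  unfold NN
  rw [support_zero, Finset.sum_empty]

theorem nn_sum (w : ℕ → ℕ) (I : Finset ℕ) (u : ℕ → ℝ[X]) :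
    NN w (∑ i ∈ I, u i) ≤ ∑ i ∈ I, NN w (u i) := by
  classical
  induction I using Finset.induction_on with
  | empty => rw [Finset.sum_empty, Finset.sum_empty, nn_zero]
  | insert i I hi ih =>
    rw [Finset.sum_insert hi, Finset.sum_insert hi]
    exact (nn_add w _ _).trans (add_le_add le_rfl ih)

theorem nn_C_mul (w : ℕ → ℕ) (c : ℝ) (u : ℝ[X]) : NN w (C c * u) = |c| * NN w u := by
  have h : (C c * u).support ⊆ u.support := by
    intro n hn
    rw [mem_support_iff, coeff_C_mul] at hn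
    exact mem_support_iff.2 (right_ne_zero_of_mul hn)
  rw [nn_eq w (C c * u) u.support h, NN, Finset.mul_sum]
  refine Finset.sum_congr rfl fun n _ => ?_
  rw [coeff_C_mul, abs_mul, mul_assoc]

theorem nn_nat_mul (w : ℕ → ℕ) (c : ℕ) (u : ℝ[X]) : NN w ((c : ℝ[X]) * u) = c * NN w u := by
  have h : ((c : ℕ) : ℝ[X]) = C (c : ℝ) := (C_eq_natCast c).symm
  rw [h, nn_C_mul, Nat.abs_cast]

theorem nn_X_mul (w : ℕ → ℕ) (g : ℕ) (u : ℝ[X]) :
    NN w (X ^ g * u) = NN (fun n => w (g + n)) u := by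
  have h : (X ^ g * u).support ⊆ u.support.map (addLeftEmbedding g) := by
    intro n hn
    rw [mem_support_iff, coeff_X_pow_mul'] at hn
    by_cases hg : g ≤ n
    · rw [if_pos hg] at hn
      rw [Finset.mem_map]
      exact ⟨n - g, mem_support_iff.2 hn, by
        simp only [addLeftEmbedding_apply]
        omega⟩
    · rw [if_neg hg] at hn
      exact absurd rfl hn
  rw [nn_eq w _ _ h, Finset.sum_map, NN]
  refine Finset.sum_congr rfl fun n _ => ?_
  simp only [addLeftEmbedding_apply]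
  rw [coeff_X_pow_mul', if_pos (Nat.le_add_right g n), Nat.add_sub_cancel_left]

theorem nn_mul (u v : ℝ[X]) :
    NN (fun _ => 0) (u * v) ≤ NN (fun _ => 0) u * NN (fun _ => 0) v := by
  have e : u * v = ∑ i ∈ u.support, C (u.coeff i) * (X ^ i * v) := by
    conv_lhs => rw [as_sum_support_C_mul_X_pow u]
    rw [Finset.sum_mul]
    refine Finset.sum_congr rfl fun i _ => ?_
    rw [mul_assoc]
  rw [e]
  refine (nn_sum _ _ _).trans (le_of_eq ?_)
  rw [NN, Finset.sum_mul]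
  refine Finset.sum_congr rfl fun i _ => ?_
  rw [nn_C_mul, nn_X_mul, pow_zero, mul_one]

theorem nn_one (w : ℕ → ℕ) : NN w 1 = 2 ^ w 0 := by
  have h : (1 : ℝ[X]).support ⊆ {0} := by
    intro n hn
    rw [mem_support_iff, coeff_one] at hn
    by_cases h0 : n = 0
    · rw [h0]
      exact Finset.mem_singleton_self 0
    · rw [if_neg h0] at hn
      exact absurd rfl hn
  rw [nn_eq w 1 {0} h, Finset.sum_singleton, coeff_one_zero, abs_one, one_mul]

theorem nn_pow (u : ℝ[X]) (m : ℕ) : NN (fun _ => 0) (u ^ m) ≤ NN (fun _ => 0) u ^ m := by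
  induction m with
  | zero => rw [pow_zero, pow_zero, nn_one, pow_zero]
  | succ m ih =>
    rw [pow_succ, pow_succ]
    exact (nn_mul _ _).trans (mul_le_mul_of_nonneg_right ih (nn_nonneg _ _))

theorem nn_le (w w' : ℕ → ℕ) (c : ℕ) (u : ℝ[X])
    (h : ∀ n, u.coeff n ≠ 0 → w n ≤ w' n + c) : NN w u ≤ 2 ^ c * NN w' u := by
  rw [NN, NN, Finset.mul_sum]
  refine Finset.sum_le_sum fun n hn => ?_
  have h1 := h n (mem_support_iff.1 hn)
  have h2 : (2 : ℝ) ^ w n ≤ 2 ^ (w' n + c) := pow_le_pow_right₀ (by norm_num) h1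
  calc |u.coeff n| * 2 ^ w n ≤ |u.coeff n| * 2 ^ (w' n + c) :=
        mul_le_mul_of_nonneg_left h2 (abs_nonneg _)
    _ = _ := by rw [pow_add]; ring

theorem nn_le_add (w w' : ℕ → ℕ) (c : ℕ) (u : ℝ[X])
    (h : ∀ n, u.coeff n ≠ 0 → w n ≤ w' n ∨ w n ≤ c) :
    NN w u ≤ NN w' u + 2 ^ c * NN (fun _ => 0) u := by
  rw [NN, NN, NN, Finset.mul_sum, ← Finset.sum_add_distrib]
  refine Finset.sum_le_sum fun n hn => ?_
  have ha := abs_nonneg (u.coeff n)
  rw [pow_zero, mul_one]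
  rcases h n (mem_support_iff.1 hn) with h1 | h1
  · have h2 : (2 : ℝ) ^ w n ≤ 2 ^ w' n := pow_le_pow_right₀ (by norm_num) h1
    have h3 := mul_le_mul_of_nonneg_left h2 ha
    have h4 : 0 ≤ 2 ^ c * |u.coeff n| := by positivity
    linarith
  · have h2 : (2 : ℝ) ^ w n ≤ 2 ^ c := pow_le_pow_right₀ (by norm_num) h1
    have h3 := mul_le_mul_of_nonneg_left h2 ha
    have h4 : 0 ≤ |u.coeff n| * 2 ^ w' n := by positivity
    linarith

theorem nn_diff (P D : ℝ[X]) (q : ℝ) (h1 : NN (fun _ => 0) P ≤ q)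
    (h2 : NN (fun _ => 0) (P + D) ≤ q) (m : ℕ) :
    NN (fun _ => 0) ((P + D) ^ (m + 1) - P ^ (m + 1)) ≤ (m + 1) * NN (fun _ => 0) D * q ^ m := by
  have hq : 0 ≤ q := (nn_nonneg _ _).trans h1
  have hD := nn_nonneg (fun _ => 0) D
  induction m with
  | zero =>
    have e : (P + D) ^ (0 + 1) - P ^ (0 + 1) = D := by ring
    rw [e]
    simp
  | succ m ih =>
    have e : (P + D) ^ (m + 1 + 1) - P ^ (m + 1 + 1) =
        (P + D) * ((P + D) ^ (m + 1) - P ^ (m + 1)) + D * P ^ (m + 1) := by ring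
    rw [e]
    have e1 : NN (fun _ => 0) ((P + D) * ((P + D) ^ (m + 1) - P ^ (m + 1))) ≤
        q * ((m + 1) * NN (fun _ => 0) D * q ^ m) :=
      (nn_mul _ _).trans (mul_le_mul h2 ih (nn_nonneg _ _) hq)
    have e2 : NN (fun _ => 0) (D * P ^ (m + 1)) ≤ NN (fun _ => 0) D * q ^ (m + 1) :=
      (nn_mul _ _).trans (mul_le_mul_of_nonneg_left
        ((nn_pow _ _).trans (pow_le_pow_left₀ (nn_nonneg _ _) h1 _)) hD)
    refine (nn_add _ _ _).trans ((add_le_add e1 e2).trans (le_of_eq ?_))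
    push_cast
    ring

end NNC_

open NNC_ in
/-- **NNC** -/
theorem p_NNC : T_NNC :=
  ⟨nn_eq, nn_add, nn_sub, nn_sum, nn_C_mul, nn_nat_mul, nn_X_mul, nn_mul, nn_pow, nn_le,
    nn_le_add, nn_nonneg, nn_one, fun P D q m h1 h2 => nn_diff P D q h1 h2 m⟩

end Pool.Agent.CPW
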