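import Pool.Agent.CPW.Targets

set_option autoImplicit false

/-!
# CPW, NRM: the norms of the powers of the polynomials `P K`
-/

namespace Pool.Agent.CPW

open Polynomial

namespace NRM_

theorem pow_ge {a b : ℝ} (ha : 0 ≤ a) (hb : 0 ≤ b) (n : ℕ) :
    a ^ (n + 1) + (n + 1) * b * a ^ n ≤ (a + b) ^ (n + 1) := by
  induction n with
  | zero => simp
  | succ n ih =>
    have h1 : (a + b) ^ (n + 1 + 1) = (a + b) ^ (n + 1) * (a + b) := pow_succ _ _
    have h2 : (a ^ (n + 1) + (n + 1) * b * a ^ n) * (a + b) ≤ (a + b) ^ (n + 1) * (a + b) :=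
      mul_le_mul_of_nonneg_right ih (by positivity)
    have h3 : 0 ≤ (n + 1) * b * a ^ n * b := by positivity
    rw [h1]
    refine le_trans ?_ h2
    push_cast
    have h4 : (a ^ (n + 1) + (n + 1) * b * a ^ n) * (a + b) =
        a ^ (n + 1 + 1) + ((n : ℝ) + 1 + 1) * b * a ^ (n + 1) + (n + 1) * b * a ^ n * b := by
      ring
    rw [h4]
    linarith

/-- The bound of the induction. -/
noncomputable def QQ (K : ℕ) : ℝ := 3 / 16 - 1 / 16 * (1 / 2) ^ K

theorem QQ_ge (K : ℕ) : 1 / 8 ≤ QQ K := by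
  unfold QQ
  have : (1 / 2 : ℝ) ^ K ≤ 1 := pow_le_one₀ (by norm_num) (by norm_num)
  linarith

theorem QQ_le (K : ℕ) : QQ K ≤ 1 / 4 := by
  unfold QQ
  have : (0 : ℝ) ≤ (1 / 2 : ℝ) ^ K := by positivity
  linarith

theorem QQ_succ (K : ℕ) : QQ (K + 1) = QQ K + 4 * (1 / 2) ^ (K + 7) := by
  unfold QQ
  ring

end NRM_

open NRM_ in
theorem p_NRM (h1 : T_XFA) (h2 : T_BBA) (h3 : T_BBB) (h4 : T_ALG) (h5 : T_NNC) (h6 : T_PKF)
    (h7 : T_STA) (h8 : T_STB) (h9 : T_STC) (h10 : T_STD) : T_NRM := by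
  intro s hs
  obtain ⟨-, nadd, -, -, -, nnat, -, -, npow, -, -, nnn, none', -⟩ := h5
  obtain ⟨xz, -, -, xx, -, -, -, -, -, -, -⟩ := h1 s hs
  obtain ⟨ba, -⟩ := h2 s hs
  obtain ⟨b0, -⟩ := h3 s hs
  have main : ∀ K m, NN (bK s K) ((PK s K) ^ m) ≤ (QQ K) ^ m := by
    intro K
    induction K with
    | zero =>
      intro m
      have e1 : bK s 0 = fun _ => 0 := by
        funext n
        simp [bK]
      rw [e1]
      refine (npow _ m).trans ?_
      exact pow_le_pow_left₀ (nnn _ _) (((h6 s hs 0).1).trans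
        (le_trans (by norm_num) (QQ_ge 0))) m
    | succ K ih =>
      intro m
      have hQ := QQ_ge K
      have hQ0 : 0 ≤ QQ K := by linarith
      cases m with
      | zero =>
        have e1 : bK s (K + 1) 0 = 0 := by
          rw [ba (K + 1) 0 (by have := (xz (K + 1)).1; omega), b0]
        rw [pow_zero, none', e1]
        simp
      | succ m =>
        obtain ⟨-, -, -, -, hP, -, -⟩ := h6 s hs K
        have hxK := xx K K (by omega)
        have hzK := (xz K).2.2.1
        have hzK2 := (xz K).1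
        obtain ⟨S, hS⟩ := h4.2 (PK s K) (a s (2 * K + 1)) (a s (2 * K + 2)) (s.g K)
          (2 * s.g K - x s K) (by omega) (by omega) m
        rw [← hP] at hS
        have t1 := h7 s hs K (QQ K) hQ ih (m + 1)
        have t2 := h8 s hs K (QQ K) hQ ih m
        have t3 := h9 s hs K m
        have t4 := h10 s hs K m S hS
        rw [Nat.add_sub_cancel] at t1
        set ε : ℝ := (1 / 2) ^ (K + 7) with hε
        have hε0 : 0 ≤ ε := by positivity
        have t2' : NN (bK s (K + 1)) ((m + 1 : ℝ[X]) * (C (a s (2 * K + 1)) * X ^ s.g K) *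
            (PK s K) ^ m) ≤ (m + 1) * (9 / 8 * ε * QQ K ^ m) := by
          have e1 : (m + 1 : ℝ[X]) * (C (a s (2 * K + 1)) * X ^ s.g K) * (PK s K) ^ m =
              ((m + 1 : ℕ) : ℝ[X]) * (C (a s (2 * K + 1)) * X ^ s.g K * (PK s K) ^ m) := by
            push_cast
            ring
          rw [e1, nnat]
          push_cast
          exact mul_le_mul_of_nonneg_left t2 (by positivity)
        have h8m : (1 / 8 : ℝ) ^ m ≤ QQ K ^ m := pow_le_pow_left₀ (by norm_num) hQ m
        have t3' : 3 / 2 * ((m : ℝ) + 1) * ε * (1 / 8) ^ m ≤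
            3 / 2 * ((m : ℝ) + 1) * ε * QQ K ^ m :=
          mul_le_mul_of_nonneg_left h8m (by positivity)
        have t4' : 1 / 4 * ((m : ℝ) + 1) * ε * (1 / 8) ^ m ≤
            1 / 4 * ((m : ℝ) + 1) * ε * QQ K ^ m :=
          mul_le_mul_of_nonneg_left h8m (by positivity)
        have hsum : NN (bK s (K + 1)) ((PK s (K + 1)) ^ (m + 1)) ≤
            (QQ K ^ (m + 1) + ε * QQ K ^ m) + (m + 1) * (9 / 8 * ε * QQ K ^ m) +
              3 / 2 * ((m : ℝ) + 1) * ε * QQ K ^ m + 1 / 4 * ((m : ℝ) + 1) * ε * QQ K ^ m := by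
          rw [hS]
          refine (nadd _ _ _).trans (add_le_add ?_ (t4.trans t4'))
          refine (nadd _ _ _).trans (add_le_add ?_ (t3.trans t3'))
          exact (nadd _ _ _).trans (add_le_add t1 t2')
        refine hsum.trans ?_
        rw [QQ_succ]
        refine le_trans ?_ (pow_ge hQ0 (by positivity : (0 : ℝ) ≤ 4 * (1 / 2) ^ (K + 7)) m)
        rw [← hε]
        have hm : 0 ≤ (m : ℝ) * (ε * QQ K ^ m) := by positivity
        have he : 0 ≤ ε * QQ K ^ m := by positivity
        nlinarith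
  intro K m
  exact (main K m).trans (pow_le_pow_left₀ (by have := QQ_ge K; linarith) (QQ_le K) m)

end Pool.Agent.CPW
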