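import Pool.Agent.CPW.Targets

set_option autoImplicit false

/-!
# CPW, target PKF: the polynomials PK
-/

namespace Pool.Agent.CPW

open Polynomial Filter Topology
open Pool.Agent.CycP

namespace PKF_

theorem mono (h2 : T_NNC) (c : ℝ) (n : ℕ) : NN (fun _ => 0) (C c * X ^ n) = |c| := by
  obtain ⟨-, -, -, -, hC, -, hX, -, -, -, -, -, h1, -⟩ := h2
  have e : (C c * X ^ n : ℝ[X]) = X ^ n * (C c * 1) := by ring
  rw [e, hX, hC, h1]
  simp

end PKF_

open PKF_ in
/-- PKF -/
theorem p_PKF (h1 : T_XFA) (h2 : T_NNC) : T_PKF := by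
  intro s hs K
  have hm := mono h2
  obtain ⟨hZ, -, ⟨-, hx⟩, hxZ, -, -, hal, halZ, ha, -, hsum⟩ := h1 s hs
  obtain ⟨-, -, -, hS, -, -, -, -, -, -, -, -, -, -⟩ := h2
  have hbd : ∀ S : Finset ℕ, NN (fun _ => 0) (∑ l ∈ S, C (a s l) * X ^ x s l) ≤
      ∑ l ∈ S, |a s l| := by
    intro S
    refine (hS _ S _).trans (le_of_eq ?_)
    exact Finset.sum_congr rfl fun l _ => hm _ _
  have hK : K ∈ Finset.range (2 * K + 1) := Finset.mem_range.2 (by omega)
  have hR : RK s K = ∑ l ∈ (Finset.range (2 * K + 1)).erase K, C (a s l) * X ^ x s l := by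
    unfold RK PK
    rw [Finset.sum_erase_eq_sub hK]
  refine ⟨(hbd _).trans (hsum K), ?_, ?_, ?_, ?_, ?_, ?_⟩
  · rw [hR]
    refine le_trans ?_ (hsum K)
    rw [← Finset.add_sum_erase _ (fun l => |a s l|) hK]
    exact add_le_add le_rfl (hbd _)
  · intro m n hn
    have hdeg : (PK s K).natDegree ≤ s.Z K := by
      unfold PK
      refine natDegree_sum_le_of_forall_le _ _ fun l hl => ?_
      refine (natDegree_C_mul_X_pow_le _ _).trans ?_
      exact (hxZ K l (by have := Finset.mem_range.1 hl; omega)).2.le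
    calc n ≤ ((PK s K) ^ m).natDegree := le_natDegree_of_ne_zero hn
      _ ≤ m * (PK s K).natDegree := natDegree_pow_le
      _ ≤ m * s.Z K := Nat.mul_le_mul_left m hdeg
  · unfold RK
    ring
  · unfold PK
    have e : 2 * (K + 1) + 1 = 2 * K + 1 + 1 + 1 := by ring
    rw [e, Finset.sum_range_succ, Finset.sum_range_succ, (hx K).1]
    have e2 : 2 * K + 1 + 1 = 2 * K + 2 := by ring
    rw [e2, (hx K).2]
  · rw [(ha (2 * K + 2)).1, (ha K).2.1]
    have q1 := hal K
    have q2 := halZ K K (by omega)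
    refine pow_le_pow_of_le_one (by norm_num) (by norm_num) ?_
    have q3 : Ep s K = s.Z K + K + 10 := rfl
    omega
  · rw [(ha K).2.1]
    positivity

end Pool.Agent.CPW
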