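import Pool.Agent.CPW.Targets

set_option autoImplicit false

/-!
# CPW: one coefficient row (`T_RWW` from `T_XFA`, `T_BBB`, `T_TTT`)
-/

namespace Pool.Agent.CPW

open Polynomial

namespace RWW_

/-- the row `N + g K` -/
theorem row (s : Sq) (hs : Ok s) (h1 : T_XFA) (p : ℂ[X]) (K N : ℕ) (hN : N ≤ s.Z K) :
    cv s p (N + s.g K) = (∑ l ∈ Finset.range (2 * K + 1),
      (a s l : ℂ) * p.coeff (N + s.g K - x s l)) + (a s (2 * K + 1) : ℂ) * p.coeff N := by
  obtain ⟨f1, f2, ⟨-, f3⟩, f4, f5, f6, -, -, -, -, -⟩ := h1 s hs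
  have hg := f1 K
  have hsub : Finset.range (2 * K + 2) ⊆ Finset.range (N + s.g K + 1) := by
    intro l hl
    rw [Finset.mem_range] at hl ⊢
    omega
  unfold cv
  rw [← Finset.sum_subset hsub, Finset.sum_range_succ]
  · congr 1
    · refine Finset.sum_congr rfl fun l hl => ?_
      rw [Finset.mem_range] at hl
      have := f4 K l (by omega)
      rw [if_pos (by omega)]
    · rw [(f3 K).1, if_pos (by omega)]
      congr 2
      omega
  · intro l _ hl
    rw [Finset.mem_range] at hl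
    rw [if_neg]
    rcases Nat.lt_or_ge l (2 * K + 3) with h | h
    · have hl2 : l = 2 * K + 2 := by omega
      subst hl2
      have e1 := (f3 K).2
      have e2 := f4 K K (by omega)
      omega
    · have e1 := f5 (K + 1) l (by omega)
      have e2 := f1 (K + 1)
      have e3 := hs.zs K
      omega

theorem pw {E D : ℕ} {β : ℝ} (h : E ≤ D) (hβ : 0 ≤ β) : β * (1 / 2) ^ D ≤ β * (1 / 2) ^ E :=
  mul_le_mul_of_nonneg_left (pow_le_pow_of_le_one (by norm_num) (by norm_num) h) hβ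

/-- if `y * 2 ^ T ≤ M * 2 ^ j` and `A + j ≤ T` then `y ≤ M * (1/2) ^ A` -/
theorem dv {y M : ℝ} {T j A : ℕ} (hM : 0 ≤ M) (h : y * 2 ^ T ≤ M * 2 ^ j) (hA : A + j ≤ T) :
    y ≤ M * (1 / 2) ^ A := by
  have h2 : (0 : ℝ) < 2 ^ T := by positivity
  refine le_of_mul_le_mul_right (h.trans ?_) h2
  have e : (1 / 2 : ℝ) ^ A * 2 ^ T = 2 ^ (T - A) := by
    obtain ⟨t, rfl⟩ := Nat.exists_eq_add_of_le (show A ≤ T by omega)
    rw [Nat.add_sub_cancel_left, pow_add, ← mul_assoc, ← mul_pow]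
    norm_num
  rw [mul_assoc, e]
  exact mul_le_mul_of_nonneg_left (pow_le_pow_right₀ (by norm_num) (by omega)) hM

end RWW_

open RWW_

theorem p_RWW (h1 : T_XFA) (h2 : T_BBB) (h3 : T_TTT) : T_RWW := by
  intro s hs kap p c M hc hM hkap hrow hpM K N hN
  obtain ⟨f1, f2, ⟨-, f3⟩, f4, f5, f6, f7, f8, f9, ⟨-, f10⟩, f11⟩ := h1 s hs
  obtain ⟨b1, b2, b3, -, b5, b6, b7, b8⟩ := h2 s hs
  have hbb : ∀ n, bb s n ≤ n := by
    intro n
    induction n with
    | zero => omega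
    | succ n ih => have := b2 n; omega
  have hg := f1 K
  set n : ℕ := N + s.g K with hn
  set β : ℝ := (1 / 2) ^ Ep s K * (c + M) * (1 / 2) ^ Dp s K with hβ
  have hβ0 : 0 ≤ β := by positivity
  -- the values near `g K`
  have hk : (2 * K + 1 - 1) / 2 = K := by omega
  have hT : ∀ v ≤ s.Z K, ‖p.coeff (v + s.g K)‖ ≤ β := by
    intro v hv
    have := h3 s hs kap p c M hc hM hkap hrow hpM (2 * K + 1) (by omega) v
      (by rw [(f10 K).1]; exact hv)
    rw [(f3 K).1, (f7 K).1, hk] at this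
    exact this
  have hL : ∀ l ∈ Finset.range (2 * K + 1), ‖p.coeff (n - x s l)‖ ≤ β := by
    intro l hl
    rw [Finset.mem_range] at hl
    have hx := f4 K l (by omega)
    rcases Nat.lt_or_ge N (x s l) with h | h
    · have e1 : n - x s l = s.g K - (x s l - N) := by omega
      have e2 := b7 K (x s l - N) (by omega) (by omega)
      have e3 := hkap (s.g K - (x s l - N)) (K + 1) (by rw [hs.zs K]; omega)
      have e4 := hpM (s.g K - (x s l - N))
      rw [e2] at e4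
      have e5 : ‖p.coeff (s.g K - (x s l - N))‖ * 2 ^ Tp s K ≤ M * 2 ^ (K + 9) :=
        e4.trans (mul_le_mul_of_nonneg_left (pow_le_pow_right₀ (by norm_num) (by omega)) hM)
      rw [e1]
      have e6 := dv (A := Ep s K + Dp s K) hM e5 (by unfold Ep Dp Tp; omega)
      refine e6.trans ?_
      rw [pow_add, hβ]
      have q1 : (0 : ℝ) < (1 / 2) ^ Ep s K := by positivity
      have q2 : (0 : ℝ) < (1 / 2) ^ Dp s K := by positivity
      have q3 := mul_pos q1 q2
      nlinarith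
    · have e1 : n - x s l = (N - x s l) + s.g K := by omega
      rw [e1]
      exact hT _ (by omega)
  have hpn : ‖p.coeff n‖ ≤ β := hT N hN
  have hS : ‖∑ l ∈ Finset.range (2 * K + 1), (a s l : ℂ) * p.coeff (n - x s l)‖ ≤ β / 32 := by
    calc ‖∑ l ∈ Finset.range (2 * K + 1), (a s l : ℂ) * p.coeff (n - x s l)‖
        ≤ ∑ l ∈ Finset.range (2 * K + 1), ‖(a s l : ℂ) * p.coeff (n - x s l)‖ := norm_sum_le _ _
      _ ≤ ∑ l ∈ Finset.range (2 * K + 1), |a s l| * β := by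
          refine Finset.sum_le_sum fun l hl => ?_
          rw [norm_mul, Complex.norm_real, Real.norm_eq_abs]
          exact mul_le_mul_of_nonneg_left (hL l hl) (abs_nonneg _)
      _ = (∑ l ∈ Finset.range (2 * K + 1), |a s l|) * β := by rw [Finset.sum_mul]
      _ ≤ 1 / 32 * β := mul_le_mul_of_nonneg_right (f11 K) hβ0
      _ = β / 32 := by ring
  have hR := row s hs h1 p K N hN
  have hr := hrow n (by omega)
  have hbn : bb s n = bb s N + Up s K := b6 K N hN
  -- the coefficient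
  have hf : a s (2 * K + 1) = (1 / 2) ^ Ep s K := (f9 K).2.1
  have hf0 : (0 : ℝ) < (1 / 2) ^ Ep s K := by positivity
  have hmain : (1 / 2) ^ Ep s K * ‖p.coeff N‖ ≤ ‖cv s p n - p.coeff n‖ + β + β / 32 := by
    have e1 : (a s (2 * K + 1) : ℂ) * p.coeff N = (cv s p n - p.coeff n) + p.coeff n -
        ∑ l ∈ Finset.range (2 * K + 1), (a s l : ℂ) * p.coeff (n - x s l) := by
      rw [hR]; ring
    have e2 : ‖(a s (2 * K + 1) : ℂ) * p.coeff N‖ = (1 / 2) ^ Ep s K * ‖p.coeff N‖ := by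
      rw [norm_mul, Complex.norm_real, Real.norm_eq_abs, hf, abs_of_pos hf0]
    rw [← e2, e1]
    refine (norm_sub_le _ _).trans ?_
    have e3 := norm_add_le (cv s p n - p.coeff n) (p.coeff n)
    linarith
  -- multiply by `2 ^ Ep * 2 ^ bb N`
  set u : ℝ := 2 ^ bb s N with hu
  have hu0 : 0 < u := by positivity
  have k1 : (1 / 2 : ℝ) ^ Ep s K * 2 ^ Ep s K = 1 := by rw [← mul_pow]; norm_num
  have k2 : (2 : ℝ) ^ Ep s K = 2 ^ (K + 7) * 2 ^ Up s K := by
    rw [← pow_add]; congr 1; unfold Ep Up; omega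
  have k3 : u * (1 / 2) ^ Dp s K ≤ 1 / 8 := by
    have e : (8 : ℝ) * u ≤ 2 ^ Dp s K := by
      have : Dp s K = (Dp s K - bb s N - 3) + bb s N + 3 := by
        have := hbb N
        unfold Dp; omega
      rw [this, pow_add, pow_add, hu]
      have e1 : (1 : ℝ) ≤ 2 ^ (Dp s K - bb s N - 3) := one_le_pow₀ (by norm_num)
      have e2 : (0 : ℝ) < 2 ^ bb s N := by positivity
      nlinarith
    have e3 : (1 / 2 : ℝ) ^ Dp s K * 2 ^ Dp s K = 1 := by rw [← mul_pow]; norm_num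
    have e4 : (0 : ℝ) < (1 / 2) ^ Dp s K := by positivity
    nlinarith
  have k4 : ‖cv s p n - p.coeff n‖ * (u * 2 ^ Up s K) ≤ c := by
    rw [hbn, pow_add] at hr
    exact hr
  have hfin : ‖p.coeff N‖ * u ≤ c * 2 ^ (K + 7) + 33 / 32 * (c + M) * (u * (1 / 2) ^ Dp s K) := by
    have e1 := mul_le_mul_of_nonneg_right hmain (show 0 ≤ 2 ^ Ep s K * u by positivity)
    have e2 : (1 / 2) ^ Ep s K * ‖p.coeff N‖ * (2 ^ Ep s K * u) = ‖p.coeff N‖ * u := by
      calc _ = ((1 / 2 : ℝ) ^ Ep s K * 2 ^ Ep s K) * (‖p.coeff N‖ * u) := by ring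
        _ = _ := by rw [k1, one_mul]
    have e3 : (‖cv s p n - p.coeff n‖ + β + β / 32) * (2 ^ Ep s K * u) =
        ‖cv s p n - p.coeff n‖ * (u * 2 ^ Up s K) * 2 ^ (K + 7) +
          33 / 32 * (c + M) * (u * (1 / 2) ^ Dp s K) := by
      calc _ = ‖cv s p n - p.coeff n‖ * u * 2 ^ Ep s K +
            33 / 32 * (c + M) * (u * (1 / 2) ^ Dp s K) * ((1 / 2 : ℝ) ^ Ep s K * 2 ^ Ep s K) := by
              rw [hβ]; ring
        _ = _ := by rw [k1, k2]; ring
    rw [e2, e3] at e1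
    refine e1.trans ?_
    have e4 := mul_le_mul_of_nonneg_right k4 (show (0 : ℝ) ≤ 2 ^ (K + 7) by positivity)
    linarith
  refine hfin.trans ?_
  have k5 : (2 : ℝ) ^ (K + 8) = 2 * 2 ^ (K + 7) := by rw [pow_succ 2 (K + 7)]; ring
  have k6 : (1 : ℝ) ≤ 2 ^ (K + 7) := one_le_pow₀ (by norm_num)
  have k7 : (c + M) * (u * (1 / 2) ^ Dp s K) ≤ (c + M) * (1 / 8) :=
    mul_le_mul_of_nonneg_left k3 (by positivity)
  rw [k5]
  nlinarith [mul_nonneg hc (show (0 : ℝ) ≤ 2 ^ (K + 7) - 1 by linarith),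
    mul_nonneg hM (show (0 : ℝ) ≤ 2 ^ (K + 7) - 1 by linarith)]

end Pool.Agent.CPW
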