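import Pool.Agent.CPW.Targets

set_option autoImplicit false

/-!
# CPW, target SEQ: sequences by recursion
-/

namespace Pool.Agent.CPW

open Polynomial Filter Topology

namespace SEQ_

/-- `Y K` as a function of `K` and `Z K` -/
def Yf (N : ℕ → ℕ) (K z : ℕ) : ℕ := max ((5 * z + 9 * K + 70) * z) (N (5 * z + 8 * K + 63))

/-- `g K` as a function of `K` and `Z K` -/
def Gf (N : ℕ → ℕ) (K z : ℕ) : ℕ :=
  Yf N K z + (4 * z + 8 * K + 60) + (3 * z + 6 * K + 47) + 4 * z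

/-- `Z K` -/
def Zf (N : ℕ → ℕ) : ℕ → ℕ
  | 0 => 2
  | K + 1 => 3 * Gf N K (Zf N K)

end SEQ_

open SEQ_ in
theorem p_SEQ : T_SEQ := by
  intro h hh
  have h1 : ∀ e : ℕ, ∃ N : ℕ, ∀ n, N ≤ n → (2 : ℝ) ^ e ≤ h n := fun e => by
    obtain ⟨N, hN⟩ := eventually_atTop.1 (hh.eventually_ge_atTop ((2 : ℝ) ^ e))
    exact ⟨N, hN⟩
  choose N hN using h1
  refine ⟨⟨Zf N, fun K => Yf N K (Zf N K), fun K => Gf N K (Zf N K)⟩,
    ⟨rfl, fun K => rfl, fun K => le_max_left _ _, fun K => le_rfl⟩, ?_⟩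
  intro K n hn
  have h2 : N (5 * Zf N K + 8 * K + 63) ≤ n := le_trans (le_max_right _ _) hn
  have h3 := hN _ n h2
  have h4 : Tp ⟨Zf N, fun K => Yf N K (Zf N K), fun K => Gf N K (Zf N K)⟩ K +
      Up ⟨Zf N, fun K => Yf N K (Zf N K), fun K => Gf N K (Zf N K)⟩ K =
      5 * Zf N K + 8 * K + 63 := by
    simp only [Tp, Up]; omega
  rw [h4]; exact h3

end Pool.Agent.CPW
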