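import Pool.Agent.CPW.Targets
import Pool.Agent.CycP.Sp

set_option autoImplicit false

/-! SPC: the weighted Hardy space as a Banach space of analytic functions. -/

namespace Pool.Agent.CPW

open Pool.Agent.CycP Polynomial

namespace SPC_

/-- diagonal operator -/
noncomputable def dg (c : ℕ → ℂ) (K : ℝ) (hK : ∀ n, ‖c n‖ ≤ K) : HH →L[ℂ] HH :=
  LinearMap.mkContinuous
    { toFun := fun y => ⟨fun n => c n * y n, memlp_dom y (C := K) (fun n => by
        rw [norm_mul]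
        exact mul_le_mul_of_nonneg_right (hK n) (norm_nonneg _))⟩
      map_add' := fun y y' => by
        ext1
        funext n
        show c n * (y + y') n = c n * y n + c n * y' n
        rw [lp.coeFn_add, Pi.add_apply, mul_add]
      map_smul' := fun t y => by
        ext1
        funext n
        show c n * (t • y) n = t • (c n * y n)
        rw [lp.coeFn_smul, Pi.smul_apply, smul_eq_mul, smul_eq_mul]
        ring }
    K (fun y => by
      have h0 : 0 ≤ K := (norm_nonneg _).trans (hK 0)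
      exact norm_dom y h0 (fun n => by
        show ‖c n * y n‖ ≤ K * ‖y n‖
        rw [norm_mul]
        exact mul_le_mul_of_nonneg_right (hK n) (norm_nonneg _)))

lemma dg_apply (c : ℕ → ℂ) (K : ℝ) (hK : ∀ n, ‖c n‖ ≤ K) (y : HH) (n : ℕ) :
    (dg c K hK y : HH) n = c n * y n := rfl

lemma dg_norm (c : ℕ → ℂ) (K : ℝ) (hK : ∀ n, ‖c n‖ ≤ K) (y : HH) : ‖dg c K hK y‖ ≤ K * ‖y‖ := by
  have h0 : 0 ≤ K := (norm_nonneg _).trans (hK 0)
  exact norm_dom y h0 (fun n => by
    rw [dg_apply, norm_mul]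
    exact mul_le_mul_of_nonneg_right (hK n) (norm_nonneg _))

section

variable {b : ℕ → ℝ}

lemma b_pos (h1 : ∀ n, 1 ≤ b n) (n : ℕ) : 0 < b n := lt_of_lt_of_le one_pos (h1 n)

lemma b_ne (h1 : ∀ n, 1 ≤ b n) (n : ℕ) : (b n : ℂ) ≠ 0 := by
  exact_mod_cast (b_pos h1 n).ne'

lemma inv_le (h1 : ∀ n, 1 ≤ b n) (n : ℕ) : ‖((b n : ℂ))⁻¹‖ ≤ 1 := by
  rw [norm_inv, Complex.norm_real, Real.norm_of_nonneg (b_pos h1 n).le]
  exact inv_le_one_of_one_le₀ (h1 n)

lemma quo_le (h1 : ∀ n, 1 ≤ b n) (h2 : ∀ n, b (n + 1) ≤ 2 * b n) (n : ℕ) :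
    ‖(b (n + 1) / b n : ℂ)‖ ≤ 2 := by
  rw [norm_div, Complex.norm_real, Complex.norm_real, Real.norm_of_nonneg (b_pos h1 n).le,
    Real.norm_of_nonneg (b_pos h1 _).le, div_le_iff₀ (b_pos h1 n)]
  exact h2 n

/-- division by the weight -/
noncomputable def MM (h1 : ∀ n, 1 ≤ b n) : HH →L[ℂ] HH := dg (fun n => ((b n : ℂ))⁻¹) 1 (inv_le h1)

/-- the shift -/
noncomputable def Sh (h1 : ∀ n, 1 ≤ b n) (h2 : ∀ n, b (n + 1) ≤ 2 * b n) : HH →L[ℂ] HH :=
  UU.comp (dg (fun n => (b (n + 1) / b n : ℂ)) 2 (quo_le h1 h2))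

lemma MM_apply (h1 : ∀ n, 1 ≤ b n) (y : HH) (n : ℕ) :
    (MM h1 y : HH) n = ((b n : ℂ))⁻¹ * y n := rfl

lemma Sh_zero (h1 : ∀ n, 1 ≤ b n) (h2 : ∀ n, b (n + 1) ≤ 2 * b n) (y : HH) :
    (Sh h1 h2 y : HH) 0 = 0 := rfl

lemma Sh_succ (h1 : ∀ n, 1 ≤ b n) (h2 : ∀ n, b (n + 1) ≤ 2 * b n) (y : HH) (n : ℕ) :
    (Sh h1 h2 y : HH) (n + 1) = (b (n + 1) / b n : ℂ) * y n := rfl

lemma MM_Sh (h1 : ∀ n, 1 ≤ b n) (h2 : ∀ n, b (n + 1) ≤ 2 * b n) (y : HH) :
    MM h1 (Sh h1 h2 y) = UU (MM h1 y) := by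
  ext1
  funext n
  cases n with
  | zero =>
    rw [MM_apply, UU_zero, Sh_zero, mul_zero]
  | succ n =>
    rw [MM_apply, UU_succ, MM_apply, Sh_succ]
    have := b_ne h1 n
    have := b_ne h1 (n + 1)
    field_simp

lemma mem_iff (w : Fin 1 → ℂ) : w ∈ Metric.ball (0 : Fin 1 → ℂ) 1 ↔ ‖w 0‖ < 1 := by
  rw [mem_ball_zero_iff, pi_norm_lt_iff one_pos]
  constructor
  · intro h; exact h 0
  · intro h i
    have : i = 0 := Subsingleton.elim _ _
    rw [this]; exact h

open scoped Classical in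
/-- the function given by a sequence -/
noncomputable def vl (h1 : ∀ n, 1 ≤ b n) (y : HH) (w : Fin 1 → ℂ) : ℂ :=
  if ‖w 0‖ < 1 then pv (MM h1 y) (w 0) else 0

lemma vl_eq (h1 : ∀ n, 1 ≤ b n) (y : HH) {w : Fin 1 → ℂ} (hw : ‖w 0‖ < 1) :
    vl h1 y w = pv (MM h1 y) (w 0) := if_pos hw

/-- the linear map to functions -/
noncomputable def fL (h1 : ∀ n, 1 ≤ b n) : HH →ₗ[ℂ] ((Fin 1 → ℂ) → ℂ) where
  toFun := vl h1
  map_add' y y' := by
    funext w
    by_cases h : ‖w 0‖ < 1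
    · rw [Pi.add_apply, vl_eq h1 _ h, vl_eq h1 _ h, vl_eq h1 _ h, map_add, pv_add _ _ h]
    · simp only [Pi.add_apply, vl, if_neg h, add_zero]
  map_smul' c y := by
    funext w
    by_cases h : ‖w 0‖ < 1
    · rw [Pi.smul_apply, vl_eq h1 _ h, vl_eq h1 _ h, map_smul, pv_smul]
      simp
    · simp only [Pi.smul_apply, vl, if_neg h, smul_zero]

lemma fL_apply (h1 : ∀ n, 1 ≤ b n) (y : HH) (w : Fin 1 → ℂ) : fL h1 y w = vl h1 y w := rfl

lemma vl_inj (h1 : ∀ n, 1 ≤ b n) (y : HH)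
    (h : ∀ w ∈ Metric.ball (0 : Fin 1 → ℂ) 1, vl h1 y w = 0) : y = 0 := by
  have h2 : MM h1 y = 0 := by
    apply pv_inj
    intro u hu
    have h3 := h (fun _ => u) ((mem_iff _).2 hu)
    rw [vl_eq h1 _ (by exact hu)] at h3
    exact h3
  ext1
  funext n
  have h3 : (MM h1 y : HH) n = 0 := by rw [h2]; rfl
  rw [MM_apply] at h3
  exact (mul_eq_zero.1 h3).resolve_left (inv_ne_zero (b_ne h1 n))

lemma vl_analytic (h1 : ∀ n, 1 ≤ b n) (y : HH) :
    AnalyticOnNhd ℂ (vl h1 y) (Metric.ball (0 : Fin 1 → ℂ) 1) := by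
  intro w hw
  have hw' := (mem_iff w).1 hw
  have h2 : AnalyticAt ℂ (pv (MM h1 y)) (w 0) := by
    apply pv_analytic
    rw [mem_ball_zero_iff]
    exact hw'
  have h3 : AnalyticAt ℂ (fun w : Fin 1 → ℂ => w 0) w :=
    (ContinuousLinearMap.proj (R := ℂ) (φ := fun _ : Fin 1 => ℂ) 0).analyticAt w
  have h4 : AnalyticAt ℂ (fun w : Fin 1 → ℂ => pv (MM h1 y) (w 0)) w :=
    AnalyticAt.comp (g := pv (MM h1 y)) h2 h3
  refine h4.congr ?_
  filter_upwards [Metric.isOpen_ball.mem_nhds hw] with v hv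
  exact (vl_eq h1 y ((mem_iff v).1 hv)).symm

lemma toP_coeff (P : MvPolynomial (Fin 1) ℂ) (n : ℕ) :
    (toP P).coeff n = P.coeff (Finsupp.single 0 n) := by
  induction P using MvPolynomial.induction_on generalizing n with
  | C c =>
    unfold toP
    rw [MvPolynomial.aeval_C, Polynomial.algebraMap_eq, Polynomial.coeff_C, MvPolynomial.coeff_C]
    by_cases hn : n = 0
    · subst hn; simp
    · rw [if_neg hn, if_neg]
      intro h
      apply hn
      have := congrArg (fun f => f 0) h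
      simpa using this.symm
  | add P Q hP hQ =>
    have : toP (P + Q) = toP P + toP Q := by unfold toP; rw [map_add]
    rw [this, Polynomial.coeff_add, MvPolynomial.coeff_add, hP, hQ]
  | mul_X P j hP =>
    have hj : j = 0 := Subsingleton.elim _ _
    subst hj
    have : toP (P * MvPolynomial.X 0) = toP P * X := by
      unfold toP; rw [map_mul, MvPolynomial.aeval_X]
    rw [this, MvPolynomial.coeff_mul_X']
    cases n with
    | zero => simp
    | succ n =>
      rw [Polynomial.coeff_mul_X, hP, if_pos]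
      · congr 1
        rw [← Finsupp.single_tsub]
        simp
      · simp

/-- a polynomial as an element of the space -/
noncomputable def po (b : ℕ → ℝ) (P : MvPolynomial (Fin 1) ℂ) : HH :=
  ⟨fun n => (b n : ℂ) * P.coeff (Finsupp.single 0 n), by
    apply memℓp_gen
    apply summable_of_hasFiniteSupport
    apply Set.Finite.subset (toP P).support.finite_toSet
    intro n hn
    rw [Function.mem_support] at hn
    rw [Finset.mem_coe, Polynomial.mem_support_iff, toP_coeff]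
    intro h
    apply hn
    rw [h]
    simp⟩

lemma po_apply (b : ℕ → ℝ) (P : MvPolynomial (Fin 1) ℂ) (n : ℕ) :
    (po b P : HH) n = (b n : ℂ) * P.coeff (Finsupp.single 0 n) := rfl

lemma vl_po (h1 : ∀ n, 1 ≤ b n) (P : MvPolynomial (Fin 1) ℂ) {w : Fin 1 → ℂ} (hw : ‖w 0‖ < 1) :
    vl h1 (po b P) w = MvPolynomial.eval w P := by
  rw [vl_eq h1 _ hw, ← toP_eval, Polynomial.eval_eq_sum_range]
  unfold pv
  have h2 : ∀ k, (MM h1 (po b P) : HH) k * (w 0) ^ k = (toP P).coeff k * (w 0) ^ k := by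
    intro k
    rw [MM_apply, po_apply, toP_coeff, inv_mul_cancel_left₀ (b_ne h1 k)]
  rw [tsum_congr h2]
  apply tsum_eq_sum
  intro k hk
  rw [Finset.mem_range, not_lt] at hk
  rw [Polynomial.coeff_eq_zero_of_natDegree_lt (by omega), zero_mul]

lemma po_dense (h1 : ∀ n, 1 ≤ b n) : DenseRange (po b) := by
  intro y
  have h2 := (lp.hasSum_single (E := fun _ : ℕ => ℂ) (p := 2) (by simp) y)
  refine mem_closure_of_tendsto h2 (Filter.Eventually.of_forall fun s => ?_)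
  refine ⟨∑ i ∈ s, MvPolynomial.monomial (Finsupp.single 0 i) (((b i : ℂ))⁻¹ * y i), ?_⟩
  ext1
  funext n
  rw [po_apply, MvPolynomial.coeff_sum, lp.coeFn_sum, Finset.sum_apply, Finset.mul_sum]
  apply Finset.sum_congr rfl
  intro i _
  rw [MvPolynomial.coeff_monomial, lp.single_apply]
  by_cases hi : n = i
  · subst hi
    simp [b_ne h1 n]
  · rw [if_neg, mul_zero, Pi.single_eq_of_ne hi]
    intro h
    apply hi
    have := congrArg (fun f => f 0) h
    simpa using this.symm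

/-- the space -/
noncomputable def sp (h1 : ∀ n, 1 ≤ b n) (h2 : ∀ n, b (n + 1) ≤ 2 * b n) :
    AnSpace 1 (Metric.ball (0 : Fin 1 → ℂ) 1) L2 where
  fn := fL h1
  isOpen := Metric.isOpen_ball
  fn_inj := vl_inj h1
  fn_analytic := vl_analytic h1
  poly := po b
  fn_poly := fun P w hw => vl_po h1 P ((mem_iff w).1 hw)
  poly_dense := po_dense h1
  fn_bounded := fun w hw => by
    have hw' := (mem_iff w).1 hw
    refine ⟨(1 - ‖w 0‖)⁻¹, fun y => ?_⟩
    rw [fL_apply, vl_eq h1 _ hw']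
    refine (pv_norm _ hw').trans ?_
    apply mul_le_mul_of_nonneg_left
    · have := dg_norm (fun n => ((b n : ℂ))⁻¹) 1 (inv_le h1) y
      rw [one_mul] at this
      exact this
    · exact inv_nonneg.2 (by linarith)
  shift := fun _ => Sh h1 h2
  fn_shift := fun j y w hw => by
    have hw' := (mem_iff w).1 hw
    have hj : j = 0 := Subsingleton.elim _ _
    subst hj
    rw [fL_apply, fL_apply, vl_eq h1 _ hw', vl_eq h1 _ hw', MM_Sh, pv_UU _ hw']

end

end SPC_

open SPC_ in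
theorem p_SPC : T_SPC := by
  intro b h1 h2
  refine ⟨sp h1 h2, ?_, ?_, ?_⟩
  · intro y w hw
    have hw' := (mem_iff w).1 hw
    show HasSum _ (vl h1 y w)
    rw [vl_eq h1 _ hw']
    have h3 := (pv_summable (MM h1 y) hw').hasSum
    have h4 : (fun k => (MM h1 y : HH) k * (w 0) ^ k) = fun n => y n / (b n : ℂ) * (w 0) ^ n := by
      funext k
      rw [MM_apply, inv_mul_eq_div]
    rw [h4] at h3
    unfold pv
    rw [h4]
    exact h3
  · intro P n
    rfl
  · intro y n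
    exact ⟨Sh_zero h1 h2 y, Sh_succ h1 h2 y n⟩

end Pool.Agent.CPW
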