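import Pool.Agent.CPW.Targets

set_option autoImplicit false

/-!
# CPW: STA, the powers of `PK K` with the weight of the next step
-/

namespace Pool.Agent.CPW

open Polynomial Filter Topology
open Pool.Agent.CycP

namespace STA_

/-- the numbers -/
theorem num {c K m : ℕ} (h : c + (K + 7) ≤ m) {Q : ℝ} (hQ : 1 / 8 ≤ Q) :
    (2 : ℝ) ^ c * (1 / 32) ^ m ≤ (1 / 2) ^ (K + 7) * Q ^ (m - 1) := by
  have h1 : (2 : ℝ) ^ c * (1 / 2) ^ m ≤ (1 / 2) ^ (K + 7) := by
    obtain ⟨r, rfl⟩ := Nat.exists_eq_add_of_le h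
    have e : (2 : ℝ) ^ c * (1 / 2) ^ c = 1 := by
      rw [← mul_pow]; norm_num
    calc (2 : ℝ) ^ c * (1 / 2) ^ (c + (K + 7) + r)
        = ((2 : ℝ) ^ c * (1 / 2) ^ c) * (1 / 2) ^ (K + 7) * (1 / 2) ^ r := by
          rw [pow_add, pow_add]; ring
      _ = (1 / 2) ^ (K + 7) * (1 / 2) ^ r := by rw [e, one_mul]
      _ ≤ (1 / 2) ^ (K + 7) * 1 := by
          refine mul_le_mul_of_nonneg_left ?_ (by positivity)
          exact pow_le_one₀ (by norm_num) (by norm_num)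
      _ = (1 / 2) ^ (K + 7) := mul_one _
  have h2 : ((1 : ℝ) / 16) ^ m ≤ Q ^ (m - 1) := by
    calc ((1 : ℝ) / 16) ^ m ≤ (1 / 16) ^ (m - 1) :=
          pow_le_pow_of_le_one (by norm_num) (by norm_num) (Nat.sub_le m 1)
      _ ≤ Q ^ (m - 1) := pow_le_pow_left₀ (by norm_num) (by linarith) _
  have e : ((1 : ℝ) / 32) ^ m = (1 / 2) ^ m * (1 / 16) ^ m := by
    rw [← mul_pow]; norm_num
  calc (2 : ℝ) ^ c * (1 / 32) ^ m = ((2 : ℝ) ^ c * (1 / 2) ^ m) * (1 / 16) ^ m := by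
        rw [e]; ring
    _ ≤ (1 / 2) ^ (K + 7) * Q ^ (m - 1) :=
        mul_le_mul h1 h2 (by positivity) (by positivity)

end STA_

theorem p_STA (h1 : T_XFA) (h2 : T_BBA) (h3 : T_BBB) (h4 : T_NNC) (h5 : T_PKF) : T_STA := by
  intro s hs K Q hQ hP m
  obtain ⟨hX, -⟩ := h1 s hs
  obtain ⟨hb1, hb2, -⟩ := h2 s hs
  obtain ⟨-, -, hB3, -, hB5, -⟩ := h3 s hs
  obtain ⟨-, -, -, -, -, -, -, -, hN9, hN10, hN11, hN12, -, -⟩ := h4
  obtain ⟨hF1, -, hF3, -⟩ := h5 s hs K
  have hQ0 : 0 ≤ Q := le_trans (by norm_num) hQ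
  have hgZ : s.g K < s.Z (K + 1) := by
    have := hs.zs K
    have := (hX K).1
    have := (hX K).2.2.1
    omega
  have hYg : s.Y K ≤ s.g K := by
    have := hs.g1 K
    omega
  have hlow : ∀ n, n < s.Y K → bK s (K + 1) n ≤ bK s K n := by
    intro n hn
    rcases lt_or_ge n (s.Z K) with h | h
    · rw [hb1 (K + 1) n (lt_trans h (hX K).2.2.2.2), hb1 K n h]
    · rw [hb1 (K + 1) n (by omega), hB5 K n h hn]
      exact Nat.zero_le _
  have hε : 0 ≤ ((1 : ℝ) / 2) ^ (K + 7) * Q ^ (m - 1) := by positivity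
  rcases lt_or_ge m (m0 s K) with hm | hm
  · have h : NN (bK s (K + 1)) ((PK s K) ^ m) ≤ 2 ^ 0 * NN (bK s K) ((PK s K) ^ m) := by
      refine hN10 _ _ 0 _ fun n hn => ?_
      have h6 := hF3 m n hn
      have h7 : n < s.Y K := by
        have h8 := hs.y1 K
        have h9 : m * s.Z K < (5 * s.Z K + 9 * K + 70) * s.Z K := by
          refine Nat.mul_lt_mul_of_pos_right ?_ ?_
          · exact hm
          · have := (hX K).1
            omega
        omega
      exact (hlow n h7).trans (Nat.le_add_right _ _)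
    have := hP m
    rw [pow_zero, one_mul] at h
    linarith
  · have h : NN (bK s (K + 1)) ((PK s K) ^ m) ≤ NN (bK s K) ((PK s K) ^ m) +
        2 ^ (Tp s K + Up s K) * NN (fun _ => 0) ((PK s K) ^ m) := by
      refine hN11 _ _ _ _ fun n _ => ?_
      rcases lt_or_ge n (s.Y K) with h | h
      · exact Or.inl (hlow n h)
      · right
        rcases lt_or_ge n (s.Z (K + 1)) with h6 | h6
        · rw [hb1 (K + 1) n h6]
          exact hB3 K n h6
        · rw [hb2 (K + 1) n h6]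
          exact Nat.zero_le _
    have h6 : NN (fun _ => 0) ((PK s K) ^ m) ≤ (1 / 32) ^ m :=
      (hN9 _ _).trans (pow_le_pow_left₀ (hN12 _ _) hF1 m)
    have h7 : (2 : ℝ) ^ (Tp s K + Up s K) * NN (fun _ => 0) ((PK s K) ^ m) ≤
        2 ^ (Tp s K + Up s K) * (1 / 32) ^ m :=
      mul_le_mul_of_nonneg_left h6 (by positivity)
    have h8 : Tp s K + Up s K + (K + 7) ≤ m := by
      unfold m0 at hm
      unfold Tp Up
      omega
    have h9 := STA_.num h8 hQ
    have := hP m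
    linarith

end Pool.Agent.CPW
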