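import Pool.Agent.CPW.Targets

set_option autoImplicit false

/-!
# CPW: STC, the second window
-/

namespace Pool.Agent.CPW

open Polynomial Filter Topology

namespace STC_

theorem choose_two (m : ℕ) : (((m + 1).choose 2 : ℕ) : ℝ[X]) * 2 = ((m : ℝ[X]) + 1) * m := by
  have h : (m + 1).choose 2 * 2 = (m + 1) * m := by
    rw [Nat.choose_two_right]
    have h1 : (m + 1) * (m + 1 - 1) = (m + 1) * m := rfl
    rw [h1]
    have h2 : 2 ∣ (m + 1) * m := by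
      have := Nat.even_mul_succ_self m
      rw [mul_comm]
      exact this.two_dvd
    exact Nat.div_mul_cancel h2
  exact_mod_cast congrArg (fun n : ℕ => (n : ℝ[X])) h

/-- the algebraic identity -/
theorem ident (P : ℝ[X]) (f b α : ℝ) (g x m : ℕ) (hx : x ≤ 2 * g) (h : 2 * α * b = -f ^ 2) :
    ((m + 1).choose 2 : ℝ[X]) * (C f * X ^ g) ^ 2 * P ^ (m - 1) +
      (m + 1 : ℝ[X]) * (C b * X ^ (2 * g - x)) * P ^ m =
    ((m + 1 : ℕ) : ℝ[X]) * (C b * (X ^ (2 * g - x) *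
      (P ^ m - (m : ℝ[X]) * (C α * X ^ x) * P ^ (m - 1)))) := by
  have e1 := choose_two m
  have e2 : (C b * C α * 2 : ℝ[X]) = -(C f) ^ 2 := by
    have h1 : b * α * 2 = -f ^ 2 := by linarith
    have h2 := congrArg (C : ℝ → ℝ[X]) h1
    rw [C_mul, C_mul, C_neg, C_pow] at h2
    have h3 : (C (2 : ℝ) : ℝ[X]) = 2 := map_ofNat C 2
    rw [← h2, h3]
  have e3 : (X : ℝ[X]) ^ (2 * g - x) * X ^ x = (X ^ g) ^ 2 := by
    rw [← pow_add, ← pow_mul]
    congr 1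
    omega
  apply mul_left_cancel₀ (two_ne_zero' ℝ[X])
  push_cast
  linear_combination (C f) ^ 2 * (X ^ g) ^ 2 * P ^ (m - 1) * e1 +
    ((m : ℝ[X]) + 1) * m * P ^ (m - 1) * (2 * C b * C α * e3 + (X ^ g) ^ 2 * e2)

theorem bK_le (s : Sq) (K t : ℕ) (h1 : x s K < s.Z K) (h2 : 4 * s.Z K ≤ s.g K) :
    bK s (K + 1) (2 * s.g K - x s K + t) ≤ bn s K t + et s K := by
  have e : 2 * s.g K - x s K + t - (2 * s.g K - x s K) = t := by omega
  rw [bK]
  rw [if_neg (by omega), if_neg (by omega), if_neg (by omega)]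
  split_ifs
  · rw [e]
    omega
  · exact Nat.zero_le _

theorem coef (s : Sq) (hs : Ok s) (h1 : T_XFA) (K : ℕ) :
    |a s (2 * K + 2)| * 2 ^ et s K = (1 / 2) ^ (K + 8) := by
  obtain ⟨_, _, _, _, _, _, c7, c8, c9, _⟩ := h1 s hs
  have h7 := (c7 K).2.1
  have h8 := c8 K K (by omega)
  have h9 := (c9 (2 * K + 2)).1
  have hal : al s (2 * K + 2) = et s K + (K + 8) := by
    unfold et
    unfold Ep at h7
    omega
  rw [h9, hal, pow_add, mul_comm, ← mul_assoc, ← mul_pow]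
  norm_num

theorem small (m : ℕ) : (m : ℝ) * (1 / 32) ^ m ≤ (1 / 16) ^ m := by
  have h1 : (m : ℝ) ≤ 2 ^ m := by
    have := (Nat.lt_two_pow_self (n := m)).le
    exact_mod_cast this
  calc (m : ℝ) * (1 / 32) ^ m ≤ 2 ^ m * (1 / 32) ^ m := by gcongr
    _ = (1 / 16) ^ m := by rw [← mul_pow]; norm_num

theorem binom (α F : ℝ) (hα : 0 ≤ α) (hF : 0 ≤ F) (h : α + F ≤ 1 / 32) (n : ℕ) :
    ∑ i ∈ Finset.range n, (((i + 1) * (n + 1).choose (i + 2) : ℕ) : ℝ) *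
      (α ^ (i + 2) * F ^ (n - 1 - i)) ≤ (1 / 16) ^ (n + 1) := by
  have h1 : ∑ i ∈ Finset.range n, (((i + 1) * (n + 1).choose (i + 2) : ℕ) : ℝ) *
      (α ^ (i + 2) * F ^ (n - 1 - i)) ≤ ∑ i ∈ Finset.range n, ((n + 1 : ℕ) : ℝ) *
        (α ^ (i + 2) * F ^ (n + 1 - (i + 2)) * ((n + 1).choose (i + 2) : ℕ)) := by
    refine Finset.sum_le_sum fun i hi => ?_
    have hi' := Finset.mem_range.1 hi
    have e : n + 1 - (i + 2) = n - 1 - i := by omega
    rw [e]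
    have h2 : (((i + 1) * (n + 1).choose (i + 2) : ℕ) : ℝ) ≤
        ((n + 1 : ℕ) : ℝ) * ((n + 1).choose (i + 2) : ℕ) := by
      have : (i + 1) * (n + 1).choose (i + 2) ≤ (n + 1) * (n + 1).choose (i + 2) :=
        Nat.mul_le_mul_right _ (by omega)
      exact_mod_cast this
    have h3 : 0 ≤ α ^ (i + 2) * F ^ (n - 1 - i) := by positivity
    calc (((i + 1) * (n + 1).choose (i + 2) : ℕ) : ℝ) * (α ^ (i + 2) * F ^ (n - 1 - i))
        ≤ ((n + 1 : ℕ) : ℝ) * ((n + 1).choose (i + 2) : ℕ) *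
          (α ^ (i + 2) * F ^ (n - 1 - i)) := mul_le_mul_of_nonneg_right h2 h3
      _ = _ := by ring
  refine h1.trans ?_
  rw [← Finset.mul_sum]
  have h4 : ∑ i ∈ Finset.range n,
      α ^ (i + 2) * F ^ (n + 1 - (i + 2)) * ((n + 1).choose (i + 2) : ℕ) ≤ (α + F) ^ (n + 1) := by
    rw [add_pow, Finset.sum_range_succ', Finset.sum_range_succ']
    have h5 : 0 ≤ α ^ (0 + 1) * F ^ (n + 1 - (0 + 1)) * ((n + 1).choose (0 + 1) : ℕ) := by
      positivity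
    have h6 : 0 ≤ α ^ 0 * F ^ (n + 1 - 0) * ((n + 1).choose 0 : ℕ) := by positivity
    linarith
  have h7 : (α + F) ^ (n + 1) ≤ (1 / 32) ^ (n + 1) :=
    pow_le_pow_left₀ (by linarith) h _
  calc ((n + 1 : ℕ) : ℝ) * _ ≤ ((n + 1 : ℕ) : ℝ) * (1 / 32) ^ (n + 1) :=
        mul_le_mul_of_nonneg_left (h4.trans h7) (Nat.cast_nonneg _)
    _ ≤ (1 / 16) ^ (n + 1) := small (n + 1)

theorem first (s : Sq) (hs : Ok s) (h2 : T_BNF) (h6 : T_NNC) (h7 : T_PKF) (h8 : T_BNR)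
    (K m : ℕ) : NN (bn s K) ((RK s K) ^ m) ≤ 2 * (1 / 16) ^ m := by
  obtain ⟨-, -, -, -, -, -, -, -, n9, n10, n11, n12, -, -⟩ := h6
  have hF : NN (fun _ => 0) (RK s K) ≤ 1 / 32 := by
    have := (h7 s hs K).2.1
    have h0 := abs_nonneg (a s K)
    linarith
  have hF0 := n12 (fun _ => 0) (RK s K)
  have hFm : NN (fun _ => 0) ((RK s K) ^ m) ≤ (1 / 32) ^ m :=
    (n9 (RK s K) m).trans (pow_le_pow_left₀ hF0 hF m)
  have h32 : ((1 : ℝ) / 32) ^ m ≤ (1 / 16) ^ m := pow_le_pow_left₀ (by norm_num) (by norm_num) m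
  have h16 : (0 : ℝ) ≤ (1 / 16) ^ m := by positivity
  by_cases hsm : ∀ n, ((RK s K) ^ m).coeff n ≠ 0 → bn s K n = 0
  · have h3 := n10 (bn s K) (fun _ => 0) 0 ((RK s K) ^ m) (fun n hn => by
      rw [hsm n hn])
    rw [pow_zero, one_mul] at h3
    linarith
  · simp only [not_forall] at hsm
    obtain ⟨n, hn1, hn2⟩ := hsm
    have hK : 1 ≤ K := by
      by_contra hcon
      have hK0 : K = 0 := by omega
      subst hK0
      apply hn2
      rw [bn]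
    have hm := h8 s hs K hK m n hn2 hn1
    have hL : Lp s ((K - 1) / 2) ≤ m := by
      unfold m0 at hm
      unfold Lp
      omega
    have h3 := n11 (bn s K) (fun _ => 0) (Lp s ((K - 1) / 2)) ((RK s K) ^ m)
      (fun n _ => Or.inr (((h2 s hs K).2.2.2 hK).1 n))
    have h4 : (2 : ℝ) ^ Lp s ((K - 1) / 2) * NN (fun _ => 0) ((RK s K) ^ m) ≤ (1 / 16) ^ m := by
      calc (2 : ℝ) ^ Lp s ((K - 1) / 2) * NN (fun _ => 0) ((RK s K) ^ m)
          ≤ 2 ^ m * (1 / 32) ^ m :=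
            mul_le_mul (pow_le_pow_right₀ (by norm_num) hL) hFm (n12 _ _) (by positivity)
        _ = (1 / 16) ^ m := by rw [← mul_pow]; norm_num
    linarith

theorem second (s : Sq) (hs : Ok s) (h2 : T_BNF) (h6 : T_NNC) (h7 : T_PKF) (K n : ℕ) :
    NN (bn s K) (∑ i ∈ Finset.range n, ((i + 1 : ℕ) : ℝ[X]) * ((n + 1).choose (i + 2) : ℝ[X]) *
      (C (a s K) * X ^ x s K) ^ (i + 2) * (RK s K) ^ (n - 1 - i)) ≤ (1 / 16) ^ (n + 1) := by
  obtain ⟨-, -, -, n4, n5, n6, n7, -, n9, n10, n11, n12, -, -⟩ := h6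
  have hb := (h7 s hs K).2.1
  refine (n4 (bn s K) (Finset.range n) _).trans ?_
  refine le_trans (Finset.sum_le_sum fun i _ => ?_)
    (binom (|a s K|) (NN (fun _ => 0) (RK s K)) (abs_nonneg _) (n12 _ _) hb n)
  have e1 : ((i + 1 : ℕ) : ℝ[X]) * ((n + 1).choose (i + 2) : ℝ[X]) *
      (C (a s K) * X ^ x s K) ^ (i + 2) * (RK s K) ^ (n - 1 - i) =
      (((i + 1) * (n + 1).choose (i + 2) : ℕ) : ℝ[X]) *
        (C ((a s K) ^ (i + 2)) * (X ^ (x s K * (i + 2)) * (RK s K) ^ (n - 1 - i))) := by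
    rw [mul_pow, C_pow, ← pow_mul]
    push_cast
    ring
  have e2 : (fun t => bn s K (x s K * (i + 2) + t)) = fun _ => 0 := by
    funext t
    apply (h2 s hs K).2.2.1
    nlinarith
  rw [e1, n6, n5, n7, e2, abs_pow]
  refine mul_le_mul_of_nonneg_left (mul_le_mul_of_nonneg_left (n9 _ _) (by positivity))
    (Nat.cast_nonneg _)

theorem bracket (s : Sq) (hs : Ok s) (h2 : T_BNF) (h5 : T_ALG) (h6 : T_NNC) (h7 : T_PKF)
    (h8 : T_BNR) (K m : ℕ) :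
    NN (bn s K) ((PK s K) ^ m - (m : ℝ[X]) * (C (a s K) * X ^ x s K) * (PK s K) ^ (m - 1)) ≤
      3 * (1 / 8) ^ m := by
  rcases Nat.eq_zero_or_pos m with hm | hm
  · subst hm
    have e : (PK s K) ^ 0 - ((0 : ℕ) : ℝ[X]) * (C (a s K) * X ^ x s K) * (PK s K) ^ (0 - 1) =
        1 := by
      simp
    rw [e, h6.2.2.2.2.2.2.2.2.2.2.2.2.1, (h2 s hs K).1]
    norm_num
  · obtain ⟨n, rfl⟩ : ∃ n, m = n + 1 := ⟨m - 1, by omega⟩
    have hP := (h7 s hs K).2.2.2.1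
    have e : (PK s K) ^ (n + 1) - ((n + 1 : ℕ) : ℝ[X]) * (C (a s K) * X ^ x s K) *
        (PK s K) ^ (n + 1 - 1) = (RK s K) ^ (n + 1) - ∑ i ∈ Finset.range n,
          ((i + 1 : ℕ) : ℝ[X]) * ((n + 1).choose (i + 2) : ℝ[X]) *
            (C (a s K) * X ^ x s K) ^ (i + 2) * (RK s K) ^ (n - 1 - i) := by
      rw [← h5.1 (RK s K) (C (a s K) * X ^ x s K) n, ← hP, Nat.add_sub_cancel]
      push_cast
      ring
    rw [e]
    refine (h6.2.2.1 _ _ _).trans ?_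
    have h3 := first s hs h2 h6 h7 h8 K (n + 1)
    have h4 := second s hs h2 h6 h7 K n
    have h9 : ((1 : ℝ) / 16) ^ (n + 1) ≤ (1 / 8) ^ (n + 1) :=
      pow_le_pow_left₀ (by norm_num) (by norm_num) _
    linarith

end STC_

open STC_ in
set_option linter.unusedVariables false in
/-- STC -/
theorem p_STC (h1 : T_XFA) (h2 : T_BNF) (h3 : T_BBA) (h4 : T_BBB) (h5 : T_ALG) (h6 : T_NNC)
    (h7 : T_PKF) (h8 : T_BNR) : T_STC := by
  intro s hs K m
  have hX := h1 s hs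
  have hx : x s K < s.Z K := (hX.2.2.2.1 K K (by omega)).2
  have hg : 4 * s.Z K ≤ s.g K := (hX.1 K).2.2.1
  have h9 := (hX.2.2.2.2.2.2.2.2.1 K).2.2
  rw [ident (PK s K) (a s (2 * K + 1)) (a s (2 * K + 2)) (a s K) (s.g K) (x s K) m (by omega) h9]
  have hN := h6
  obtain ⟨-, -, -, -, n5, n6, n7, -, -, n10, -, n12, -, -⟩ := h6
  rw [n6, n5, n7]
  have e1 := n10 (fun n => bK s (K + 1) (2 * s.g K - x s K + n)) (bn s K) (et s K)
    ((PK s K) ^ m - (m : ℝ[X]) * (C (a s K) * X ^ x s K) * (PK s K) ^ (m - 1))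
    (fun n _ => bK_le s K n hx hg)
  have e2 := bracket s hs h2 h5 hN h7 h8 K m
  have e3 := coef s hs h1 K
  have e4 : (0 : ℝ) ≤ 2 ^ et s K := by positivity
  calc ((m + 1 : ℕ) : ℝ) * (|a s (2 * K + 2)| * _)
      ≤ ((m + 1 : ℕ) : ℝ) * (|a s (2 * K + 2)| * (2 ^ et s K * (3 * (1 / 8) ^ m))) := by
        refine mul_le_mul_of_nonneg_left (mul_le_mul_of_nonneg_left ?_ (abs_nonneg _))
          (Nat.cast_nonneg _)
        exact e1.trans (mul_le_mul_of_nonneg_left e2 e4)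
    _ = ((m + 1 : ℕ) : ℝ) * (|a s (2 * K + 2)| * 2 ^ et s K) * (3 * (1 / 8) ^ m) := by ring
    _ = 3 / 2 * (m + 1) * (1 / 2) ^ (K + 7) * (1 / 8) ^ m := by
        rw [e3, show K + 8 = (K + 7) + 1 from rfl, pow_succ]
        push_cast
        ring

end Pool.Agent.CPW
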