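import Pool.Agent.CPW.Targets

set_option autoImplicit false

/-!
# CPW, STD: the remainder
-/

namespace Pool.Agent.CPW

open Polynomial

namespace STD_

theorem bK_zero (s : Sq) (K n : ℕ) (h1 : s.Z K ≤ n) (h2 : s.g K ≤ n)
    (h3 : 2 * s.g K - x s K ≤ n) (h4 : 2 * s.g K + 2 * s.Z K ≤ n) : bK s (K + 1) n = 0 := by
  rw [bK, if_neg (by omega), if_neg (by omega), if_neg (by omega), if_neg (by omega)]

theorem real_main (m : ℕ) (f b e : ℝ) (hf0 : 0 ≤ f) (hf : f ≤ 1 / 4096) (hb : b ≤ f)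
    (hfe : f ≤ e / 32) (D : ℝ) (hD : D ≤ 2 * f) :
    ((m : ℝ) + 1) * D * (1 / 32) ^ m + ((m : ℝ) + 1) * f * (1 / 32) ^ m +
      (((m + 1).choose 2 : ℕ) * f ^ 2 * (1 / 32) ^ (m - 1) +
        ((m : ℝ) + 1) * b * (1 / 32) ^ m) ≤
    1 / 4 * ((m : ℝ) + 1) * e * (1 / 8) ^ m := by
  have hm0 : (0 : ℝ) ≤ m := Nat.cast_nonneg m
  have hp : (0 : ℝ) ≤ (1 / 32) ^ m := by positivity
  have c1 : (((m + 1).choose 2 : ℕ) : ℝ) * f ^ 2 * (1 / 32) ^ (m - 1) ≤
      ((m : ℝ) + 1) * f * ((m : ℝ) / 256 * (1 / 32) ^ m) := by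
    cases m with
    | zero => simp
    | succ k =>
      rw [Nat.add_sub_cancel]
      have e1 : ((((k + 1 + 1).choose 2 : ℕ) : ℝ)) = ((k : ℝ) + 1) * ((k : ℝ) + 2) / 2 := by
        rw [Nat.cast_choose_two]
        push_cast
        ring
      rw [e1]
      push_cast
      have e2 : ((k : ℝ) + 1) * ((k : ℝ) + 2) / 2 * f ^ 2 * (1 / 32) ^ k =
          (((k : ℝ) + 1 + 1) * f * (((k : ℝ) + 1) * (1 / 32) ^ (k + 1))) * (16 * f) := by
        rw [pow_succ (1 / 32 : ℝ) k]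
        ring
      have e3 : ((k : ℝ) + 1 + 1) * f * (((k : ℝ) + 1) / 256 * (1 / 32) ^ (k + 1)) =
          (((k : ℝ) + 1 + 1) * f * (((k : ℝ) + 1) * (1 / 32) ^ (k + 1))) * (1 / 256) := by
        ring
      rw [e2, e3]
      refine mul_le_mul_of_nonneg_left (by linarith) (by positivity)
  have c2 : (m : ℝ) / 256 * (1 / 32) ^ m ≤ (1 / 8) ^ m := by
    have h1 : (m : ℝ) ≤ 4 ^ m := by
      have h0 : m < 4 ^ m := Nat.lt_pow_self (by norm_num)
      exact_mod_cast h0.le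
    have h2 : ((1 : ℝ) / 32) ^ m = (1 / 4) ^ m * (1 / 8) ^ m := by
      rw [← mul_pow]
      norm_num
    have h3 : (m : ℝ) * (1 / 4) ^ m ≤ 1 := by
      have : (4 : ℝ) ^ m * (1 / 4) ^ m = 1 := by
        rw [← mul_pow]
        norm_num
      have h6 := mul_le_mul_of_nonneg_right h1 (by positivity : (0 : ℝ) ≤ (1 / 4) ^ m)
      linarith
    have h4 : (0 : ℝ) ≤ (1 / 8) ^ m := by positivity
    rw [h2]
    have h5 : (m : ℝ) / 256 * ((1 / 4) ^ m * (1 / 8) ^ m) =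
        ((m : ℝ) * (1 / 4) ^ m) * (1 / 256 * (1 / 8) ^ m) := by ring
    rw [h5]
    calc ((m : ℝ) * (1 / 4) ^ m) * (1 / 256 * (1 / 8) ^ m) ≤ 1 * (1 / 256 * (1 / 8) ^ m) :=
          mul_le_mul_of_nonneg_right h3 (by positivity)
      _ ≤ (1 / 8) ^ m := by linarith
  have c3 : ((1 : ℝ) / 32) ^ m ≤ (1 / 8) ^ m :=
    pow_le_pow_left₀ (by norm_num) (by norm_num) m
  have q0 : (0 : ℝ) ≤ (m : ℝ) + 1 := by linarith
  have d1 : ((m : ℝ) + 1) * D * (1 / 32) ^ m ≤ ((m : ℝ) + 1) * (2 * f) * (1 / 32) ^ m :=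
    mul_le_mul_of_nonneg_right (mul_le_mul_of_nonneg_left hD q0) hp
  have d2 : ((m : ℝ) + 1) * b * (1 / 32) ^ m ≤ ((m : ℝ) + 1) * f * (1 / 32) ^ m :=
    mul_le_mul_of_nonneg_right (mul_le_mul_of_nonneg_left hb q0) hp
  have d3 : ((m : ℝ) + 1) * f * ((m : ℝ) / 256 * (1 / 32) ^ m) ≤
      ((m : ℝ) + 1) * f * (1 / 8) ^ m :=
    mul_le_mul_of_nonneg_left c2 (by positivity)
  have d4 : ((m : ℝ) + 1) * f * (1 / 32) ^ m ≤ ((m : ℝ) + 1) * f * (1 / 8) ^ m :=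
    mul_le_mul_of_nonneg_left c3 (by positivity)
  have d5 : ((m : ℝ) + 1) * f * (1 / 8) ^ m ≤ ((m : ℝ) + 1) * (e / 32) * (1 / 8) ^ m :=
    mul_le_mul_of_nonneg_right (mul_le_mul_of_nonneg_left hfe q0) (by positivity)
  have he : 0 ≤ ((m : ℝ) + 1) * e * (1 / 8) ^ m := by
    have : 0 ≤ e := by linarith
    positivity
  nlinarith

end STD_

open STD_ in
theorem p_STD (h1 : T_XFA) (_h2 : T_BBA) (_h3 : T_ALG) (h5 : T_NNC) (h6 : T_PKF) :
    T_STD := by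
  intro s hs K m S hS
  obtain ⟨-, nadd, nsub, -, nC, nnat, nX, nmul, npow, -, -, nnn, none', ndiff⟩ := h5
  obtain ⟨xz, -, -, xx, -, -, -, -, xa, -, -⟩ := h1 s hs
  obtain ⟨pP, -, -, -, hP, hba, hf0⟩ := h6 s hs K
  obtain ⟨pP', -⟩ := h6 s hs (K + 1)
  have hxK := xx K K (by omega)
  have hzK := (xz K).2.2.1
  have hzK2 := (xz K).1
  set f : ℝ := a s (2 * K + 1) with hf
  set b : ℝ := a s (2 * K + 2) with hb
  set g : ℕ := s.g K with hg
  set g' : ℕ := 2 * s.g K - x s K with hg'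
  set P : ℝ[X] := PK s K with hPdef
  -- the weight vanishes
  have e1 : NN (bK s (K + 1)) (X ^ (g + g') * S) = NN (fun _ => 0) (X ^ (g + g') * S) := by
    rw [nX, nX]
    congr 1
    funext n
    exact bK_zero s K _ (by omega) (by omega) (by omega) (by omega)
  rw [e1]
  have hfe : f = (1 / 2) ^ Ep s K := (xa K).2.1
  have hEp : K + 12 ≤ Ep s K := by
    unfold Ep
    omega
  have hf1 : f ≤ (1 / 2) ^ (K + 12) := by
    rw [hfe]
    exact pow_le_pow_of_le_one (by norm_num) (by norm_num) hEp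
  have hf2 : f ≤ (1 / 2) ^ (K + 7) / 32 := by
    refine hf1.trans (le_of_eq ?_)
    rw [show K + 12 = (K + 7) + 5 by ring, pow_add]
    norm_num
    ring
  have hf3 : f ≤ 1 / 4096 := by
    refine hf1.trans ?_
    calc (1 / 2 : ℝ) ^ (K + 12) ≤ (1 / 2) ^ 12 :=
          pow_le_pow_of_le_one (by norm_num) (by norm_num) (by omega)
      _ = 1 / 4096 := by norm_num
  have hXn : ∀ n : ℕ, NN (fun _ => 0) (X ^ n : ℝ[X]) = 1 := by
    intro n
    have := nX (fun _ => 0) n 1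
    rw [mul_one] at this
    rw [this, none']
    simp
  have hCX : ∀ (c : ℝ) (n : ℕ), NN (fun _ => 0) (C c * X ^ n : ℝ[X]) = |c| := by
    intro c n
    rw [nC, hXn, mul_one]
  have hPm : ∀ n : ℕ, NN (fun _ => 0) (P ^ n) ≤ (1 / 32) ^ n := by
    intro n
    exact (npow _ n).trans (pow_le_pow_left₀ (nnn _ _) pP n)
  have hfa : |f| = f := abs_of_pos hf0
  -- the differences
  have r0 : NN (fun _ => 0) ((PK s (K + 1)) ^ (m + 1) - P ^ (m + 1)) ≤
      (m + 1) * NN (fun _ => 0) (C f * X ^ g + C b * X ^ g') * (1 / 32) ^ m := by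
    have e2 : PK s (K + 1) = P + (C f * X ^ g + C b * X ^ g') := by
      rw [hP]
      ring
    rw [e2] at pP' ⊢
    exact ndiff P _ (1 / 32) m pP pP'
  have rD : NN (fun _ => 0) (C f * X ^ g + C b * X ^ g') ≤ 2 * f := by
    refine (nadd _ _ _).trans ?_
    rw [hCX, hCX, hfa]
    linarith
  have r1 : NN (fun _ => 0) ((m + 1 : ℝ[X]) * (C f * X ^ g) * P ^ m) ≤
      (m + 1) * f * (1 / 32) ^ m := by
    refine (nmul _ _).trans ?_
    have e3 : (m + 1 : ℝ[X]) * (C f * X ^ g) = ((m + 1 : ℕ) : ℝ[X]) * (C f * X ^ g) := by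
      push_cast
      ring
    rw [e3, nnat, hCX, hfa]
    push_cast
    exact mul_le_mul_of_nonneg_left (hPm m) (by positivity)
  have r3 : NN (fun _ => 0) ((m + 1 : ℝ[X]) * (C b * X ^ g') * P ^ m) ≤
      (m + 1) * |b| * (1 / 32) ^ m := by
    refine (nmul _ _).trans ?_
    have e3 : (m + 1 : ℝ[X]) * (C b * X ^ g') = ((m + 1 : ℕ) : ℝ[X]) * (C b * X ^ g') := by
      push_cast
      ring
    rw [e3, nnat, hCX]
    push_cast
    exact mul_le_mul_of_nonneg_left (hPm m) (by positivity)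
  have r2 : NN (fun _ => 0) (((m + 1).choose 2 : ℝ[X]) * (C f * X ^ g) ^ 2 * P ^ (m - 1)) ≤
      ((m + 1).choose 2 : ℕ) * f ^ 2 * (1 / 32) ^ (m - 1) := by
    refine (nmul _ _).trans ?_
    rw [nnat]
    refine mul_le_mul ?_ (hPm (m - 1)) (nnn _ _) (by positivity)
    refine mul_le_mul_of_nonneg_left ?_ (by positivity)
    refine (npow _ 2).trans ?_
    rw [hCX, hfa]
  have e4 : X ^ (g + g') * S = (PK s (K + 1)) ^ (m + 1) - P ^ (m + 1) -
      (m + 1 : ℝ[X]) * (C f * X ^ g) * P ^ m -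
      (((m + 1).choose 2 : ℝ[X]) * (C f * X ^ g) ^ 2 * P ^ (m - 1) +
        (m + 1 : ℝ[X]) * (C b * X ^ g') * P ^ m) := by
    rw [hS]
    ring
  rw [e4]
  refine (nsub _ _ _).trans ?_
  refine (add_le_add ((nsub _ _ _).trans (add_le_add r0 r1))
    ((nadd _ _ _).trans (add_le_add r2 r3))).trans ?_
  exact real_main m f |b| ((1 / 2) ^ (K + 7)) hf0.le hf3 hba hf2 _ rD

end Pool.Agent.CPW
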