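import Pool.Agent.CPW.Targets

set_option autoImplicit false

/-!
# CPW: TTT, the tree
-/

namespace Pool.Agent.CPW

open Polynomial Filter Topology
open Pool.Agent.CycP

namespace TTT_

/-- the sum `cv` at `n = 2 g k + v` -/
lemma cv_eq (s : Sq) (p : ℂ[X]) (k n : ℕ)
    (hle : ∀ l, l ≤ 2 * k + 2 → x s l ≤ n) (hgt : ∀ l, 2 * k + 3 ≤ l → n < x s l)
    (hid : ∀ l, l ≤ x s l) :
    cv s p n = ((a s k : ℂ) * p.coeff (n - x s k) +
      ∑ l ∈ (Finset.range (2 * k + 1)).erase k, (a s l : ℂ) * p.coeff (n - x s l)) +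
      (a s (2 * k + 1) : ℂ) * p.coeff (n - x s (2 * k + 1)) +
      (a s (2 * k + 2) : ℂ) * p.coeff (n - x s (2 * k + 2)) := by
  have hsub : Finset.range (2 * k + 3) ⊆ Finset.range (n + 1) := by
    intro l hl
    rw [Finset.mem_range] at hl ⊢
    have := hle l (by omega)
    have := hid l
    omega
  have e1 : cv s p n = ∑ l ∈ Finset.range (2 * k + 3), (a s l : ℂ) * p.coeff (n - x s l) := by
    unfold cv
    rw [← Finset.sum_subset hsub]
    · refine Finset.sum_congr rfl fun l hl => ?_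
      rw [Finset.mem_range] at hl
      rw [if_pos (hle l (by omega))]
    · intro l _ hl
      rw [Finset.mem_range, not_lt] at hl
      rw [if_neg (not_le.mpr (hgt l hl))]
  have hmem : k ∈ Finset.range (2 * k + 1) := by
    rw [Finset.mem_range]; omega
  rw [e1, Finset.sum_range_succ, Finset.sum_range_succ,
    ← Finset.add_sum_erase (Finset.range (2 * k + 1)) _ hmem]

/-- the final estimate -/
lemma fin_est (q P T A B : ℝ) (u w e D D' E F : ℕ) (hq : 0 ≤ q)
    (hP : (1 / 2 : ℝ) ^ w * P ≤ T + (1 / 2) ^ u * A + (1 / 2) ^ e * B)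
    (hT : T * 2 ^ E ≤ q * 2 ^ F) (hA : A ≤ (1 / 2) ^ w * q * (1 / 2) ^ D)
    (hB : B ≤ (1 / 2) ^ e * q * (1 / 2) ^ D) (huw : w + u = 2 * e + 1)
    (hD : D' + 3 ≤ D) (hE : w + u + F + D' + 1 ≤ E) :
    P ≤ (1 / 2) ^ u * q * (1 / 2) ^ D' := by
  have h2 : ∀ n : ℕ, (2 : ℝ) ^ n * (1 / 2) ^ n = 1 := by
    intro n
    rw [← mul_pow]; norm_num
  have hw0 : (0 : ℝ) < 2 ^ w := by positivity
  -- multiply by `2 ^ w`
  have h3 : P ≤ 2 ^ w * T + 2 ^ w * ((1 / 2) ^ u * A) + 2 ^ w * ((1 / 2) ^ e * B) := by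
    have := mul_le_mul_of_nonneg_left hP hw0.le
    have e4 : (2 : ℝ) ^ w * ((1 / 2) ^ w * P) = P := by
      rw [← mul_assoc, h2, one_mul]
    rw [e4] at this
    linarith
  -- first term
  have hT' : 2 ^ w * T ≤ 1 / 2 * ((1 / 2) ^ u * q * (1 / 2) ^ D') := by
    have hTE : T ≤ q * 2 ^ F * (1 / 2) ^ E := by
      have := mul_le_mul_of_nonneg_right hT (by positivity : (0 : ℝ) ≤ (1 / 2) ^ E)
      rw [mul_assoc T, h2, mul_one] at this
      exact this
    obtain ⟨r, hr⟩ := Nat.exists_eq_add_of_le hE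
    have e5 : (2 : ℝ) ^ w * (q * 2 ^ F * (1 / 2) ^ E) =
        q * (1 / 2) ^ u * (1 / 2) ^ D' * (1 / 2) * (1 / 2) ^ r := by
      rw [hr, pow_add, pow_add, pow_add, pow_add, pow_add, pow_one]
      calc (2 : ℝ) ^ w * (q * 2 ^ F * ((1 / 2) ^ w * (1 / 2) ^ u * (1 / 2) ^ F *
            (1 / 2) ^ D' * (1 / 2) * (1 / 2) ^ r))
          = (2 ^ w * (1 / 2) ^ w) * (2 ^ F * (1 / 2) ^ F) *
            (q * (1 / 2) ^ u * (1 / 2) ^ D' * (1 / 2) * (1 / 2) ^ r) := by ring
        _ = _ := by rw [h2, h2]; ring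
    have h6 : (2 : ℝ) ^ w * T ≤ q * (1 / 2) ^ u * (1 / 2) ^ D' * (1 / 2) * (1 / 2) ^ r := by
      rw [← e5]
      exact mul_le_mul_of_nonneg_left hTE hw0.le
    have h7 : ((1 : ℝ) / 2) ^ r ≤ 1 := pow_le_one₀ (by norm_num) (by norm_num)
    have h8 : q * (1 / 2) ^ u * (1 / 2) ^ D' * (1 / 2) * (1 / 2) ^ r ≤
        q * (1 / 2) ^ u * (1 / 2) ^ D' * (1 / 2) * 1 :=
      mul_le_mul_of_nonneg_left h7 (by positivity)
    calc (2 : ℝ) ^ w * T ≤ _ := h6
      _ ≤ _ := h8
      _ = _ := by ring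
  obtain ⟨t, ht⟩ := Nat.exists_eq_add_of_le hD
  have h7 : ((1 : ℝ) / 2) ^ t ≤ 1 := pow_le_one₀ (by norm_num) (by norm_num)
  have hDD : ((1 : ℝ) / 2) ^ D ≤ 1 / 8 * (1 / 2) ^ D' := by
    rw [ht, pow_add, pow_add]
    have : ((1 : ℝ) / 2) ^ D' * (1 / 2) ^ 3 * (1 / 2) ^ t ≤ (1 / 2) ^ D' * (1 / 2) ^ 3 * 1 :=
      mul_le_mul_of_nonneg_left h7 (by positivity)
    calc _ ≤ _ := this
      _ = _ := by ring
  have hA' : 2 ^ w * ((1 / 2) ^ u * A) ≤ 1 / 8 * ((1 / 2) ^ u * q * (1 / 2) ^ D') := by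
    have h9 : 2 ^ w * ((1 / 2) ^ u * A) ≤ 2 ^ w * ((1 / 2) ^ u * ((1 / 2) ^ w * q *
        (1 / 2) ^ D)) := by gcongr
    calc _ ≤ _ := h9
      _ = (2 ^ w * (1 / 2) ^ w) * ((1 / 2) ^ u * q * (1 / 2) ^ D) := by ring
      _ = (1 / 2) ^ u * q * (1 / 2) ^ D := by rw [h2, one_mul]
      _ ≤ (1 / 2) ^ u * q * (1 / 8 * (1 / 2) ^ D') := by gcongr
      _ = _ := by ring
  have hB' : 2 ^ w * ((1 / 2) ^ e * B) ≤ 1 / 4 * ((1 / 2) ^ u * q * (1 / 2) ^ D') := by
    have h9 : 2 ^ w * ((1 / 2) ^ e * B) ≤ 2 ^ w * ((1 / 2) ^ e * ((1 / 2) ^ e * q *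
        (1 / 2) ^ D)) := by gcongr
    have e6 : ((1 : ℝ) / 2) ^ e * (1 / 2) ^ e = 2 * ((1 / 2) ^ w * (1 / 2) ^ u) := by
      rw [← pow_add, ← pow_add, huw, pow_succ, show e + e = 2 * e by ring]
      ring
    calc _ ≤ _ := h9
      _ = 2 ^ w * (((1 / 2) ^ e * (1 / 2) ^ e) * (q * (1 / 2) ^ D)) := by ring
      _ = (2 ^ w * (1 / 2) ^ w) * (2 * ((1 / 2) ^ u * q * (1 / 2) ^ D)) := by rw [e6]; ring
      _ = 2 * ((1 / 2) ^ u * q * (1 / 2) ^ D) := by rw [h2, one_mul]
      _ ≤ 2 * ((1 / 2) ^ u * q * (1 / 8 * (1 / 2) ^ D')) := by gcongr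
      _ = _ := by ring
  have h10 : 0 ≤ (1 / 2 : ℝ) ^ u * q * (1 / 2) ^ D' := by positivity
  linarith

end TTT_

open TTT_ in
/-- the target TTT -/
theorem p_TTT (h1 : T_XFA) (h2 : T_BBB) : T_TTT := by
  intro s hs kap p c M hc hM hk H2 H3
  obtain ⟨x1, x2, ⟨x30, x31⟩, x4, x5, x6, x7, x8, x9, ⟨x100, x10⟩, x11⟩ := h1 s hs
  obtain ⟨b1, b2, b3, b4, b5, b6, b7, b8⟩ := h2 s hs
  have hq : 0 ≤ c + M := by linarith
  have key : ∀ d k, 1 ≤ k → p.natDegree < k + d → ∀ v ≤ V s k,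
      ‖p.coeff (v + x s k)‖ ≤ (1 / 2) ^ al s k * (c + M) * (1 / 2) ^ Dp s ((k - 1) / 2) := by
    intro d
    induction d with
    | zero =>
      intro k _ hd v _
      have := x6 k
      rw [Polynomial.coeff_eq_zero_of_natDegree_lt (by omega), norm_zero]
      positivity
    | succ d ih =>
      intro k hk1 hd v hv
      have z1 := x1 k
      have z2 := x10 k
      have z3 := x31 k
      have z4 := x7 k
      have z5 := x9 k
      have hxk : x s k < s.Z k := (x4 k k (by omega)).2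
      have hvk : v ≤ s.Z k := by omega
      have hzs := hs.zs k
      have i1 := ih (2 * k + 1) (by omega) (by omega) v (by omega)
      have i2 := ih (2 * k + 2) (by omega) (by omega) v (by omega)
      have j1 : (2 * k + 1 - 1) / 2 = k := by omega
      have j2 : (2 * k + 2 - 1) / 2 = k := by omega
      rw [j1] at i1
      rw [j2] at i2
      obtain ⟨n, hn⟩ : ∃ n, n = 2 * s.g k + v := ⟨_, rfl⟩
      have hle : ∀ l, l ≤ 2 * k + 2 → x s l ≤ n := by
        intro l hl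
        rcases Nat.lt_or_ge (2 * k) l with h | h
        · have : l = 2 * k + 1 ∨ l = 2 * k + 2 := by omega
          rcases this with h | h <;> rw [h] <;> omega
        · have := (x4 k l h).2
          omega
      have hgt : ∀ l, 2 * k + 3 ≤ l → n < x s l := by
        intro l hl
        have := x5 (k + 1) l (by omega)
        have := (x1 (k + 1)).2.2.1
        omega
      have hcv := cv_eq s p k n hle hgt x6
      have en1 : n - x s k = v + x s (2 * k + 2) := by omega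
      have en2 : n - x s (2 * k + 1) = v + x s (2 * k + 1) := by omega
      have en3 : n - x s (2 * k + 2) = v + x s k := by omega
      rw [en1, en2, en3] at hcv
      obtain ⟨j, hj⟩ : ∃ j, j = (k - 1) / 2 := ⟨_, rfl⟩
      obtain ⟨c1, c2⟩ := b8 k hk1 v hv
      rw [← hj, ← hn] at c1
      rw [← hj] at c2
      obtain ⟨E, hE⟩ : ∃ E, E = et s k + Lp s j := ⟨_, rfl⟩
      rw [← hE] at c1
      have hn1 : 1 ≤ n := by omega
      have t1 : ‖cv s p n - p.coeff n‖ * 2 ^ E ≤ c := by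
        refine le_trans ?_ (H2 n hn1)
        exact mul_le_mul_of_nonneg_left (pow_le_pow_right₀ (by norm_num) c1) (norm_nonneg _)
      have bnd : ∀ m, m ≤ n → E ≤ bb s m → ‖p.coeff m‖ * 2 ^ E ≤ M * 2 ^ (k + 9) := by
        intro m hm hEm
        have h5 : ‖p.coeff m‖ * 2 ^ E ≤ ‖p.coeff m‖ * 2 ^ bb s m :=
          mul_le_mul_of_nonneg_left (pow_le_pow_right₀ (by norm_num) hEm) (norm_nonneg _)
        have h6 : kap m ≤ k + 1 := hk m (k + 1) (by omega)
        have h7 : M * (2 : ℝ) ^ (kap m + 8) ≤ M * 2 ^ (k + 9) :=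
          mul_le_mul_of_nonneg_left (pow_le_pow_right₀ (by norm_num) (by omega)) hM
        exact h5.trans ((H3 m).trans h7)
      have t2 := bnd n le_rfl c1
      have t3 : ‖∑ l ∈ (Finset.range (2 * k + 1)).erase k,
          (a s l : ℂ) * p.coeff (n - x s l)‖ * 2 ^ E ≤ 1 / 32 * (M * 2 ^ (k + 9)) := by
        have h5 : ∀ l ∈ (Finset.range (2 * k + 1)).erase k,
            ‖(a s l : ℂ) * p.coeff (n - x s l)‖ * 2 ^ E ≤ |a s l| * (M * 2 ^ (k + 9)) := by
          intro l hl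
          rw [Finset.mem_erase, Finset.mem_range] at hl
          have h6 := c2 l (by omega) hl.1
          rw [← hn, ← hE] at h6
          have h7 := bnd (n - x s l) (Nat.sub_le _ _) h6
          rw [norm_mul, Complex.norm_real, Real.norm_eq_abs, mul_assoc]
          exact mul_le_mul_of_nonneg_left h7 (abs_nonneg _)
        have h8 : ∑ l ∈ (Finset.range (2 * k + 1)).erase k, |a s l| ≤ 1 / 32 :=
          (Finset.sum_le_sum_of_subset_of_nonneg (Finset.erase_subset _ _)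
            (fun _ _ _ => abs_nonneg _)).trans (x11 k)
        calc _ ≤ (∑ l ∈ (Finset.range (2 * k + 1)).erase k,
              ‖(a s l : ℂ) * p.coeff (n - x s l)‖) * 2 ^ E :=
              mul_le_mul_of_nonneg_right (norm_sum_le _ _) (by positivity)
          _ = ∑ l ∈ (Finset.range (2 * k + 1)).erase k,
              ‖(a s l : ℂ) * p.coeff (n - x s l)‖ * 2 ^ E := by rw [Finset.sum_mul]
          _ ≤ ∑ l ∈ (Finset.range (2 * k + 1)).erase k, |a s l| * (M * 2 ^ (k + 9)) :=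
              Finset.sum_le_sum h5
          _ = (∑ l ∈ (Finset.range (2 * k + 1)).erase k, |a s l|) * (M * 2 ^ (k + 9)) := by
              rw [Finset.sum_mul]
          _ ≤ _ := mul_le_mul_of_nonneg_right h8 (by positivity)
      obtain ⟨S, hS⟩ : ∃ S : ℂ, S = ∑ l ∈ (Finset.range (2 * k + 1)).erase k,
          (a s l : ℂ) * p.coeff (n - x s l) := ⟨_, rfl⟩
      rw [← hS] at hcv t3
      have eP : (a s (2 * k + 2) : ℂ) * p.coeff (v + x s k) =
          (cv s p n - p.coeff n) + p.coeff n - S -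
            (a s k : ℂ) * p.coeff (v + x s (2 * k + 2)) -
            (a s (2 * k + 1) : ℂ) * p.coeff (v + x s (2 * k + 1)) := by
        rw [hcv]; ring
      have n1 := (x9 (2 * k + 2)).1
      have n2 := (x9 (2 * k + 1)).1
      have n3 := (x9 k).1
      have m1 : (1 / 2 : ℝ) ^ al s (2 * k + 2) * ‖p.coeff (v + x s k)‖ ≤
          (‖cv s p n - p.coeff n‖ + ‖p.coeff n‖ + ‖S‖) +
            (1 / 2) ^ al s k * ‖p.coeff (v + x s (2 * k + 2))‖ +
            (1 / 2) ^ al s (2 * k + 1) * ‖p.coeff (v + x s (2 * k + 1))‖ := by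
        rw [← n1, ← n2, ← n3, ← Real.norm_eq_abs, ← Real.norm_eq_abs, ← Real.norm_eq_abs,
          ← Complex.norm_real, ← Complex.norm_real, ← Complex.norm_real, ← norm_mul,
          ← norm_mul, ← norm_mul, eP]
        refine (norm_sub_le _ _).trans ?_
        gcongr
        refine (norm_sub_le _ _).trans ?_
        gcongr
        refine (norm_sub_le _ _).trans ?_
        gcongr
        exact norm_add_le _ _
      have m2 : (‖cv s p n - p.coeff n‖ + ‖p.coeff n‖ + ‖S‖) * 2 ^ E ≤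
          (c + M) * 2 ^ (k + 10) := by
        have e7 : (2 : ℝ) ^ (k + 10) = 2 * 2 ^ (k + 9) := by rw [pow_succ]; ring
        have h9 : (1 : ℝ) ≤ 2 ^ (k + 9) := one_le_pow₀ (by norm_num)
        have h10 : c ≤ c * 2 ^ (k + 9) := le_mul_of_one_le_right hc h9
        have h11 : 0 ≤ M * 2 ^ (k + 9) := by positivity
        have h12 : 0 ≤ c * 2 ^ (k + 9) := by positivity
        rw [e7]
        nlinarith
      rw [z4.1] at m1 i1
      refine fin_est (c + M) _ _ _ _ _ _ _ (Dp s k) _ E (k + 10) hq m1 m2 i2 i1 ?_ ?_ ?_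
      · omega
      · -- `Dp j + 3 ≤ Dp k`
        rw [← hj]
        unfold Dp
        have h5 : s.Z (j + 1) ≤ s.Z k := (x2 (j + 1) k (by omega)).1
        have h6 := hs.zs j
        have h7 := x1 j
        omega
      · -- exponents
        rw [← hj, hE]
        have h5 : al s k ≤ 2 * Ep s j + 1 := by
          have h6 := x7 j
          have h7 : k = 2 * j + 1 ∨ k = 2 * j + 2 := by omega
          rcases h7 with h | h <;> rw [h] <;> omega
        have h6 := x8 k k (by omega)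
        unfold Ep at z4 h5
        unfold Dp Lp et
        omega
  intro k hk1 v hv
  exact key (p.natDegree + 1) k hk1 (by omega) v hv

end Pool.Agent.CPW
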