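import Pool.Agent.CPW.Targets2

set_option autoImplicit false

/-! WSA: von Neumann's inequality for weighted shifts. -/

namespace Pool.Agent.CPW

open Polynomial Filter Topology
open scoped ComplexConjugate

namespace WSA_

/-- orthogonality -/
lemma orth {R : ℕ} {ω : ℂ} (hω : IsPrimitiveRoot ω R) (hn : ‖ω‖ = 1) {a b : ℕ} (ha : a < R)
    (hb : b < R) : ∑ j ∈ Finset.range R, ω ^ (j * a) * conj (ω ^ (j * b)) =
      if a = b then (R : ℂ) else 0 := by
  have h1 : ω * conj ω = 1 := by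
    rw [Complex.mul_conj', hn]; norm_num
  have e : ∀ j, ω ^ (j * a) * conj (ω ^ (j * b)) = (ω ^ a * conj ω ^ b) ^ j := by
    intro j
    rw [map_pow, mul_pow, ← pow_mul, ← pow_mul, mul_comm j a, mul_comm j b]
  simp_rw [e]
  have hbb : ω ^ b * conj ω ^ b = 1 := by rw [← mul_pow, h1, one_pow]
  split_ifs with hab
  · subst hab
    simp [hbb]
  · have hz1 : ω ^ a * conj ω ^ b ≠ 1 := by
      intro h
      apply hab
      apply hω.pow_inj ha hb
      calc ω ^ a = ω ^ a * (ω ^ b * conj ω ^ b) := by rw [hbb, mul_one]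
        _ = (ω ^ a * conj ω ^ b) * ω ^ b := by ring
        _ = ω ^ b := by rw [h, one_mul]
    have hzR : (ω ^ a * conj ω ^ b) ^ R = 1 := by
      rw [mul_pow, ← pow_mul, ← pow_mul, mul_comm a R, mul_comm b R, pow_mul, pow_mul,
        hω.pow_eq_one, one_pow, one_mul, ← map_pow, hω.pow_eq_one, map_one, one_pow]
    have h2 := geom_sum_mul (ω ^ a * conj ω ^ b) R
    rw [hzR, sub_self] at h2
    exact (mul_eq_zero.1 h2).resolve_right (sub_ne_zero.2 hz1)

lemma pars {R N : ℕ} {ω : ℂ} (hω : IsPrimitiveRoot ω R) (hn : ‖ω‖ = 1) (hNR : N ≤ R)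
    (x : ℕ → ℂ) : ∑ j ∈ Finset.range R, ‖∑ n ∈ Finset.range N, x n * ω ^ (j * n)‖ ^ 2 =
      R * ∑ n ∈ Finset.range N, ‖x n‖ ^ 2 := by
  have h : ((∑ j ∈ Finset.range R, ‖∑ n ∈ Finset.range N, x n * ω ^ (j * n)‖ ^ 2 : ℝ) : ℂ) =
      ((R * ∑ n ∈ Finset.range N, ‖x n‖ ^ 2 : ℝ) : ℂ) := by
    push_cast
    calc ∑ j ∈ Finset.range R, (‖∑ n ∈ Finset.range N, x n * ω ^ (j * n)‖ : ℂ) ^ 2
        = ∑ j ∈ Finset.range R, ∑ n ∈ Finset.range N, ∑ m ∈ Finset.range N,
          (x n * conj (x m)) * (ω ^ (j * n) * conj (ω ^ (j * m))) := by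
          refine Finset.sum_congr rfl fun j _ => ?_
          rw [← Complex.mul_conj', map_sum, Finset.sum_mul_sum]
          refine Finset.sum_congr rfl fun n _ => Finset.sum_congr rfl fun m _ => ?_
          rw [map_mul]; ring
      _ = ∑ n ∈ Finset.range N, ∑ m ∈ Finset.range N, (x n * conj (x m)) *
          ∑ j ∈ Finset.range R, (ω ^ (j * n) * conj (ω ^ (j * m))) := by
          rw [Finset.sum_comm]
          refine Finset.sum_congr rfl fun n _ => ?_
          rw [Finset.sum_comm]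
          refine Finset.sum_congr rfl fun m _ => ?_
          rw [Finset.mul_sum]
      _ = ∑ n ∈ Finset.range N, (x n * conj (x n)) * R := by
          refine Finset.sum_congr rfl fun n hn' => ?_
          have h1 := Finset.mem_range.1 hn'
          rw [Finset.sum_eq_single n]
          · rw [orth hω hn (by omega) (by omega), if_pos rfl]
          · intro m hm hmn
            have h2 := Finset.mem_range.1 hm
            rw [orth hω hn (by omega) (by omega), if_neg (Ne.symm hmn), mul_zero]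
          · intro h
            exact absurd hn' h
      _ = _ := by
          rw [Finset.mul_sum]
          refine Finset.sum_congr rfl fun n _ => ?_
          rw [Complex.mul_conj']; ring
  exact_mod_cast h

lemma re4 (A B C D : Finset ℕ) (f : ℕ → ℕ → ℕ → ℕ → ℂ) :
    ∑ j ∈ A, ∑ k ∈ B, ∑ n ∈ C, ∑ m ∈ D, f j k n m =
      ∑ m ∈ D, ∑ n ∈ C, ∑ k ∈ B, ∑ j ∈ A, f j k n m := by
  calc ∑ j ∈ A, ∑ k ∈ B, ∑ n ∈ C, ∑ m ∈ D, f j k n m
      = ∑ k ∈ B, ∑ j ∈ A, ∑ n ∈ C, ∑ m ∈ D, f j k n m := Finset.sum_comm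
    _ = ∑ k ∈ B, ∑ n ∈ C, ∑ j ∈ A, ∑ m ∈ D, f j k n m :=
        Finset.sum_congr rfl fun k _ => Finset.sum_comm
    _ = ∑ k ∈ B, ∑ n ∈ C, ∑ m ∈ D, ∑ j ∈ A, f j k n m :=
        Finset.sum_congr rfl fun k _ => Finset.sum_congr rfl fun n _ => Finset.sum_comm
    _ = ∑ n ∈ C, ∑ k ∈ B, ∑ m ∈ D, ∑ j ∈ A, f j k n m := Finset.sum_comm
    _ = ∑ n ∈ C, ∑ m ∈ D, ∑ k ∈ B, ∑ j ∈ A, f j k n m :=
        Finset.sum_congr rfl fun n _ => Finset.sum_comm
    _ = _ := Finset.sum_comm

/-- analytic Toeplitz matrices -/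
lemma toep (p : ℂ[X]) (M : ℝ) (hM : ∀ z : ℂ, ‖z‖ = 1 → ‖p.eval z‖ ≤ M) (N : ℕ) (x y : ℕ → ℂ) :
    ‖∑ m ∈ Finset.range N, ∑ n ∈ Finset.range (m + 1), p.coeff (m - n) * x n * y m‖ ≤
    M * √(∑ n ∈ Finset.range N, ‖x n‖ ^ 2) * √(∑ n ∈ Finset.range N, ‖y n‖ ^ 2) := by
  have hM0 : 0 ≤ M := (norm_nonneg _).trans (hM 1 (by simp))
  obtain ⟨K, hK1, hK2⟩ : ∃ K, p.natDegree < K ∧ N ≤ K :=
    ⟨p.natDegree + 1 + N, by omega, by omega⟩
  obtain ⟨R, hR⟩ : ∃ R, R = K + N := ⟨_, rfl⟩
  have hR0 : 0 < R := by omega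
  obtain ⟨ω, hω⟩ : ∃ ω : ℂ, IsPrimitiveRoot ω R :=
    ⟨_, Complex.isPrimitiveRoot_exp R hR0.ne'⟩
  have hn : ‖ω‖ = 1 := hω.norm'_eq_one hR0.ne'
  set T := ∑ m ∈ Finset.range N, ∑ n ∈ Finset.range (m + 1), p.coeff (m - n) * x n * y m with hTd
  set Xf : ℕ → ℂ := fun j => ∑ n ∈ Finset.range N, x n * ω ^ (j * n) with hXf
  set Yf : ℕ → ℂ := fun j => ∑ n ∈ Finset.range N, conj (y n) * ω ^ (j * n) with hYf
  have hT : ∑ j ∈ Finset.range R, p.eval (ω ^ j) * Xf j * conj (Yf j) = (R : ℂ) * T := by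
    calc ∑ j ∈ Finset.range R, p.eval (ω ^ j) * Xf j * conj (Yf j)
        = ∑ j ∈ Finset.range R, ∑ k ∈ Finset.range K, ∑ n ∈ Finset.range N,
          ∑ m ∈ Finset.range N, (p.coeff k * x n * y m) *
            (ω ^ (j * (k + n)) * conj (ω ^ (j * m))) := by
          refine Finset.sum_congr rfl fun j _ => ?_
          rw [Polynomial.eval_eq_sum_range' hK1, Finset.sum_mul_sum, map_sum, Finset.sum_mul]
          refine Finset.sum_congr rfl fun k _ => ?_
          rw [Finset.sum_mul_sum]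
          refine Finset.sum_congr rfl fun n _ => Finset.sum_congr rfl fun m _ => ?_
          rw [map_mul, Complex.conj_conj, mul_add, pow_add, ← pow_mul]; ring
      _ = ∑ m ∈ Finset.range N, ∑ n ∈ Finset.range N, ∑ k ∈ Finset.range K,
          (p.coeff k * x n * y m) * ∑ j ∈ Finset.range R,
            (ω ^ (j * (k + n)) * conj (ω ^ (j * m))) := by
          rw [re4]
          simp_rw [Finset.mul_sum]
      _ = ∑ m ∈ Finset.range N, ∑ n ∈ Finset.range (m + 1),
          (R : ℂ) * (p.coeff (m - n) * x n * y m) := by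
          refine Finset.sum_congr rfl fun m hm => ?_
          have hm' := Finset.mem_range.1 hm
          have hsub : Finset.range (m + 1) ⊆ Finset.range N := by
            intro n hn'
            rw [Finset.mem_range] at hn' ⊢
            omega
          rw [← Finset.sum_subset hsub]
          · refine Finset.sum_congr rfl fun n hn' => ?_
            have h1 := Finset.mem_range.1 hn'
            rw [Finset.sum_eq_single (m - n)]
            · rw [orth hω hn (by omega) (by omega), if_pos (by omega)]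
              ring
            · intro k hk hkn
              have h2 := Finset.mem_range.1 hk
              rw [orth hω hn (by omega) (by omega), if_neg (by omega), mul_zero]
            · intro h
              exact absurd (Finset.mem_range.2 (by omega : m - n < K)) h
          · intro n hn1 hn2
            have h1 := Finset.mem_range.1 hn1
            have h3 : ¬ n < m + 1 := fun h => hn2 (Finset.mem_range.2 h)
            refine Finset.sum_eq_zero fun k hk => ?_
            have h2 := Finset.mem_range.1 hk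
            rw [orth hω hn (by omega) (by omega), if_neg (by omega), mul_zero]
      _ = _ := by
          rw [hTd, Finset.mul_sum]
          refine Finset.sum_congr rfl fun m _ => ?_
          rw [Finset.mul_sum]
  have hRp : (0 : ℝ) < R := by exact_mod_cast hR0
  have hX := pars hω hn (by omega : N ≤ R) x
  have hY := pars hω hn (by omega : N ≤ R) (fun n => conj (y n))
  simp only [RCLike.norm_conj] at hY
  have hRT : (R : ℝ) * ‖T‖ ≤ R * (M * √(∑ n ∈ Finset.range N, ‖x n‖ ^ 2) *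
      √(∑ n ∈ Finset.range N, ‖y n‖ ^ 2)) := by
    calc (R : ℝ) * ‖T‖ = ‖∑ j ∈ Finset.range R, p.eval (ω ^ j) * Xf j * conj (Yf j)‖ := by
          rw [hT, norm_mul]; simp
      _ ≤ ∑ j ∈ Finset.range R, M * (‖Xf j‖ * ‖Yf j‖) := by
          refine (norm_sum_le _ _).trans (Finset.sum_le_sum fun j _ => ?_)
          rw [norm_mul, norm_mul, RCLike.norm_conj, mul_assoc]
          gcongr
          exact hM _ (by rw [norm_pow, hn, one_pow])
      _ = M * ∑ j ∈ Finset.range R, ‖Xf j‖ * ‖Yf j‖ := by rw [Finset.mul_sum]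
      _ ≤ M * (√(∑ j ∈ Finset.range R, ‖Xf j‖ ^ 2) * √(∑ j ∈ Finset.range R, ‖Yf j‖ ^ 2)) := by
          gcongr
          exact Real.sum_mul_le_sqrt_mul_sqrt _ _ _
      _ = _ := by
          rw [hX, hY, Real.sqrt_mul hRp.le, Real.sqrt_mul hRp.le]
          have := Real.mul_self_sqrt hRp.le
          linear_combination (M * √(∑ n ∈ Finset.range N, ‖x n‖ ^ 2) *
            √(∑ n ∈ Finset.range N, ‖y n‖ ^ 2)) * this
  exact le_of_mul_le_mul_left hRT hRp

/-- the form -/
noncomputable def F (p : ℂ[X]) (N : ℕ) (x y : ℕ → ℂ) (w : ℕ → ℝ) : ℂ :=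
  ∑ m ∈ Finset.range N, ∑ n ∈ Finset.range (m + 1),
      p.coeff (m - n) * (∏ i ∈ Finset.Ico n m, (w i : ℂ)) * x n * y m

lemma prodaff (w : ℕ → ℝ) (k : ℕ) (s : Finset ℕ) :
    ∏ i ∈ s, (w i : ℂ) = (((1 + w k) / 2 : ℝ) : ℂ) *
        ∏ i ∈ s, ((Function.update w k 1 i : ℝ) : ℂ) +
      (((1 - w k) / 2 : ℝ) : ℂ) * ∏ i ∈ s, ((Function.update w k (-1) i : ℝ) : ℂ) := by
  by_cases hk : k ∈ s
  · have e : ∀ v : ℝ, ∏ i ∈ s, ((Function.update w k v i : ℝ) : ℂ) =
        v * ∏ i ∈ s.erase k, (w i : ℂ) := by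
      intro v
      rw [← Finset.mul_prod_erase s _ hk, Function.update_self]
      congr 1
      refine Finset.prod_congr rfl fun i hi => ?_
      rw [Function.update_of_ne (Finset.ne_of_mem_erase hi)]
    rw [e, e, ← Finset.mul_prod_erase s _ hk]
    push_cast
    ring
  · have e : ∀ v : ℝ, ∏ i ∈ s, ((Function.update w k v i : ℝ) : ℂ) = ∏ i ∈ s, (w i : ℂ) := by
      intro v
      refine Finset.prod_congr rfl fun i hi => ?_
      have hne : i ≠ k := by
        rintro rfl
        exact hk hi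
      rw [Function.update_of_ne hne]
    rw [e, e]
    push_cast
    ring

lemma aff (p : ℂ[X]) (N : ℕ) (x y : ℕ → ℂ) (w : ℕ → ℝ) (k : ℕ) :
    F p N x y w = (((1 + w k) / 2 : ℝ) : ℂ) * F p N x y (Function.update w k 1) +
      (((1 - w k) / 2 : ℝ) : ℂ) * F p N x y (Function.update w k (-1)) := by
  unfold F
  rw [Finset.mul_sum, Finset.mul_sum, ← Finset.sum_add_distrib]
  refine Finset.sum_congr rfl fun m _ => ?_
  rw [Finset.mul_sum, Finset.mul_sum, ← Finset.sum_add_distrib]
  refine Finset.sum_congr rfl fun n _ => ?_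
  rw [prodaff w k (Finset.Ico n m)]
  ring

/-- signs -/
lemma signs (p : ℂ[X]) (M : ℝ) (hM : ∀ z : ℂ, ‖z‖ = 1 → ‖p.eval z‖ ≤ M) (N : ℕ) (x y : ℕ → ℂ)
    (w : ℕ → ℝ) (hw : ∀ n, n < N → (w n = 1 ∨ w n = -1)) :
    ‖F p N x y w‖ ≤
    M * √(∑ n ∈ Finset.range N, ‖x n‖ ^ 2) * √(∑ n ∈ Finset.range N, ‖y n‖ ^ 2) := by
  set s : ℕ → ℂ := fun n => ∏ i ∈ Finset.range n, (w i : ℂ) with hs
  have hss : ∀ n, n ≤ N → s n * s n = 1 := by
    intro n hn
    simp only [hs]
    rw [← Finset.prod_mul_distrib]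
    refine Finset.prod_eq_one fun i hi => ?_
    have h1 := Finset.mem_range.1 hi
    rcases hw i (by omega) with h | h <;> rw [h] <;> simp
  have hsn : ∀ n, n ≤ N → ‖s n‖ = 1 := by
    intro n hn
    have h1 := congrArg norm (hss n hn)
    rw [norm_mul, norm_one] at h1
    nlinarith [norm_nonneg (s n)]
  have h1 := toep p M hM N (fun n => s n * x n) (fun n => s n * y n)
  have e1 : ∑ n ∈ Finset.range N, ‖s n * x n‖ ^ 2 = ∑ n ∈ Finset.range N, ‖x n‖ ^ 2 := by
    refine Finset.sum_congr rfl fun n hn => ?_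
    rw [norm_mul, hsn n (Finset.mem_range.1 hn).le, one_mul]
  have e2 : ∑ n ∈ Finset.range N, ‖s n * y n‖ ^ 2 = ∑ n ∈ Finset.range N, ‖y n‖ ^ 2 := by
    refine Finset.sum_congr rfl fun n hn => ?_
    rw [norm_mul, hsn n (Finset.mem_range.1 hn).le, one_mul]
  rw [e1, e2] at h1
  refine le_trans (le_of_eq ?_) h1
  congr 1
  unfold F
  refine Finset.sum_congr rfl fun m hm => Finset.sum_congr rfl fun n hn => ?_
  have hm' := Finset.mem_range.1 hm
  have hn' := Finset.mem_range.1 hn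
  have h2 : s n * ∏ i ∈ Finset.Ico n m, (w i : ℂ) = s m :=
    Finset.prod_range_mul_prod_Ico (fun i => (w i : ℂ)) (by omega)
  have h3 : ∏ i ∈ Finset.Ico n m, (w i : ℂ) = s n * s m := by
    rw [← h2, ← mul_assoc, hss n (by omega), one_mul]
  rw [h3]
  ring

end WSA_

open WSA_ in
theorem p_WSA : T_WSA := by
  intro p M hM w hw N x y
  have key : ∀ k : ℕ, ∀ w : ℕ → ℝ, (∀ n, |w n| ≤ 1) →
      (∀ n, k ≤ n → n < N → (w n = 1 ∨ w n = -1)) → ‖F p N x y w‖ ≤
      M * √(∑ n ∈ Finset.range N, ‖x n‖ ^ 2) * √(∑ n ∈ Finset.range N, ‖y n‖ ^ 2) := by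
    intro k
    induction k with
    | zero =>
      intro w _ hw2
      exact signs p M hM N x y w fun n hn => hw2 n (Nat.zero_le n) hn
    | succ k ih =>
      intro w hw1 hw2
      have hv : ∀ v : ℝ, (v = 1 ∨ v = -1) → ‖F p N x y (Function.update w k v)‖ ≤
          M * √(∑ n ∈ Finset.range N, ‖x n‖ ^ 2) * √(∑ n ∈ Finset.range N, ‖y n‖ ^ 2) := by
        intro v hv
        refine ih _ ?_ ?_
        · intro n
          by_cases hn : n = k
          · subst hn
            rw [Function.update_self]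
            rcases hv with rfl | rfl <;> simp
          · rw [Function.update_of_ne hn]
            exact hw1 n
        · intro n hkn hnN
          by_cases hn : n = k
          · subst hn
            rw [Function.update_self]
            exact hv
          · rw [Function.update_of_ne hn]
            exact hw2 n (by omega) hnN
      have h1 := hv 1 (Or.inl rfl)
      have h2 := hv (-1) (Or.inr rfl)
      obtain ⟨h3, h4⟩ := abs_le.1 (hw1 k)
      have h5 : 0 ≤ (1 + w k) / 2 := by linarith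
      have h6 : 0 ≤ (1 - w k) / 2 := by linarith
      rw [aff p N x y w k]
      refine (norm_add_le _ _).trans ?_
      rw [norm_mul, norm_mul, Complex.norm_real, Complex.norm_real, Real.norm_of_nonneg h5,
        Real.norm_of_nonneg h6]
      set B := M * √(∑ n ∈ Finset.range N, ‖x n‖ ^ 2) * √(∑ n ∈ Finset.range N, ‖y n‖ ^ 2)
      calc (1 + w k) / 2 * ‖F p N x y (Function.update w k 1)‖ +
          (1 - w k) / 2 * ‖F p N x y (Function.update w k (-1))‖
          ≤ (1 + w k) / 2 * B + (1 - w k) / 2 * B := by gcongr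
        _ = B := by ring
  exact key N w hw fun n h1 h2 => absurd h2 (not_lt.2 h1)

end Pool.Agent.CPW
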