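import Pool.Agent.CPW.Final
import Pool.Agent.CPW.P_SEQ
import Pool.Agent.CPW.P_XFA
import Pool.Agent.CPW.P_BNF
import Pool.Agent.CPW.P_BBA
import Pool.Agent.CPW.P_BBB
import Pool.Agent.CPW.P_COE
import Pool.Agent.CPW.P_TTT
import Pool.Agent.CPW.P_RWW
import Pool.Agent.CPW.P_CON
import Pool.Agent.CPW.P_ALG
import Pool.Agent.CPW.P_NNC
import Pool.Agent.CPW.P_PKF
import Pool.Agent.CPW.P_BNR
import Pool.Agent.CPW.P_STA
import Pool.Agent.CPW.P_STB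
import Pool.Agent.CPW.P_STC
import Pool.Agent.CPW.P_STD
import Pool.Agent.CPW.P_NRM
import Pool.Agent.CPW.P_PHC
import Pool.Agent.CPW.P_SPC
import Pool.Agent.CPW.P_MXD
import Pool.Agent.CPW.P_OPT
import Pool.Agent.CPW.P_CMP
import Pool.Agent.CPW.P_CYC
import Pool.Agent.CPW.P_NCY
import Pool.Agent.CPW.P_WSA
import Pool.Agent.CPW.P_MLA
import Pool.Agent.CPW.P_MLB

set_option autoImplicit false

/-!
# CPW: all hypotheses are discharged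
-/

namespace Pool.Agent.CPW

theorem XFA : T_XFA := p_XFA
theorem BNF : T_BNF := p_BNF XFA
theorem BBA : T_BBA := p_BBA XFA
theorem BBB : T_BBB := p_BBB XFA BNF BBA
theorem COE : T_COE := p_COE XFA
theorem TTT : T_TTT := p_TTT XFA BBB
theorem RWW : T_RWW := p_RWW XFA BBB TTT
theorem CON : T_CON := p_CON XFA BBB COE RWW
theorem PKF : T_PKF := p_PKF XFA p_NNC
theorem BNR : T_BNR := p_BNR XFA PKF
theorem STA : T_STA := p_STA XFA BBA BBB p_NNC PKF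
theorem STB : T_STB := p_STB XFA BBA BBB p_NNC PKF STA
theorem STC : T_STC := p_STC XFA BNF BBA BBB p_ALG p_NNC PKF BNR
theorem STD : T_STD := p_STD XFA BBA p_ALG p_NNC PKF
theorem NRM : T_NRM := p_NRM XFA BBA BBB p_ALG p_NNC PKF STA STB STC STD
theorem PHC : T_PHC := p_PHC XFA BBA p_NNC NRM

theorem MLA : T_MLA := p_MLA p_WSA

open Filter Topology Pool.Agent.CycP in
theorem thm (h : ℕ → ℝ) (h1 : ∀ n, 1 ≤ h n) (hh : Tendsto h atTop atTop) :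
    ∃ b : ℕ → ℝ, (∀ n, 1 ≤ b n ∧ b n ≤ h n ∧ b (n + 1) ≤ 2 * b n) ∧
      ∃ (A B : AnSpace 1 (Metric.ball 0 1) L2) (φ : B.maxDomain → A.maxDomain) (T : L2 →L[ℂ] L2),
        Hardy (fun _ => 1) A ∧ Hardy b B ∧
        A.maxDomain = Metric.ball 0 1 ∧ B.maxDomain = Metric.ball 0 1 ∧
        (∀ g, B.MultCyclic g → B.Cyclic g) ∧
        (∀ h : (Fin 1 → ℂ) → ℂ, B.IsMultiplier h ↔ ∃ H : ℂ → ℂ,
          DifferentiableOn ℂ H (Metric.ball 0 2) ∧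
          (∃ M : ℝ, ∀ z ∈ Metric.ball (0 : ℂ) 2, ‖H z‖ ≤ M) ∧
          ∀ w ∈ Metric.ball (0 : Fin 1 → ℂ) 1, h w = H (w 0)) ∧
        (∀ (f : L2) (w : B.maxDomain), B.ext (T f) w = A.ext f (φ w)) ∧
        A.Cyclic (A.poly (1 - MvPolynomial.C (1 / 2) * MvPolynomial.X 0)) ∧
        ¬ B.Cyclic (T (A.poly (1 - MvPolynomial.C (1 / 2) * MvPolynomial.X 0))) ∧ ¬ B.CP :=
  main p_SEQ XFA BBA BBB CON PHC p_SPC p_MXD p_OPT p_CMP p_CYC p_NCY MLA p_MLB h h1 hh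

end Pool.Agent.CPW
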