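import Pool.Agent.CycP.Defs

set_option autoImplicit false

/-!
# CPW: weighted Hardy spaces on the disc without (CP), arbitrarily close to `H²`

The weight is `b n = 2 ^ bb n`. Everything is explicit once the sequences `Z`, `Y`, `g` are given.
Zone `K` is `Z K ≤ n < Z (K + 1) = 3 g K`.
-/

namespace Pool.Agent.CPW

open Polynomial

/-- the free parameters -/
structure Sq where
  Z : ℕ → ℕ
  Y : ℕ → ℕ
  g : ℕ → ℕ

/-- the growth conditions -/
structure Ok (s : Sq) : Prop where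
  z0 : s.Z 0 = 2
  zs : ∀ K, s.Z (K + 1) = 3 * s.g K
  y1 : ∀ K, (5 * s.Z K + 9 * K + 70) * s.Z K ≤ s.Y K
  g1 : ∀ K, s.Y K + (4 * s.Z K + 8 * K + 60) + (3 * s.Z K + 6 * K + 47) + 4 * s.Z K ≤ s.g K

/-- `f K = 2 ^ (- Ep K)` -/
def Ep (s : Sq) (K : ℕ) : ℕ := s.Z K + K + 10

/-- height of the first window -/
def Up (s : Sq) (K : ℕ) : ℕ := s.Z K + 3

/-- `B K = 2 ^ (- Dp K)` -/
def Dp (s : Sq) (K : ℕ) : ℕ := s.Z K + 3

/-- height of the gaps in the node weights -/
def Lp (s : Sq) (K : ℕ) : ℕ := 3 * s.Z K + 6 * K + 47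

/-- height before the first window -/
def Tp (s : Sq) (K : ℕ) : ℕ := 4 * s.Z K + 8 * K + 60

/-- number of factors -/
def m0 (s : Sq) (K : ℕ) : ℕ := 5 * s.Z K + 9 * K + 70

/-- the exponents: `x 0 = 1`, `x (2j+1) = g j`, `x (2j+2) = 2 g j - x j` -/
def x (s : Sq) : ℕ → ℕ
  | 0 => 1
  | k + 1 => if k % 2 = 0 then s.g (k / 2) else 2 * s.g (k / 2) - x s (k / 2)
  decreasing_by omega

/-- `|a k| = 2 ^ (- al k)`: `al 0 = 6`, `al (2j+1) = E j`, `al (2j+2) = 2 E j + 1 - al j` -/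
def al (s : Sq) : ℕ → ℕ
  | 0 => 6
  | k + 1 => if k % 2 = 0 then Ep s (k / 2) else 2 * Ep s (k / 2) + 1 - al s (k / 2)
  decreasing_by omega

/-- the sign of `a k` -/
def sg : ℕ → ℝ
  | 0 => 1
  | k + 1 => if k % 2 = 0 then 1 else - sg (k / 2)
  decreasing_by omega

/-- the coefficients: `a (2j+2) = - a (2j+1) ^ 2 / (2 a j)` -/
noncomputable def a (s : Sq) (k : ℕ) : ℝ := sg k * (1 / 2) ^ al s k

/-- base range of the node `k` -/
def V (s : Sq) : ℕ → ℕ
  | 0 => 0
  | k + 1 => if k % 2 = 0 then s.Z (k / 2) else V s (k / 2)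
  decreasing_by omega

/-- height of the second window -/
def et (s : Sq) (K : ℕ) : ℕ := 2 * s.Z K + K + 13 - al s K

/-- the weight (exponent) which belongs to the node `k` -/
def bn (s : Sq) : ℕ → ℕ → ℕ
  | 0, _ => 0
  | k + 1, n =>
    if k % 2 = 0 then
      (if n ≤ s.g (k / 2) + s.Z (k / 2) then min (n - s.Y (k / 2)) (Lp s (k / 2)) else 0)
    else if n < s.g (k / 2) then min (n - s.Y (k / 2)) (Lp s (k / 2))
    else if n < 2 * s.g (k / 2) then min (n - s.g (k / 2) - s.Y (k / 2)) (Lp s (k / 2))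
    else 0

/-- the weight (exponent) on the first `K` zones, `0` afterwards -/
def bK (s : Sq) : ℕ → ℕ → ℕ
  | 0, _ => 0
  | K + 1, n =>
    if n < s.Z K then bK s K n
    else if n < s.g K then min (n - s.Y K) (Tp s K)
    else if n < 2 * s.g K - x s K then
      (if n - s.g K < s.Z K then bK s K (n - s.g K)
        else min (n - s.g K - s.Y K) (Tp s K)) + Up s K
    else if n < 2 * s.g K + 2 * s.Z K then et s K + bn s K (n - (2 * s.g K - x s K))
    else 0

/-- the exponent of the weight -/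
def bb (s : Sq) (n : ℕ) : ℕ := bK s (n + 1) n

/-- the polynomials which approximate `φ` -/
noncomputable def PK (s : Sq) (K : ℕ) : ℝ[X] :=
  ∑ l ∈ Finset.range (2 * K + 1), C (a s l) * X ^ x s l

/-- `P K` without the node `K` -/
noncomputable def RK (s : Sq) (K : ℕ) : ℝ[X] := PK s K - C (a s K) * X ^ x s K

/-- the function `φ` -/
noncomputable def ph (s : Sq) : PowerSeries ℂ :=
  PowerSeries.mk fun n => ∑ l ∈ Finset.range (n + 1), if x s l = n then (a s l : ℂ) else 0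

/-- weighted `ℓ¹` norm of a polynomial -/
noncomputable def NN (w : ℕ → ℕ) (u : ℝ[X]) : ℝ := ∑ n ∈ u.support, |u.coeff n| * 2 ^ w n

end Pool.Agent.CPW
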