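import Pool.Agent.CPW.Targets

set_option autoImplicit false

/-!
# CPW: the first window (target STB)
-/

namespace Pool.Agent.CPW

open Polynomial Filter Topology
open Pool.Agent.CycP

namespace STB_

lemma shift (s : Sq) (K t : ℕ) (hZg : s.Z K ≤ s.g K) (hxZ : x s K < s.Z K)
    (ht : t < s.g K - x s K) : bK s (K + 1) (s.g K + t) = bK s (K + 1) t + Up s K := by
  simp only [bK, Nat.add_sub_cancel_left]
  split_ifs <;> omega

/-- the numerical inequality -/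
lemma num (K m : ℕ) (Q : ℝ) (hQ : 1 / 8 ≤ Q) :
    Q ^ m + 2 * (1 / 2) ^ (K + 7) * Q ^ (m - 1) ≤ 9 / 8 * Q ^ m := by
  have he : ((1 : ℝ) / 2) ^ (K + 7) ≤ 1 / 128 := by
    have h1 : ((1 : ℝ) / 2) ^ K ≤ 1 := pow_le_one₀ (by norm_num) (by norm_num)
    rw [pow_add]
    have h2 : ((1 : ℝ) / 2) ^ 7 = 1 / 128 := by norm_num
    rw [h2]
    nlinarith
  have he0 : 0 < ((1 : ℝ) / 2) ^ (K + 7) := by positivity
  rcases Nat.eq_zero_or_pos m with rfl | hm
  · simp only [pow_zero, Nat.zero_sub]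
    linarith
  · obtain ⟨r, rfl⟩ : ∃ r, m = r + 1 := ⟨m - 1, by omega⟩
    rw [Nat.add_sub_cancel, pow_succ]
    have hr : 0 ≤ Q ^ r := by positivity
    have h3 : 2 * (1 / 2) ^ (K + 7) * Q ^ r ≤ 1 / 64 * Q ^ r := by nlinarith
    have h4 : 1 / 8 * Q ^ r ≤ Q ^ r * Q := by nlinarith
    linarith

lemma tail (T K m : ℕ) (Q : ℝ) (hQ : 1 / 8 ≤ Q) (hm : T + K + 7 ≤ 2 * m + 3) (hm1 : 1 ≤ m) :
    (2 : ℝ) ^ T * (1 / 32) ^ m ≤ (1 / 2) ^ (K + 7) * Q ^ (m - 1) := by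
  obtain ⟨r, rfl⟩ : ∃ r, m = r + 1 := ⟨m - 1, by omega⟩
  rw [Nat.add_sub_cancel]
  have h1 : ((1 : ℝ) / 8) ^ r ≤ Q ^ r := pow_le_pow_left₀ (by norm_num) hQ r
  have h2 : ((1 : ℝ) / 32) ^ (r + 1) = (1 / 2) ^ (2 * r + 5) * (1 / 8) ^ r := by
    have e1 : ((1 : ℝ) / 32) = (1 / 2) ^ 5 := by norm_num
    have e2 : ((1 : ℝ) / 8) = (1 / 2) ^ 3 := by norm_num
    rw [e1, e2, ← pow_mul, ← pow_mul, ← pow_add]
    congr 1
    ring
  have h3 : (2 : ℝ) ^ T * (1 / 2) ^ (2 * r + 5) ≤ (1 / 2) ^ (K + 7) := by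
    obtain ⟨e, he⟩ : ∃ e, 2 * r + 5 = T + (K + 7) + e := ⟨2 * r + 5 - (T + (K + 7)), by omega⟩
    rw [he, pow_add, pow_add]
    have e3 : (2 : ℝ) ^ T * ((1 / 2) ^ T * (1 / 2) ^ (K + 7) * (1 / 2) ^ e) =
        ((2 : ℝ) * (1 / 2)) ^ T * ((1 / 2) ^ (K + 7) * (1 / 2) ^ e) := by
      rw [mul_pow]
      ring
    rw [e3]
    have e4 : ((1 : ℝ) / 2) ^ e ≤ 1 := pow_le_one₀ (by norm_num) (by norm_num)
    have e5 : 0 < ((1 : ℝ) / 2) ^ (K + 7) := by positivity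
    norm_num
    norm_num at e4 e5
    nlinarith
  rw [h2]
  calc (2 : ℝ) ^ T * ((1 / 2) ^ (2 * r + 5) * (1 / 8) ^ r)
      = ((2 : ℝ) ^ T * (1 / 2) ^ (2 * r + 5)) * (1 / 8) ^ r := by ring
    _ ≤ (1 / 2) ^ (K + 7) * (1 / 8) ^ r := mul_le_mul_of_nonneg_right h3 (by positivity)
    _ ≤ (1 / 2) ^ (K + 7) * Q ^ r := mul_le_mul_of_nonneg_left h1 (by positivity)

end STB_

open STB_ in
theorem p_STB (h1 : T_XFA) (h2 : T_BBA) (h3 : T_BBB) (h4 : T_NNC) (h5 : T_PKF) (h6 : T_STA) :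
    T_STB := by
  intro s hs K Q hQ hN m
  obtain ⟨x1, x2, x3, x4, x5, x6, x7, x8, x9, x10, x11⟩ := h1 s hs
  obtain ⟨b1, b2, -⟩ := h2 s hs
  obtain ⟨-, -, c3, -⟩ := h3 s hs
  obtain ⟨-, -, -, -, n5, -, n7, -, n9, n10, n11, n12, -, -⟩ := h4
  obtain ⟨p1, -, p3, -, -, -, p7⟩ := h5 s hs K
  have hZ2 := (x1 K).1
  have hZg : s.Z K ≤ s.g K := by
    have := (x1 K).2.2.1
    omega
  have hxZ : x s K < s.Z K := (x4 K K (by omega)).2
  have hsta := h6 s hs K Q hQ hN m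
  have hQ0 : 0 < Q := by linarith
  set u := (PK s K) ^ m with hu
  have hf : a s (2 * K + 1) = (1 / 2) ^ Ep s K := (x9 K).2.1
  rw [mul_assoc, n5, n7, abs_of_pos p7, hf]
  -- the weight
  have hlarge : ∀ n, bK s (K + 1) n ≤ Tp s K + Up s K := by
    intro n
    rcases lt_or_ge n (s.Z (K + 1)) with h | h
    · rw [b1 (K + 1) n h]
      exact c3 K n h
    · rw [b2 (K + 1) n h]
      omega
  have hu0 : NN (fun _ => 0) u ≤ (1 / 32) ^ m := by
    refine (n9 _ _).trans ?_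
    exact pow_le_pow_left₀ (n12 _ _) p1 m
  have hbase : NN (fun n => bK s (K + 1) n + Up s K) u ≤
      2 ^ Up s K * (Q ^ m + (1 / 2) ^ (K + 7) * Q ^ (m - 1)) := by
    refine (n10 _ (fun n => bK s (K + 1) n) (Up s K) u (fun n _ => le_rfl)).trans ?_
    exact mul_le_mul_of_nonneg_left hsta (by positivity)
  have hmain : NN (fun n => bK s (K + 1) (s.g K + n)) u ≤
      2 ^ Up s K * (Q ^ m + 2 * (1 / 2) ^ (K + 7) * Q ^ (m - 1)) := by
    by_cases hm : m0 s K ≤ m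
    · have h7 := n11 (fun n => bK s (K + 1) (s.g K + n)) (fun n => bK s (K + 1) n + Up s K)
        (Tp s K + Up s K) u (fun n _ => Or.inr (hlarge _))
      refine h7.trans ?_
      have h8 : (2 : ℝ) ^ (Tp s K + Up s K) * NN (fun _ => 0) u ≤
          2 ^ Up s K * ((1 / 2) ^ (K + 7) * Q ^ (m - 1)) := by
        have h9 := tail (Tp s K) K m Q hQ (by unfold m0 at hm; unfold Tp; omega)
          (by unfold m0 at hm; omega)
        calc (2 : ℝ) ^ (Tp s K + Up s K) * NN (fun _ => 0) u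
            ≤ 2 ^ (Tp s K + Up s K) * (1 / 32) ^ m :=
              mul_le_mul_of_nonneg_left hu0 (by positivity)
          _ = 2 ^ Up s K * (2 ^ Tp s K * (1 / 32) ^ m) := by rw [pow_add]; ring
          _ ≤ _ := mul_le_mul_of_nonneg_left h9 (by positivity)
      calc _ ≤ 2 ^ Up s K * (Q ^ m + (1 / 2) ^ (K + 7) * Q ^ (m - 1)) +
            2 ^ Up s K * ((1 / 2) ^ (K + 7) * Q ^ (m - 1)) := add_le_add hbase h8
        _ = _ := by ring
    · have h7 := n10 (fun n => bK s (K + 1) (s.g K + n)) (fun n => bK s (K + 1) n + Up s K) 0 u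
        (fun n hn => ?_)
      · rw [pow_zero, one_mul] at h7
        refine h7.trans (hbase.trans ?_)
        have : 0 ≤ ((1 : ℝ) / 2) ^ (K + 7) * Q ^ (m - 1) := by positivity
        refine mul_le_mul_of_nonneg_left ?_ (by positivity)
        linarith
      · rcases lt_or_ge n (s.g K - x s K) with h | h
        · rw [shift s K n hZg hxZ h]
          omega
        · exfalso
          have h8 := p3 m n hn
          have h9 := hs.y1 K
          have h10 := hs.g1 K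
          apply hm
          unfold m0
          by_contra hlt
          push Not at hlt
          have h11 : (m + 1) * s.Z K ≤ (5 * s.Z K + 9 * K + 70) * s.Z K :=
            Nat.mul_le_mul_right _ (by omega)
          have h12 : (m + 1) * s.Z K = m * s.Z K + s.Z K := by ring
          omega
  have hnum := num K m Q hQ
  have hfU : ((1 : ℝ) / 2) ^ Ep s K * 2 ^ Up s K = (1 / 2) ^ (K + 7) := by
    have e : Ep s K = (K + 7) + Up s K := by unfold Ep Up; omega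
    rw [e, pow_add, mul_assoc, ← mul_pow]
    norm_num
  calc (1 / 2) ^ Ep s K * NN (fun n => bK s (K + 1) (s.g K + n)) u
      ≤ (1 / 2) ^ Ep s K * (2 ^ Up s K * (Q ^ m + 2 * (1 / 2) ^ (K + 7) * Q ^ (m - 1))) :=
        mul_le_mul_of_nonneg_left hmain (by positivity)
    _ = (1 / 2) ^ (K + 7) * (Q ^ m + 2 * (1 / 2) ^ (K + 7) * Q ^ (m - 1)) := by
        rw [← mul_assoc, hfU]
    _ ≤ (1 / 2) ^ (K + 7) * (9 / 8 * Q ^ m) := mul_le_mul_of_nonneg_left hnum (by positivity)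
    _ = 9 / 8 * (1 / 2) ^ (K + 7) * Q ^ m := by ring

end Pool.Agent.CPW
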