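import Pool.Agent.CPW.Defs

set_option autoImplicit false

/-!
# CPW: targets

Problem MP_01c4da_an, row 5205, GO by lead. Theorem: for every `h n → ∞`, `h ≥ 1`, there are
weights
`1 ≤ b n ≤ h n`, `b (n+1) ≤ 2 b n`, such that the weighted Hardy space `H²(b)` of the disc does
not
have (CP). Here `b n = 2 ^ bb n` and `φ = ∑ a_k z ^ x_k`. One file per target,
`Pool/Agent/CPW/P_XXX.lean`, `theorem Pool.Agent.CPW.p_XXX (other targets) : T_XXX`, helper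
lemmas in
the namespace `Pool.Agent.CPW.XXX_`. The docstrings contain the proofs. Write `j = (k-1)/2` for
a node
`k ≥ 1`: it was created at stage `j`. All is explicit: `x (2j+1) = g j`, `x (2j+2) = 2 g j - x j`.
Most arithmetic goals are closed by `omega` or `nlinarith` after unfolding `Ep Up Dp Lp Tp m0`.
-/

namespace Pool.Agent.CPW

open Polynomial Filter Topology
open Pool.Agent.CycP

/-! ### sequences -/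

/-- **SEQ** (15 min). For every `e` let `N e` be such that `2 ^ e ≤ h n` for `n ≥ N e`. Define
`Z 0 = 2`, `Z (K+1) = 3 * G K (Z K)` by recursion, `Y K = max ((5 Z + 9K + 70) Z) (N (9 Z + 8K +
60 + 3))`
(the exponent is `Tp + Up = 4 Z + 8 K + 60 + Z + 3`), `g K = Y K + ...`. -/
def T_SEQ : Prop := ∀ h : ℕ → ℝ, Tendsto h atTop atTop →
  ∃ s : Sq, Ok s ∧ ∀ K n, s.Y K ≤ n → (2 : ℝ) ^ (Tp s K + Up s K) ≤ h n

/-- **XFA** (40 min). Elementary facts; induction on `K` (`k ≤ 2K + 2`, `k = 2K+1`, `k = 2K+2`,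
with
`x K < Z K ≤ g K / 4`). (8): `|a (2j+1)| + |a (2j+2)| ≤ 2 * 2^(-E j)`, because
`al (2j+2) = 2 E j + 1 - al j ≥ E j` (`al j ≤ Z j + 6 ≤ E j`), and `E j ≥ j + 12`:
`1/64 + ∑ 2 * 2^(-j-12) ≤ 1/32`. -/
def T_XFA : Prop := ∀ s : Sq, Ok s →
  (∀ K, 2 ≤ s.Z K ∧ K ≤ s.Z K ∧ 4 * s.Z K ≤ s.g K ∧ 2 * K + 60 ≤ s.g K ∧ s.Z K < s.Z (K + 1)) ∧
  (∀ K K', K ≤ K' → s.Z K ≤ s.Z K' ∧ s.g K ≤ s.g K') ∧
  (x s 0 = 1 ∧ ∀ k, x s (2 * k + 1) = s.g k ∧ x s (2 * k + 2) = 2 * s.g k - x s k) ∧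
  (∀ K k, k ≤ 2 * K → 1 ≤ x s k ∧ x s k < s.Z K) ∧
  (∀ K l, 2 * K + 1 ≤ l → s.g K ≤ x s l) ∧
  (∀ l, l ≤ x s l) ∧
  (∀ k, al s (2 * k + 1) = Ep s k ∧ al s (2 * k + 2) + al s k = 2 * Ep s k + 1 ∧ 6 ≤ al s k) ∧
  (∀ K k, k ≤ 2 * K → al s k ≤ s.Z K + 6) ∧
  (∀ k, |a s k| = (1 / 2) ^ al s k ∧ a s (2 * k + 1) = (1 / 2) ^ Ep s k ∧
    2 * a s k * a s (2 * k + 2) = -(a s (2 * k + 1)) ^ 2) ∧
  (V s 0 = 0 ∧ ∀ k, V s (2 * k + 1) = s.Z k ∧ V s (2 * k + 2) = V s k ∧ V s k < x s k ∧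
    V s k ≤ s.Z k ∧ (1 ≤ k → V s k ≤ s.Z ((k - 1) / 2))) ∧
  (∀ K, ∑ l ∈ Finset.range (2 * K + 1), |a s l| ≤ 1 / 32)

/-- **BNF** (40 min; from XFA). Facts on the node weights. `k = 2j+1`, `x k = g j`: `bn` is `min
(n - Y) L`
up to `g + Z`, then `0`. `V = Z j`; `x l ≤ g j + v`, `l ≠ k` forces `l ≤ 2j` (`x (2j+2) = 2g - x
j > g + Z`, and
`x l ≥ g (j+1)` for `l ≥ 2j+3`), so `x l < Z j`, and `g - Z ≥ Y + L`. `k = 2j+2`, `x k = 2g - x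
j`, `V k = V j < x j`:
`x k + v < 2g`; `l = 2j+1`: `x k + v - g = g - x j + v` in `[g - Z, g)`; `l ≤ 2j`: `x k + v - x
l` in
`[2g - 2Z, 2g)`, and `g - 2Z ≥ Y + L`; `l ≥ 2j+3` is impossible. -/
def T_BNF : Prop := ∀ s : Sq, Ok s → ∀ k,
  bn s k 0 = 0 ∧ (∀ n, bn s k (n + 1) ≤ bn s k n + 1) ∧ (∀ n, 2 * x s k ≤ n → bn s k n = 0) ∧
  (1 ≤ k → (∀ n, bn s k n ≤ Lp s ((k - 1) / 2)) ∧ ∀ v ≤ V s k,
    bn s k (x s k + v) = Lp s ((k - 1) / 2) ∧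
    ∀ l, l ≤ 2 * k → l ≠ k → x s l ≤ x s k + v → bn s k (x s k + v - x s l) = Lp s ((k - 1) / 2))

/-- **BBA** (40 min; from XFA). Unfolding of `bb`. `bK (K+1) n = bK K n` for `n < Z K`; `n + 1 ≤
Z (n+1)`; so
`bK K n = bb n` for `n < Z K` (compare both with `K' = max K (n+1)`); `bK K n = 0` for `n ≥ Z K`
by cases on `K`
(`Z (K+1) = 3 g K ≥ 2 g K + 2 Z K`). -/
def T_BBA : Prop := ∀ s : Sq, Ok s →
  (∀ K n, n < s.Z K → bK s K n = bb s n) ∧ (∀ K n, s.Z K ≤ n → bK s K n = 0) ∧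
  (∀ K n, s.Z K ≤ n → n < s.g K → bb s n = min (n - s.Y K) (Tp s K)) ∧
  (∀ K n, s.g K ≤ n → n < 2 * s.g K - x s K → bb s n = bb s (n - s.g K) + Up s K) ∧
  (∀ K n, 2 * s.g K - x s K ≤ n → n < 2 * s.g K + 2 * s.Z K →
    bb s n = et s K + bn s K (n - (2 * s.g K - x s K))) ∧
  (∀ K n, 2 * s.g K + 2 * s.Z K ≤ n → n < s.Z (K + 1) → bb s n = 0) ∧
  (∀ n, n < s.Z 0 → bb s n = 0)

/-- **BBB** (50 min; from XFA, BNF, BBA). Facts on the weight. Third: induction on `K` (`et K ≤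
2Z + K + 7` as `al ≥ 6`,
`L ((K-1)/2) ≤ L (K-1) ≤ Z K + 6K + 47`, `Tp (K-1) + Up (K-1) ≤ Tp K`). Shift rule: inside the
pieces (`min (n - Y) T` grows
by at most one, BNF), at `Z K` (value `0`), at `g K` (value `bb 0 + Up K = Up K ≤ Tp K`, before
it `Tp K`, since
`g - 1 - Y ≥ T`), at `2g - x` (value `et K + 0 ≤ Tp + Up + 1`, before it `Tp + Up`), at `2g +
2Z` (value `0`), at `Z (K+1)` (`0`);
in the piece of the first window `bb (n+1-g) ≤ bb (n-g) + 1` by strong induction. Last: `2g + v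
- x l`: if `x l ≤ x k + v` it is
`2g - x k + (x k + v - x l)`, BNF; otherwise it is in `[2g - x k - Z, 2g - x k)` and `bb = Tp +
Up ≥ et + L`
(`n - g ≥ g - 2Z ≥ Y + T`). -/
def T_BBB : Prop := ∀ s : Sq, Ok s →
  bb s 0 = 0 ∧ (∀ n, bb s (n + 1) ≤ bb s n + 1) ∧
  (∀ K n, n < s.Z (K + 1) → bb s n ≤ Tp s K + Up s K) ∧ {n | bb s n = 0}.Infinite ∧
  (∀ K n, s.Z K ≤ n → n < s.Y K → bb s n = 0) ∧
  (∀ K n, n ≤ s.Z K → bb s (n + s.g K) = bb s n + Up s K) ∧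
  (∀ K t, 1 ≤ t → t ≤ s.Z K → bb s (s.g K - t) = Tp s K) ∧
  (∀ k, 1 ≤ k → ∀ v ≤ V s k, et s k + Lp s ((k - 1) / 2) ≤ bb s (2 * s.g k + v) ∧
    ∀ l, l ≤ 2 * k → l ≠ k → et s k + Lp s ((k - 1) / 2) ≤ bb s (2 * s.g k + v - x s l))

/-! ### the function `1 - φ` is not cyclic -/

/-- the coefficient of `φ p` at `n` -/
noncomputable def cv (s : Sq) (p : ℂ[X]) (n : ℕ) : ℂ :=
  ∑ l ∈ Finset.range (n + 1), if x s l ≤ n then (a s l : ℂ) * p.coeff (n - x s l) else 0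

/-- **COE** (20 min; from XFA: `l ≤ x l`). -/
def T_COE : Prop := ∀ s : Sq, Ok s → ∀ (p : ℂ[X]) (n : ℕ),
  PowerSeries.coeff n (1 - (1 - ph s) * (p : PowerSeries ℂ)) =
    (if n = 0 then 1 else 0) - p.coeff n + cv s p n

/-- **TTT** (50 min; from XFA, BBB). The tree. `M ≥ 0` bounds `‖p_n‖` by `M W_n`. Downward
induction on `k` (if
`x k > deg p` nothing to prove; `k ≤ x k`), claim for `k` from the claims for `2k+1` and `2k+2`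
(`V` of both is `≥ V k`,
`(2k+1-1)/2 = (2k+2-1)/2 = k`): coefficient at `n = 2 g k + v`; the sum `cv` runs over `l ≤
2k+2` exactly (`x l < Z k` for `l ≤ 2k`,
`x l ≥ g (k+1) ≥ 3 g k > n` for `l ≥ 2k+3`), so `a_(2k+2) p_(v+x k) = e_n + p_n - a_k p_(v + x
(2k+2)) - a_(2k+1) p_(v + g k) -
∑_(l ≤ 2k, l ≠ k) a_l p_(n - x l)`. `|a_(2k+1)|² = 2 |a_k a_(2k+2)|`, `∑ |a_l| ≤ 1`, `n - x l <
Z (k+1)`, so
`kap ≤ k + 1` there and `W ≤ 2^(k+9) / 2^(et k + L j)`. So `‖p_(v+x k)‖ ≤ |a_k| (c+M) (3 * 2^(-D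
k) + 2^(k+10 - et k - L j + al k +
al (2k+2)))` and `al k + al (2k+2) = 2 E k + 1`, `et k + al k = 2 Z k + k + 13`; the exponent is
`2k + 18 + al k - L j ≤ -D j - 1`
(`al k ≤ 2 E j + 1`) and `D k ≥ D j + 3`. -/
def T_TTT : Prop := ∀ s : Sq, Ok s → ∀ (kap : ℕ → ℕ) (p : ℂ[X]) (c M : ℝ), 0 ≤ c → 0 ≤ M →
  (∀ n K, n ≤ s.Z K → kap n ≤ K) →
  (∀ n, 1 ≤ n → ‖cv s p n - p.coeff n‖ * 2 ^ bb s n ≤ c) →
  (∀ n, ‖p.coeff n‖ * 2 ^ bb s n ≤ M * 2 ^ (kap n + 8)) →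
  ∀ k, 1 ≤ k → ∀ v ≤ V s k,
    ‖p.coeff (v + x s k)‖ ≤ (1 / 2) ^ al s k * (c + M) * (1 / 2) ^ Dp s ((k - 1) / 2)

/-- **RWW** (40 min; from XFA, BBB, TTT). The row `n = N + g K`, `N ≤ Z K`: `cv` runs over `l ≤
2K+1` (`x l < Z K` for `l ≤ 2K`,
`x (2K+2) = 2 g K - x K > n`). `f p_N = e_n + p_n - ∑_(l ≤ 2K) a_l p_(n - x l)`. If `x l ≤ N`:
TTT with the node `2K+1`,
`v = N - x l ≤ Z K = V`; also `p_n` (`v = N`). If `x l > N`: `n - x l = g K - t`, `1 ≤ t ≤ Z K`,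
`bb = Tp K`, `kap ≤ K + 1` (`≤ Z (K+1)`):
`‖p‖ ≤ M 2^(K + 9 - Tp K)`, divided by `f`: at most `M 2^(-D K)` since `Tp ≥ D + E + K + 9`. `bb
n = bb N + Up K`, `E K - Up K = K + 7`.
Total: `‖p_N‖ ≤ c 2^(K+7-bb N) + 2 (c + M) 2^(-D K) + M 2^(-D K)` (`∑ |a_l| ≤ 1`), `2^(-D K) ≤
2^(-3-bb N)` (`bb N ≤ N ≤ Z K`). -/
def T_RWW : Prop := ∀ s : Sq, Ok s → ∀ (kap : ℕ → ℕ) (p : ℂ[X]) (c M : ℝ), 0 ≤ c → 0 ≤ M →
  (∀ n K, n ≤ s.Z K → kap n ≤ K) →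
  (∀ n, 1 ≤ n → ‖cv s p n - p.coeff n‖ * 2 ^ bb s n ≤ c) →
  (∀ n, ‖p.coeff n‖ * 2 ^ bb s n ≤ M * 2 ^ (kap n + 8)) →
  ∀ K N, N ≤ s.Z K → ‖p.coeff N‖ * 2 ^ bb s N ≤ (c + M / 2) * 2 ^ (K + 8)

/-- **CON** (40 min; from XFA, BBB, COE, RWW). `kap n` the least `K` with `n ≤ Z K`. Suppose all
the numbers are at most
`c = 1/1000`; `M` the maximum over the support of `p` of `‖p_n‖ 2^(bb n) / 2^(kap n + 8)` (`M =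
0` if `p = 0`), attained at `N`: RWW with
`K = kap N`: `M ≤ c + M/2`, `M ≤ 2c`, `‖p_0‖ ≤ 2 c 2^8 = 512 c` (`kap 0 = 0`, `bb 0 = 0`), but
`cv s p 0 = 0` (`x l ≥ 1`):
`‖1 - p_0‖ ≤ c`. -/
def T_CON : Prop := ∀ s : Sq, Ok s → ∀ p : ℂ[X],
  ∃ n, 1 / 1000 < ‖PowerSeries.coeff n (1 - (1 - ph s) * (p : PowerSeries ℂ))‖ * 2 ^ bb s n

/-! ### the powers of `φ` -/

/-- **ALG** (25 min). (1) binomial theorem, `i C(n,i) = n C(n-1,i-1)`. (2) induction on `m`, or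
the binomial theorem: the
remaining terms are divisible by `A³`, `A B` or `B²`, `A = f X^g`, `B = b X^g'`, `g ≤ g' ≤ 2g`. -/
def T_ALG : Prop :=
  (∀ (r u : ℝ[X]) (n : ℕ), (r + u) ^ (n + 1) - (n + 1 : ℝ[X]) * u * (r + u) ^ n =
    r ^ (n + 1) - ∑ i ∈ Finset.range n,
      ((i + 1 : ℕ) : ℝ[X]) * ((n + 1).choose (i + 2) : ℝ[X]) * u ^ (i + 2) * r ^ (n - 1 - i)) ∧
  (∀ (P : ℝ[X]) (f b : ℝ) (g g' : ℕ), g ≤ g' → g' ≤ 2 * g → ∀ m : ℕ, ∃ S : ℝ[X],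
    (P + C f * X ^ g + C b * X ^ g') ^ (m + 1) = P ^ (m + 1) +
      (m + 1 : ℝ[X]) * (C f * X ^ g) * P ^ m +
      (((m + 1).choose 2 : ℝ[X]) * (C f * X ^ g) ^ 2 * P ^ (m - 1) +
        (m + 1 : ℝ[X]) * (C b * X ^ g') * P ^ m) + X ^ (g + g') * S)

/-- **NNC** (30 min). Calculus of the norms. -/
def T_NNC : Prop :=
  (∀ (w : ℕ → ℕ) (u : ℝ[X]) (S : Finset ℕ), u.support ⊆ S →
    NN w u = ∑ n ∈ S, |u.coeff n| * 2 ^ w n) ∧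
  (∀ (w : ℕ → ℕ) (u v : ℝ[X]), NN w (u + v) ≤ NN w u + NN w v) ∧
  (∀ (w : ℕ → ℕ) (u v : ℝ[X]), NN w (u - v) ≤ NN w u + NN w v) ∧
  (∀ (w : ℕ → ℕ) (I : Finset ℕ) (u : ℕ → ℝ[X]), NN w (∑ i ∈ I, u i) ≤ ∑ i ∈ I, NN w (u i)) ∧
  (∀ (w : ℕ → ℕ) (c : ℝ) (u : ℝ[X]), NN w (C c * u) = |c| * NN w u) ∧
  (∀ (w : ℕ → ℕ) (c : ℕ) (u : ℝ[X]), NN w ((c : ℝ[X]) * u) = c * NN w u) ∧
  (∀ (w : ℕ → ℕ) (g : ℕ) (u : ℝ[X]), NN w (X ^ g * u) = NN (fun n => w (g + n)) u) ∧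
  (∀ (u v : ℝ[X]), NN (fun _ => 0) (u * v) ≤ NN (fun _ => 0) u * NN (fun _ => 0) v) ∧
  (∀ (u : ℝ[X]) (m : ℕ), NN (fun _ => 0) (u ^ m) ≤ NN (fun _ => 0) u ^ m) ∧
  (∀ (w w' : ℕ → ℕ) (c : ℕ) (u : ℝ[X]), (∀ n, u.coeff n ≠ 0 → w n ≤ w' n + c) →
    NN w u ≤ 2 ^ c * NN w' u) ∧
  (∀ (w w' : ℕ → ℕ) (c : ℕ) (u : ℝ[X]), (∀ n, u.coeff n ≠ 0 → w n ≤ w' n ∨ w n ≤ c) →
    NN w u ≤ NN w' u + 2 ^ c * NN (fun _ => 0) u) ∧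
  (∀ (w : ℕ → ℕ) (u : ℝ[X]), 0 ≤ NN w u) ∧ (∀ w : ℕ → ℕ, NN w 1 = 2 ^ w 0) ∧
  (∀ (P D : ℝ[X]) (q : ℝ) (m : ℕ), NN (fun _ => 0) P ≤ q → NN (fun _ => 0) (P + D) ≤ q →
    NN (fun _ => 0) ((P + D) ^ (m + 1) - P ^ (m + 1)) ≤ (m + 1) * NN (fun _ => 0) D * q ^ m)

/-- **PKF** (30 min; from XFA, NNC). `PK` has degree `< Z K`, so `PK ^ m` has degree at most `m
Z K`; `NN 0` is at most the sum
of the `|a l|`; `RK K = ∑_(l ≠ K)`; `PK (K+1) = PK K + ...`. -/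
def T_PKF : Prop := ∀ s : Sq, Ok s → ∀ K,
  NN (fun _ => 0) (PK s K) ≤ 1 / 32 ∧ |a s K| + NN (fun _ => 0) (RK s K) ≤ 1 / 32 ∧
  (∀ m n, ((PK s K) ^ m).coeff n ≠ 0 → n ≤ m * s.Z K) ∧
  PK s K = RK s K + C (a s K) * X ^ x s K ∧
  PK s (K + 1) = PK s K + C (a s (2 * K + 1)) * X ^ s.g K +
    C (a s (2 * K + 2)) * X ^ (2 * s.g K - x s K) ∧
  |a s (2 * K + 2)| ≤ a s (2 * K + 1) ∧ 0 < a s (2 * K + 1)

/-- **BNR** (50 min; from XFA, PKF). Let `bn s k n ≠ 0`. `k = 2j+1`: `Y j < n ≤ g j + Z j`, and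
modulo `X ^ (2 g j - x j)` (all
exponents of the other terms are `≥ 2 g j - x j > g j + Z j`) `RK k` is `PK j`: so `(PK j)^m`
has a coefficient at `n`,
`m0 Z ≤ Y < n ≤ m Z`. `k = 2j+2`: `Y j < n < g j`: the same modulo `X ^ g j`. `g j + Y j < n < 2
g j`: modulo `X ^ (2 g j)`
`(PK j + f X^g)^m` is `(PK j)^m + m f X^g (PK j)^(m-1)`. -/
def T_BNR : Prop := ∀ s : Sq, Ok s → ∀ k, 1 ≤ k → ∀ m n, bn s k n ≠ 0 →
  ((RK s k) ^ m).coeff n ≠ 0 → m0 s ((k - 1) / 2) ≤ m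

/-- **STA** (30 min; from XFA, BBA, BBB, NNC, PKF). If `coeff n ≠ 0`: for `n < Y K` the weights
`bK (K+1) n` and `bK K n` are equal; for
`n ≥ Y K ≥ m0 Z K` one has `m ≥ m0` and `bK (K+1) n ≤ Tp + Up`. `2^(Tp+Up) (1/32)^m ≤
(1/2)^(K+7) (1/8)^(m-1)` for `m ≥ m0`
(`Tp + Up + K + 7 = m0`). -/
def T_STA : Prop := ∀ s : Sq, Ok s → ∀ (K : ℕ) (Q : ℝ), 1 / 8 ≤ Q →
  (∀ m, NN (bK s K) ((PK s K) ^ m) ≤ Q ^ m) →
  ∀ m, NN (bK s (K + 1)) ((PK s K) ^ m) ≤ Q ^ m + (1 / 2) ^ (K + 7) * Q ^ (m - 1)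

/-- **STB** (40 min; from XFA, BBA, BBB, NNC, PKF, STA). Positions `g + t`. `t < g - x K`: `bb
(g + t) = bb t + Up K`, `f 2^Up = (1/2)^(K+7)`,
STA. `t ≥ g - x K ≥ Y K`: `m ≥ m0`, `bb ≤ Tp + Up`. Total `ε (Q^m + 2 ε Q^(m-1)) ≤ (9/8) ε Q^m`,
`ε = (1/2)^(K+7) ≤ 1/128`, `Q ≥ 1/8`. -/
def T_STB : Prop := ∀ s : Sq, Ok s → ∀ (K : ℕ) (Q : ℝ), 1 / 8 ≤ Q →
  (∀ m, NN (bK s K) ((PK s K) ^ m) ≤ Q ^ m) →
  ∀ m, NN (bK s (K + 1)) (C (a s (2 * K + 1)) * X ^ s.g K * (PK s K) ^ m) ≤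
    9 / 8 * (1 / 2) ^ (K + 7) * Q ^ m

/-- **STC** (75 min; from all above). The second window. With `f = a (2K+1)`, `α = a K`, `b = a
(2K+2) = -f²/(2α)`, `g = s.g K`,
`R = RK K`, `u = C α X^(x K)`, `PK = R + u`, `n = m`: the polynomial is `-((m+1) f²/(2α))
X^(2g-x) (PK^m - m u PK^(m-1))`, and by
ALG (1) the bracket is `R^m - ∑ (i+1) C(m,i+2) u^(i+2) R^(m-2-i)`. `bK (K+1) (2g - x + t) ≤ et K
+ bn K t` for all `t`, and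
`f² 2^(et K) / |α| = (1/2)^(K+7)`. First: `NN (bn K) (R^m) ≤ 2 (1/16)^m`: where `bn ≠ 0` one has
`m ≥ m0 j ≥ L j` (BNR), `bn ≤ L j`, so
`NN (bn) (R^m) ≤ F(R)^m + 2^(L j) F(R)^m [m ≥ L j]`, `F(R) ≤ 1/32`. (`K = 0`: `bn = 0`.) Second:
positions `t ≥ 2 x K`, so `bn = 0`:
`∑ (i+1) C(m,i+2) |α|^(i+2) F(R)^(m-2-i) ≤ m (|α| + F(R))^m ≤ m (1/32)^m ≤ (1/16)^m`. Total at
most
`((m+1)/2) ε (2 (1/16)^m + (1/16)^m)`. -/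
def T_STC : Prop := ∀ s : Sq, Ok s → ∀ (K m : ℕ),
  NN (bK s (K + 1)) (((m + 1).choose 2 : ℝ[X]) * (C (a s (2 * K + 1)) * X ^ s.g K) ^ 2 *
      (PK s K) ^ (m - 1) +
      (m + 1 : ℝ[X]) * (C (a s (2 * K + 2)) * X ^ (2 * s.g K - x s K)) * (PK s K) ^ m) ≤
    3 / 2 * (m + 1) * (1 / 2) ^ (K + 7) * (1 / 8) ^ m

/-- **STD** (50 min; from XFA, BBA, ALG, NNC, PKF). The remainder `X^(3g-x) S` of ALG (2): `bK
(K+1) n = 0` for `n ≥ 3g - x ≥ 2g + 2Z`, so the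
norm is `F(remainder) ≤ F(P'^(m+1) - P^(m+1)) + F(the three other terms)`, `P' = PK (K+1)`,
`F(P), F(P') ≤ 1/32`, `f = 2^(-E K) ≤ 2^(-12)`,
`|b| ≤ f`: `≤ (m+1) 2f (1/32)^m + (m+1) f (1/32)^m + ((m+1) m / 2) f² (1/32)^(m-1) + (m+1) f
(1/32)^m ≤ 5 (m+1) f (1/16)^m`
and `5 f ≤ (1/4) (1/2)^(K+7)` (`E K = Z K + K + 10`). -/
def T_STD : Prop := ∀ s : Sq, Ok s → ∀ (K m : ℕ) (S : ℝ[X]),
  (PK s (K + 1)) ^ (m + 1) = (PK s K) ^ (m + 1) +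
      (m + 1 : ℝ[X]) * (C (a s (2 * K + 1)) * X ^ s.g K) * (PK s K) ^ m +
      (((m + 1).choose 2 : ℝ[X]) * (C (a s (2 * K + 1)) * X ^ s.g K) ^ 2 * (PK s K) ^ (m - 1) +
        (m + 1 : ℝ[X]) * (C (a s (2 * K + 2)) * X ^ (2 * s.g K - x s K)) * (PK s K) ^ m) +
      X ^ (s.g K + (2 * s.g K - x s K)) * S →
  NN (bK s (K + 1)) (X ^ (s.g K + (2 * s.g K - x s K)) * S) ≤
    1 / 4 * (m + 1) * (1 / 2) ^ (K + 7) * (1 / 8) ^ m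

/-- **NRM** (40 min; from XFA, BBB, BBA, ALG, NNC, PKF, STA, STB, STC, STD). One step: from `NN
(bK K) (PK K ^ m) ≤ Q^m` for all `m` to
`NN (bK (K+1)) (PK (K+1) ^ m) ≤ (Q + 4 ε)^m`, `ε = (1/2)^(K+7)`: for `m + 1`:
`Q^(m+1) + ε Q^m + (m+1) ((9/8) + (3/2) + (1/4)) ε Q^m ≤ Q^(m+1) + 4 (m+1) ε Q^m ≤ (Q +
4ε)^(m+1)`. Start: `(1/64)^m ≤ (1/8)^m`.
`Q_K = 1/8 + ∑_(i<K) 4 (1/2)^(i+7) ≤ 1/8 + 1/16`. -/
def T_NRM : Prop := ∀ s : Sq, Ok s → ∀ K m, NN (bK s K) ((PK s K) ^ m) ≤ (1 / 4) ^ m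

/-- **PHC** (40 min; from XFA, BBA, NNC, NRM). `ph` and `PK K` (mapped to `ℂ`) agree modulo `X ^
g K` (`x l = n < g K` forces `l ≤ 2K`), so
`coeff n (ph ^ m) = coeff n (PK K ^ m)` for `n < g K`. Partial sums over `n < N`: `K = N`, `N ≤
Z N ≤ g N`, `bK N n = bb n`. -/
def T_PHC : Prop := ∀ s : Sq, Ok s → PowerSeries.coeff 0 (ph s) = 0 ∧ ∀ m,
  Summable (fun n => ‖PowerSeries.coeff n (ph s ^ m)‖ * 2 ^ bb s n) ∧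
  ∑' n, ‖PowerSeries.coeff n (ph s ^ m)‖ * 2 ^ bb s n ≤ (1 / 4) ^ m

/-! ### weighted Hardy spaces -/

/-- the sequence space `ℓ²` -/
abbrev L2 : Type := lp (fun _ : ℕ => ℂ) 2

/-- `B` is the weighted Hardy space `H²(b)`, described on `ℓ²` with `y n = b n` times the `n`-th
coefficient -/
structure IsW (b : ℕ → ℝ) (B : AnSpace 1 (Metric.ball 0 1) L2) : Prop where
  fn : ∀ (y : L2) (w : Fin 1 → ℂ), w ∈ Metric.ball (0 : Fin 1 → ℂ) 1 →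
    HasSum (fun n => y n / (b n : ℂ) * (w 0) ^ n) (B.fn y w)
  poly : ∀ (P : MvPolynomial (Fin 1) ℂ) (n : ℕ),
    (B.poly P : L2) n = (b n : ℂ) * P.coeff (Finsupp.single 0 n)
  shift : ∀ (y : L2) (n : ℕ), (B.shift 0 y : L2) 0 = 0 ∧
    (B.shift 0 y : L2) (n + 1) = (b (n + 1) / b n : ℂ) * y n

/-- **SPC** (75 min). Construction: `fn y w = ∑' y n / b n * (w 0)^n` (absolutely convergent:
`|y n| ≤ ‖y‖`, `b ≥ 1`; analytic: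
a power series in the coordinate), injective by uniqueness of power series, `poly` by the
formula (finitely supported), dense, shift
bounded by `2`. Compare `Pool/Agent/CycP/Sp.lean`. -/
def T_SPC : Prop := ∀ b : ℕ → ℝ, (∀ n, 1 ≤ b n) → (∀ n, b (n + 1) ≤ 2 * b n) →
  ∃ B : AnSpace 1 (Metric.ball 0 1) L2, IsW b B

/-- **MXD** (30 min). If `L` extends the evaluation at `w`, `|w| ≥ 1`: take `P = ∑_(n ∈ I)
conj(w)^n X^n` over a finite set `I` of `n` with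
`b n = 1`: `P(w) = ∑ |w|^(2n) = ‖poly P‖²` so `√|I| ≤ ‖poly P‖ ≤ ‖L‖`. Conversely `fn_bounded`. -/
def T_MXD : Prop := ∀ (b : ℕ → ℝ) (B : AnSpace 1 (Metric.ball 0 1) L2), (∀ n, 1 ≤ b n) → IsW b B →
  {n | b n = 1}.Infinite → B.maxDomain = Metric.ball 0 1

/-- the operator `f ↦ ∑ f_m (2 Φ)^m` from `H²` to `H²(b)`: the composition operator with symbol
`2 Φ` -/
structure IsT (b : ℕ → ℝ) (Φ : PowerSeries ℂ) (T : L2 →L[ℂ] L2) : Prop where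
  hasSum : ∀ (f : L2) (n : ℕ),
    HasSum (fun m => f m * ((b n : ℂ) * PowerSeries.coeff n ((2 * Φ) ^ m))) ((T f : L2) n)

/-- **OPT** (50 min). `T f = ∑' f m • v m`, `v m n = b n * coeff n ((2Φ)^m)`, `‖v m‖₂ ≤ ‖v m‖₁ ≤
2^m (1/4)^m`. -/
def T_OPT : Prop := ∀ (b : ℕ → ℝ) (Φ : PowerSeries ℂ), (∀ n, 1 ≤ b n) →
  (∀ m, Summable (fun n => ‖PowerSeries.coeff n (Φ ^ m)‖ * b n) ∧
    ∑' n, ‖PowerSeries.coeff n (Φ ^ m)‖ * b n ≤ (1 / 4) ^ m) →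
  ∃ T : L2 →L[ℂ] L2, IsT b Φ T

/-- **CMP** (50 min). `φ w = 2 ∑ coeff n Φ w^n`, of modulus `≤ 1/2`; for `w` in the disc the
values of `T f` and `f` are `fn` (on the
maximal domain `ext` and `fn` agree at points of the disc: `AnSpace.ext_eq` or density of the
polynomials), and
`fn (T f) w = ∑_n ∑_m f_m coeff n ((2Φ)^m) w^n = ∑_m f_m (φ w)^m` (absolutely summable: Fubini;
the evaluation at `w` of power series with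
summable coefficients is multiplicative). -/
def T_CMP : Prop := ∀ (b : ℕ → ℝ) (Φ : PowerSeries ℂ) (A B : AnSpace 1 (Metric.ball 0 1) L2)
  (T : L2 →L[ℂ] L2), (∀ n, 1 ≤ b n) → IsW (fun _ => 1) A → IsW b B → IsT b Φ T →
  (∀ m, Summable (fun n => ‖PowerSeries.coeff n (Φ ^ m)‖ * b n) ∧
    ∑' n, ‖PowerSeries.coeff n (Φ ^ m)‖ * b n ≤ (1 / 4) ^ m) →
  B.maxDomain = Metric.ball 0 1 → A.maxDomain = Metric.ball 0 1 →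
  ∃ φ : B.maxDomain → A.maxDomain, ∀ (f : L2) (w : B.maxDomain), B.ext (T f) w = A.ext f (φ w)

/-- **CYC** (40 min). The orbit of `f` contains `f`, is a subspace and is invariant under the
shift; so is its closure.
`(1 - z/2) ∑_(k<N) (z/2)^k = 1 - (z/2)^N → 1`, so `1` and all polynomials are in the closure of
the orbit. The constant `1` is cyclic in
`B` (`poly_dense`). -/
def T_CYC : Prop := ∀ (b : ℕ → ℝ) (A B : AnSpace 1 (Metric.ball 0 1) L2), (∀ n, 1 ≤ b n) →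
  IsW (fun _ => 1) A → IsW b B →
  A.Cyclic (A.poly (1 - MvPolynomial.C (1 / 2) * MvPolynomial.X 0)) ∧ B.Cyclic (B.poly 1)

/-- **NCY** (50 min). `T (1 - z/2) = 1 - Φ`. If it is cyclic there is `y` in the orbit with
`‖poly 1 - y‖ ≤ 1/1000`; `fn y w = P(w) fn (T ..) w` on the
disc, so (uniqueness of power series, or `fn_inj` and the shift) `y n = b n * coeff n ((1 - Φ)
P)`, and `|(poly 1 - y) n| ≤ 1/1000` for all `n`. -/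
def T_NCY : Prop := ∀ (b : ℕ → ℝ) (Φ : PowerSeries ℂ) (A B : AnSpace 1 (Metric.ball 0 1) L2)
  (T : L2 →L[ℂ] L2), (∀ n, 1 ≤ b n) → IsW (fun _ => 1) A → IsW b B → IsT b Φ T →
  (∀ p : ℂ[X], ∃ n,
    1 / 1000 < ‖PowerSeries.coeff n (1 - (1 - Φ) * (p : PowerSeries ℂ))‖ * b n) →
  ¬ B.Cyclic (T (A.poly (1 - MvPolynomial.C (1 / 2) * MvPolynomial.X 0)))

end Pool.Agent.CPW
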