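import Pool.Agent.CPW.Targets
import Pool.Agent.CycP.Mul

set_option autoImplicit false

/-!
# CPW, second part: the multiplier algebra of `H²(b)` is the algebra `H^∞` of the disc of radius 2

Addition to `Pool/Agent/CPW/Targets.lean`. For a weight with `b (n+1) ≤ 2 b n`, and with
equality on
arbitrarily long intervals, the multipliers of `H²(b)` are exactly the restrictions of the bounded
analytic functions on the disc of radius `2`. Files `Pool/Agent/CPW/P_XXX.lean`, `theorem p_XXX`.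
-/

namespace Pool.Agent.CPW

open Polynomial Filter Topology
open Pool.Agent.CycP

/-- **WSA** (50 min). Von Neumann's inequality for weighted shifts. The left side is affine in
each
`w i` separately (`w i` real in `[-1, 1]`), so its norm is at most the maximum over all choices
`w i = ± 1` (induction over the `i < N`; `w = (1+w)/2 * 1 + (1-w)/2 * (-1)`). For `w i = ± 1` put
`s n = ∏_(i < n) w i`: `∏_(n ≤ i < m) w i = s n * s m`, so the sum is `∑ p_(m-n) x'_n y'_m` with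
`x' = s x`, `y' = s y`, which is the constant term of `p(z) X(z) Y(1/z)` on the unit circle
(average over the `R`-th roots of unity, `R` larger than `N` and `deg p + N`, or an integral over
the circle), at most `M ‖x‖ ‖y‖` by Cauchy-Schwarz and Parseval. -/
def T_WSA : Prop := ∀ (p : ℂ[X]) (M : ℝ), (∀ z : ℂ, ‖z‖ = 1 → ‖p.eval z‖ ≤ M) →
  ∀ w : ℕ → ℝ, (∀ n, |w n| ≤ 1) → ∀ (N : ℕ) (x y : ℕ → ℂ),
    ‖∑ m ∈ Finset.range N, ∑ n ∈ Finset.range (m + 1),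
      p.coeff (m - n) * (∏ i ∈ Finset.Ico n m, (w i : ℂ)) * x n * y m‖ ≤
    M * √(∑ n ∈ Finset.range N, ‖x n‖ ^ 2) * √(∑ n ∈ Finset.range N, ‖y n‖ ^ 2)

/-- **MLA** (60 min; from WSA). `H(z) = ∑ c_k z^k` on `|z| < 2`. For `r < 1` the Taylor
polynomials of
`H(2 r z)` converge uniformly on `|z| ≤ 1` and `|H(2rz)| ≤ M`, so WSA holds (limit of polynomials,
for fixed `N` only the coefficients below `N` matter) with `p.coeff k` replaced by `c_k (2r)^k`,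
and
with `r → 1` by `c_k 2^k`. Take `w i = b (i+1) / (2 b i)`: `2^(m-n) ∏ w i = b m / b n`. So for
every
`f`, with `(Hf)_m = ∑_(n ≤ m) c_(m-n) f_n / b n` (the coefficients of the product) and `y m` the
conjugate of `b m (Hf)_m`: `∑_(m<N) |b m (Hf)_m|² ≤ M² ∑_(n<N) |f n|²` for every `N`. So
`x m = b m (Hf)_m` is in `ℓ²`, and `fn x w = H(w 0) fn f w` (Cauchy product, absolute
convergence in the unit disc). -/
def T_MLA : Prop := ∀ b : ℕ → ℝ, (∀ n, 1 ≤ b n) → (∀ n, b (n + 1) ≤ 2 * b n) →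
  ∀ (H : ℂ → ℂ) (M : ℝ), DifferentiableOn ℂ H (Metric.ball 0 2) →
  (∀ z ∈ Metric.ball (0 : ℂ) 2, ‖H z‖ ≤ M) →
  ∀ B : AnSpace 1 (Metric.ball 0 1) L2, IsW b B → ∀ f : L2, ∃ x : L2,
    (∀ w ∈ Metric.ball (0 : Fin 1 → ℂ) 1, B.fn x w = H (w 0) * B.fn f w) ∧ ‖x‖ ≤ M * ‖f‖

/-- **MLB** (60 min). Closed graph theorem: `‖h f‖ ≤ K ‖f‖`. `c_n` the coefficients of `h = h * 1`
(`c n = y n / b n`, `y = h * poly 1`). Let `b (N+i) = 2^i b N` for `i ≤ l` and `q` a polynomial of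
degree `≤ l`: the norm of `h z^N q` gives `∑_(i ≤ l) |(c q)_i|² 4^i ≤ K² ∑ |q_i|² 4^i`. As `l` is
arbitrary this holds with all `i` on the left. `q = 1`: the power series `H = ∑ c_i z^i` converges
for `|z| < 2`. For fixed `|z| < 2` take `q_i = conj(z)^i / 4^i`, `i ≤ m`, `S_m = ∑_(i ≤ m)
|z|^(2i) / 4^i`:
`|H(z)| S_m = |(H q)(z)| ≤ (∑ |(c q)_i|² 4^i)^(1/2) (∑ |z|^(2i) / 4^i)^(1/2) ≤ K (S_m
S_∞)^(1/2)`, so
`|H(z)| ≤ K (S_∞ / S_m)^(1/2) → K`. -/
def T_MLB : Prop := ∀ (b : ℕ → ℝ) (B : AnSpace 1 (Metric.ball 0 1) L2), (∀ n, 1 ≤ b n) →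
  IsW b B → (∀ l : ℕ, ∃ N, ∀ i ≤ l, b (N + i) = 2 ^ i * b N) →
  ∀ h : (Fin 1 → ℂ) → ℂ, B.IsMultiplier h → ∃ H : ℂ → ℂ, DifferentiableOn ℂ H (Metric.ball 0 2) ∧
    (∃ M : ℝ, ∀ z ∈ Metric.ball (0 : ℂ) 2, ‖H z‖ ≤ M) ∧
    ∀ w ∈ Metric.ball (0 : Fin 1 → ℂ) 1, h w = H (w 0)

end Pool.Agent.CPW
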